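import Pool.Agent.E8helper84.TV.Fen
import Pool.Agent.Y767.HC.Good

/-! # The L-functions satisfy the axioms `GoodE`, uniformly in the infinity type -/

set_option autoImplicit false
set_option linter.unusedSectionVars false

open NumberField Complex Filter Topology MeasureTheory
open NumberField.Units

namespace Pool.Agent.E8helper84.TV

open Pool.Agent.Y773 (TPos LI VM cc sg)
open Pool.Agent.Y767 (IsHecke IsHM FEn eq_of_LI nonvanish card_places)
open Pool.Agent.W354 (LogC GoodE)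

section

variable (K : Type) [Field K] [NumberField K] [IsTotallyReal K]

/-- the logarithmic conductor of the L-function of `ψ`, shifted by `H` -/
noncomputable def lcK (𝔮 : Ideal (𝓞 K)) (ν : InfinitePlace K → ℝ) (H : ℝ) : ℝ → ℝ :=
  lcn (Ideal.absNorm 𝔮 : ℝ) (fun w : InfinitePlace K => -ν w + H)

lemma one_le_norm {𝔮 : Ideal (𝓞 K)} (h : 𝔮 ≠ ⊥) : (1 : ℝ) ≤ (Ideal.absNorm 𝔮 : ℝ) := by
  have : Ideal.absNorm 𝔮 ≠ 0 := by
    rw [Ne, Ideal.absNorm_eq_zero_iff]; exact h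
  exact_mod_cast Nat.one_le_iff_ne_zero.mpr this

lemma lcK_logC {𝔮 : Ideal (𝓞 K)} (h : 𝔮 ≠ ⊥) {ν : InfinitePlace K → ℝ} {H : ℝ}
    (hH : ∀ w, ν w ≤ H) : LogC (lcK K 𝔮 ν H) :=
  lcn_logC (one_le_norm K h) (fun w => by linarith [hH w])

theorem goodE : ∃ A : ℝ, 1 ≤ A ∧ ∀ 𝔮 : Ideal (𝓞 K), 𝔮 ≠ ⊤ →
    ∀ (ν : InfinitePlace K → ℝ) (ψ : Ideal (𝓞 K) →*₀ ℂ) (H : ℝ), (∀ w, ν w ≤ H) → ∑ w, ν w = 0 →
    IsHecke K 𝔮 ν ψ → ∀ F : ℂ → ℂ, Differentiable ℂ F → (∀ s : ℂ, 1 < s.re → F s = LI ψ s) →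
    GoodE (Module.finrank ℚ K) A (lcK K 𝔮 ν H)
      (fun z => F (z + (H : ℂ) * I))
      (fun m => (cc ψ m * (ArithmeticFunction.vonMangoldt m : ℂ)) *
        (m : ℂ) ^ (-((H : ℂ) * I))) := by
  obtain ⟨A₀, hA₀, hD⟩ := Pool.Agent.Y772.DK.t_dirK K
  have hdN : (1 : ℝ) ≤ (Ideal.absNorm (differentIdeal ℤ (𝓞 K)) : ℝ) :=
    one_le_norm K differentIdeal_ne_bot
  obtain ⟨A₁, hA₁, hfe⟩ := t_fen' (ι := InfinitePlace K)
    (Ideal.absNorm (differentIdeal ℤ (𝓞 K)) : ℝ) hdN A₀ hA₀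
  refine ⟨max A₀ A₁, le_max_of_le_left hA₀, fun 𝔮 htop ν ψ W hν hs h F hF hFL => ?_⟩
  set n : ℝ := (Module.finrank ℚ K : ℝ) with hn
  have hn0 : 0 < n := by
    have := Module.finrank_pos (R := ℚ) (M := K)
    rw [hn]; exact_mod_cast this
  have hcard : (Fintype.card (InfinitePlace K) : ℝ) = n := by rw [card_places, hn]
  have hW0 : 0 ≤ W := by
    have h1 : ∑ w, ν w ≤ ∑ _w : InfinitePlace K, W := Finset.sum_le_sum fun w _ => hν w
    rw [hs, Finset.sum_const, Finset.card_univ, nsmul_eq_mul, hcard] at h1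
    exact nonneg_of_mul_nonneg_right h1 hn0
  have hq1 : (1 : ℝ) ≤ (Ideal.absNorm 𝔮 : ℝ) := one_le_norm K h.ne_bot
  set Q : ℝ := (Ideal.absNorm 𝔮 : ℝ) ^ (1 / n) with hQ
  have hQ1 : 1 ≤ Q := Real.one_le_rpow hq1 (by positivity)
  have hQn : Q ^ Fintype.card (InfinitePlace K) = (Ideal.absNorm 𝔮 : ℝ) := by
    rw [card_places, hQ, ← Real.rpow_natCast, ← Real.rpow_mul (by linarith), ← hn,
      one_div_mul_cancel hn0.ne', Real.rpow_one]
  obtain ⟨e₀, he₀, hM⟩ := h.toIsHM.isModK hs htop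
  have hψ1 : ∀ 𝔞, ‖ψ 𝔞‖ ≤ 1 := hM.norm_le_one
  obtain ⟨d1, d2, d3, d4, d5, d6, d7, -, d8, d9, -⟩ := hD ψ hψ1
  obtain ⟨e, G, hG, hGL⟩ := h.fe hs htop
  have hFG : F = G := eq_of_LI hF hG.diff (fun s hs => by rw [hFL s hs, hGL s hs])
  rw [← hFG] at hG
  have hR : (0 : ℝ) < ((Ideal.absNorm 𝔮 * Ideal.absNorm (differentIdeal ℤ (𝓞 K)) : ℕ) : ℝ) := by
    push_cast
    nlinarith
  have hsh := hG.shift hR W
  have hRe : ((Ideal.absNorm 𝔮 * Ideal.absNorm (differentIdeal ℤ (𝓞 K)) : ℕ) : ℝ) =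
      (Ideal.absNorm (differentIdeal ℤ (𝓞 K)) : ℝ) * Q ^ Fintype.card (InfinitePlace K) := by
    rw [hQn]; push_cast; ring
  rw [hRe] at hsh
  have hre : ∀ s : ℂ, (s + (W : ℂ) * I).re = s.re := fun s => by simp
  have him : ∀ s : ℂ, (s + (W : ℂ) * I).im = s.im + W := fun s => by simp
  have hnz : ∀ s : ℂ, 1 ≤ s.re → 1 ≤ s.im → F (s + (W : ℂ) * I) ≠ 0 := by
    intro s h1 h2
    rcases lt_or_eq_of_le h1 with h3 | h3
    · rw [hFL _ (by rw [hre]; exact h3)]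
      exact d3 _ (by rw [hre]; exact h3)
    · have h4 : s + (W : ℂ) * I = 1 + I * ((s.im + W : ℝ) : ℂ) := by
        apply Complex.ext
        · simp [← h3]
        · simp
      rw [h4]
      exact nonvanish he₀ hs hM hF hFL (by linarith)
  obtain ⟨f1, f2, f3, f4⟩ := hfe Q hQ1 e (fun w => -ν w + W) (fun z => F (z + W * I))
    (fun w => by linarith [hν w]) hsh
    (fun s h1 => by
      rw [hFL _ (by rw [hre]; linarith)]
      exact d5 _ (by rw [hre]; exact h1)) hnz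
  rw [hcard, hQn] at f4
  rw [hQn] at f1
  change ∀ s : ℂ, (1 / 16 : ℝ) ≤ s.re → s.re ≤ 4 → 1 ≤ s.im →
      ‖F (s + W * I)‖ ≤ A₁ * Real.exp (A₁ * lcK K 𝔮 ν W s.im) at f1
  have hlc := lcK_logC K h.ne_bot hν
  have hA0 : (0 : ℝ) < A₁ := by linarith
  have hAm : 0 < max A₀ A₁ := lt_max_of_lt_left (by linarith)
  have hnorm : ∀ m : ℕ, 0 < m → ‖(m : ℂ) ^ (-((W : ℂ) * I))‖ = 1 := fun m hm => by
    rw [Complex.norm_natCast_cpow_of_pos hm]
    simp
  refine ⟨?_, ?_, ?_, ?_, ?_, ?_, ?_, ?_, ?_⟩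
  · intro s _
    exact (hF.comp (by fun_prop : Differentiable ℂ (fun z : ℂ => z + (W : ℂ) * I))).analyticAt s
  · intro s h1 h2 h3
    refine (f1 s h1 h2 h3).trans ?_
    refine mul_le_mul (le_max_right _ _) ?_ (Real.exp_pos _).le hAm.le
    rw [Real.exp_le_exp]
    exact mul_le_mul_of_nonneg_right (le_max_right _ _) (hlc.nonneg h3)
  · intro t _
    have h1 : (1 : ℝ) < ((⟨2, t⟩ : ℂ) + (W : ℂ) * I).re := by rw [hre]; norm_num
    rw [hFL _ h1]
    refine le_trans ?_ (d6 _ (by rw [hre]))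
    exact inv_anti₀ (by linarith) (le_max_left _ _)
  · exact hnz
  · exact f2
  · exact f3
  · intro m
    rcases Nat.eq_zero_or_pos m with rfl | hm
    · simp
    rw [norm_mul, hnorm m hm, mul_one, norm_mul, Complex.norm_real,
      Real.norm_of_nonneg ArithmeticFunction.vonMangoldt_nonneg]
    exact mul_le_mul_of_nonneg_right (d7 m) ArithmeticFunction.vonMangoldt_nonneg
  · intro s h1 h2
    have h3 : (1 : ℝ) < (s + (W : ℂ) * I).re := by rw [hre]; exact h1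
    have h4 : deriv (fun z => F (z + (W : ℂ) * I)) s = deriv F (s + (W : ℂ) * I) :=
      deriv_comp_add_const _ _ _
    have h5 : deriv F (s + (W : ℂ) * I) = deriv (LI ψ) (s + (W : ℂ) * I) := by
      refine Filter.EventuallyEq.deriv_eq ?_
      have h6 : {z : ℂ | 1 < z.re} ∈ 𝓝 (s + (W : ℂ) * I) :=
        (isOpen_lt continuous_const Complex.continuous_re).mem_nhds h3
      filter_upwards [h6] with z hz
      exact hFL z hz
    rw [h4, h5, hFL _ h3, d4 _ h3]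
    congr 1
    refine tsum_congr fun m => ?_
    rcases Nat.eq_zero_or_pos m with rfl | hm
    · simp
    rw [mul_assoc (cc ψ m * _), ← Complex.cpow_add _ _ (by exact_mod_cast hm.ne')]
    congr 2
    ring
  · intro s h1 h2 h3 h4
    exact (f4 s h1 h2 h3 h4).trans (le_max_right _ _)

end

end Pool.Agent.E8helper84.TV
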