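import Pool.Agent.W354.MS.Total
import Pool.Agent.Y655.HC.Msq

/-!
# The mean square over the height, from a large sieve inequality on intervals

Adapted from `Pool.Agent.W354.MS.Short`, `Pool.Agent.W354.MS.Total` (helper354).
-/

set_option autoImplicit false

open Complex Filter Topology Set MeasureTheory

namespace Pool.Agent.E8helper84.TV

open ArithmeticFunction (vonMangoldt)
open H385 hiding ee ee_norm ee_add SS ww
open H385.Cut
open Pool.Agent.W354.LS
open Pool.Agent.W354.MS (bt_near bt_le_wt wt_Iic wt_Ioi cs_gauss subst_two inv_sqrt_le gauss_int1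
  avg_swap bM bP)
open Pool.Agent.W398.LV (ww)
open Pool.Agent.Y655.HC (split_inf' tail_leY)
open W388 (MeanC SWu)

/-- the Dirichlet polynomial with weights -/
noncomputable def DP (M : ℕ) (a b : ℕ → ℂ) (t : ℝ) : ℂ :=
  ∑ n ∈ Finset.Icc 1 M, b n * a n * ee (-(t * Real.log n))

/-- the short sum -/
noncomputable def AS (M : ℕ) (a : ℕ → ℂ) (T u t : ℝ) : ℂ :=
  ∑ n ∈ Finset.Icc 1 M, a n * ww T u t n

section one

variable (M : ℕ) (a b : ℕ → ℂ)

theorem DP_cont : Continuous (DP M a b) := by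
  unfold DP
  have := ee_cont
  fun_prop

theorem DP_le (t : ℝ) : ‖DP M a b t‖ ≤ ∑ n ∈ Finset.Icc 1 M, ‖b n * a n‖ := by
  unfold DP
  refine (norm_sum_le _ _).trans (Finset.sum_le_sum fun n _ => ?_)
  rw [norm_mul, ee_norm, mul_one]

theorem AS_cont (T u : ℝ) : Continuous (AS M a T u) := by
  unfold AS ww
  have h : ∀ ℓ : ℝ, Continuous (fun t => bt T u t ℓ) := fun ℓ =>
    (bt_cont T ℓ).comp (by fun_prop : Continuous (fun t : ℝ => ((u, t) : ℝ × ℝ)))
  fun_prop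

theorem lam_le {M n : ℕ} (hn : n ∈ Finset.Icc 1 M) : vonMangoldt n ≤ M := by
  obtain ⟨h1, h2⟩ := Finset.mem_Icc.mp hn
  have h3 : (1 : ℝ) ≤ n := by exact_mod_cast h1
  have h4 : (n : ℝ) ≤ M := by exact_mod_cast h2
  have h5 : vonMangoldt n ≤ Real.log n := ArithmeticFunction.vonMangoldt_le_log
  have h6 := Real.log_le_sub_one_of_pos (show (0 : ℝ) < n by linarith)
  linarith

/-- far away -/
theorem AS_far {d : ℝ} (hd : 0 ≤ d) (h0 : ∀ n : ℕ, ‖a n‖ ≤ d * vonMangoldt n) (T u : ℝ)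
    (hT : 0 ≤ T) (t : ℝ) : ‖AS M a T u t‖ ≤ d * (M : ℝ) ^ 2 * wt T t := by
  have hw := wt_nonneg T t hT
  have h1 : ∀ n ∈ Finset.Icc 1 M, ‖a n * ww T u t n‖ ≤ d * M * wt T t := by
    intro n hn
    have h2 := lam_le hn
    have h3 := inv_sqrt_le (Finset.mem_Icc.mp hn).1
    have h4 := bt_le_wt T u t (Real.log n) hT
    unfold ww
    rw [norm_mul, norm_mul, norm_inv, Complex.norm_real, Real.norm_of_nonneg (Real.sqrt_nonneg _)]
    have h5 : (Real.sqrt n)⁻¹ * ‖bt T u t (Real.log n)‖ ≤ 1 * wt T t :=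
      mul_le_mul h3 h4 (norm_nonneg _) zero_le_one
    rw [one_mul] at h5
    exact mul_le_mul ((h0 n).trans (mul_le_mul_of_nonneg_left h2 hd)) h5 (by positivity)
      (by positivity)
  unfold AS
  refine (norm_sum_le _ _).trans ((Finset.sum_le_sum h1).trans (le_of_eq ?_))
  rw [Finset.sum_const, Nat.card_Icc, nsmul_eq_mul]
  push_cast
  ring

/-- in the middle -/
theorem AS_near {d : ℝ} (hd : 0 ≤ d) (h0 : ∀ n : ℕ, ‖a n‖ ≤ d * vonMangoldt n) (T u κ : ℝ)
    (hκ : 0 ≤ κ) (t : ℝ) (h1 : T + κ ≤ t) (h2 : t ≤ 2 * T - κ) :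
    ‖AS M a T u t - ee (t * u) * DP M a (fun n => ((bM u n : ℝ) : ℂ)) t‖ ≤
      d * (M : ℝ) ^ 2 * Real.exp (-κ ^ 2 / 4) := by
  unfold AS DP
  rw [Finset.mul_sum, ← Finset.sum_sub_distrib]
  have h3 : ∀ n ∈ Finset.Icc 1 M, ‖a n * ww T u t n -
      ee (t * u) * (((bM u n : ℝ) : ℂ) * a n * ee (-(t * Real.log n)))‖ ≤
      d * M * Real.exp (-κ ^ 2 / 4) := by
    intro n hn
    have e1 : ee (t * (u - Real.log n)) = ee (t * u) * ee (-(t * Real.log n)) := by
      rw [← ee_add]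
      congr 1
      ring
    have e2 : a n * ww T u t n -
      ee (t * u) * (((bM u n : ℝ) : ℂ) * a n * ee (-(t * Real.log n))) =
      (a n * (Real.sqrt n : ℂ)⁻¹) * (bt T u t (Real.log n) - ((1 / Real.sqrt (2 * Real.pi) *
          Real.exp (-(u - Real.log n) ^ 2 / 2) : ℝ) : ℂ) * ee (t * (u - Real.log n))) := by
      rw [e1]
      unfold ww bM
      push_cast
      ring
    rw [e2, norm_mul, norm_mul, norm_inv, Complex.norm_real,
      Real.norm_of_nonneg (Real.sqrt_nonneg _)]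
    have h4 := lam_le hn
    have h5 := inv_sqrt_le (Finset.mem_Icc.mp hn).1
    have h6 := bt_near T u t (Real.log n) κ hκ h1 h2
    have h8 : ‖a n‖ * (Real.sqrt n)⁻¹ ≤ d * M * 1 :=
      mul_le_mul ((h0 n).trans (mul_le_mul_of_nonneg_left h4 hd)) h5 (by positivity)
        (by positivity)
    rw [mul_one] at h8
    exact mul_le_mul h8 h6 (norm_nonneg _) (by positivity)
  refine (norm_sum_le _ _).trans ((Finset.sum_le_sum h3).trans (le_of_eq ?_))
  rw [Finset.sum_const, Nat.card_Icc, nsmul_eq_mul]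
  push_cast
  ring

/-- everywhere -/
theorem AS_zone (T u : ℝ) (hT : 0 ≤ T) (t : ℝ) :
    ‖AS M a T u t‖ ^ 2 ≤ 1 / (2 * Real.pi * Real.sqrt Real.pi) *
      ∫ s : ℝ, Real.exp (-s ^ 2) * ‖DP M a (fun n => ((bP u n : ℝ) : ℂ)) (t + s)‖ ^ 2 := by
  have hsp := sqrt_pi_pos
  have hs2 := sqrt_2pi_pos
  have hpi := Real.pi_pos
  obtain ⟨P, hP⟩ : ∃ P : ℝ → ℂ, P = DP M a (fun n => ((bP u n : ℝ) : ℂ)) := ⟨_, rfl⟩
  have hPc : Continuous P := by rw [hP]; exact DP_cont M a _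
  obtain ⟨c0, hc0⟩ : ∃ c : ℝ, c = 1 / (2 * Real.sqrt Real.pi) * (1 / Real.sqrt (2 * Real.pi)) :=
    ⟨_, rfl⟩
  have hc0p : 0 < c0 := by rw [hc0]; positivity
  rw [← hP]
  -- exact formula
  have h1 : AS M a T u t = ∫ τ in T..(2 * T), ((c0 * Real.exp (-(t - τ) ^ 2 / 4) : ℝ) : ℂ) *
      (ee ((t + τ) / 2 * u) * P ((t + τ) / 2)) := by
    have h2 : ∀ n ∈ Finset.Icc 1 M, a n * ww T u t n =
        ∫ τ in T..(2 * T), ((c0 * Real.exp (-(t - τ) ^ 2 / 4) : ℝ) : ℂ) *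
        (ee ((t + τ) / 2 * u) * (((bP u n : ℝ) : ℂ) * a n * ee (-((t + τ) / 2 * Real.log n)))) := by
      intro n _
      unfold ww bt
      rw [← mul_assoc, ← mul_assoc, ← intervalIntegral.integral_const_mul]
      apply intervalIntegral.integral_congr
      intro τ _
      simp only
      have e1 : cexp (I * ((t + τ) / 2) * (u - Real.log n)) =
          ee ((t + τ) / 2 * u) * ee (-((t + τ) / 2 * Real.log n)) := by
        rw [← ee_add]
        unfold ee
        congr 1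
        push_cast
        ring
      have e2 : ((1 / (2 * Real.sqrt Real.pi) * (1 / Real.sqrt (2 * Real.pi)) *
          Real.exp (-(u - Real.log n) ^ 2 / 4) : ℝ) : ℂ) =
          (c0 : ℂ) * ((Real.exp (-(u - Real.log n) ^ 2 / 4) : ℝ) : ℂ) := by
        rw [hc0]
        push_cast
        ring
      rw [e1, e2]
      unfold bP
      push_cast
      ring
    unfold AS
    rw [Finset.sum_congr rfl h2, ← intervalIntegral.integral_finsetSum]
    · apply intervalIntegral.integral_congr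
      intro τ _
      simp only
      rw [hP]
      unfold DP
      rw [Finset.mul_sum, Finset.mul_sum]
    · intro n _
      apply Continuous.intervalIntegrable
      have := ee_cont
      fun_prop
  obtain ⟨g, hg⟩ : ∃ g : ℝ → ℝ, g = fun s => ‖P (t + s)‖ := ⟨_, rfl⟩
  have hgc : Continuous g := by
    rw [hg]
    exact (hPc.comp (by fun_prop)).norm
  obtain ⟨B, hB⟩ : ∃ B : ℝ, B = ∑ n ∈ Finset.Icc 1 M, ‖((bP u n : ℝ) : ℂ) * a n‖ := ⟨_, rfl⟩
  have hPB : ∀ s, ‖P s‖ ≤ B := fun s => by rw [hP, hB]; exact DP_le M a _ s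
  have hgM : ∀ s, |g s| ≤ B := by
    intro s
    rw [hg]
    simp only
    rw [abs_of_nonneg (norm_nonneg _)]
    exact hPB _
  have h3 : ‖AS M a T u t‖ ≤ 2 * c0 * ∫ s : ℝ, Real.exp (-s ^ 2) * g s := by
    obtain ⟨F, hF⟩ : ∃ F : ℝ → ℝ, F = fun τ => c0 * Real.exp (-(t - τ) ^ 2 / 4) *
      ‖P ((t + τ) / 2)‖ := ⟨_, rfl⟩
    have hFc : Continuous F := by
      have h6 : Continuous (fun τ : ℝ => ‖P ((t + τ) / 2)‖) :=
        hPc.norm.comp (by fun_prop : Continuous (fun τ : ℝ => (t + τ) / 2))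
      rw [hF]
      exact (by fun_prop : Continuous (fun τ : ℝ => c0 * Real.exp (-(t - τ) ^ 2 / 4))).mul h6
    have hF0 : ∀ τ, 0 ≤ F τ := fun τ => by rw [hF]; positivity
    have hFi : Integrable F := by
      rw [hF]
      have h5 : Integrable (fun τ : ℝ => c0 * Real.exp (-(t - τ) ^ 2 / 4)) := by
        have := (int_gauss_shift hq t).const_mul c0
        refine this.congr (Filter.Eventually.of_forall fun τ => ?_)
        simp only
        congr 2
        ring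
      refine h5.mul_bdd (c := B) ?_ (Filter.Eventually.of_forall fun τ => ?_)
      · exact (hPc.norm.comp
          (by fun_prop : Continuous (fun τ : ℝ => (t + τ) / 2))).aestronglyMeasurable
      · rw [norm_norm]
        exact hPB _
    have h4 : ‖AS M a T u t‖ ≤ ∫ τ in T..(2 * T), F τ := by
      rw [h1]
      refine (intervalIntegral.norm_integral_le_integral_norm (by linarith)).trans (le_of_eq ?_)
      apply intervalIntegral.integral_congr
      intro τ _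
      simp only [hF]
      rw [norm_mul, norm_mul, ee_norm, one_mul, Complex.norm_real, Real.norm_of_nonneg (by positivity)]
    refine h4.trans ((interval_le hFi hF0 (by linarith)).trans (le_of_eq ?_))
    rw [subst_two F t, ← integral_const_mul, ← integral_const_mul]
    congr 1
    funext s
    simp only [hF, hg]
    have e1 : -(t - (t + 2 * s)) ^ 2 / 4 = -s ^ 2 := by ring
    have e2 : (t + (t + 2 * s)) / 2 = t + s := by ring
    rw [e1, e2]
    ring
  have h5 : 0 ≤ ∫ s : ℝ, Real.exp (-s ^ 2) * g s := by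
    rw [hg]
    exact integral_nonneg fun s => mul_nonneg (Real.exp_pos _).le (norm_nonneg _)
  have h6 := cs_gauss g hgc B hgM
  have hsq : Real.sqrt Real.pi ^ 2 = Real.pi := Real.sq_sqrt hpi.le
  have hsq2 : Real.sqrt (2 * Real.pi) ^ 2 = 2 * Real.pi := Real.sq_sqrt (by positivity)
  have h7 : ∀ s, g s = ‖P (t + s)‖ := fun s => by rw [hg]
  simp only [h7] at h3 h5 h6
  calc ‖AS M a T u t‖ ^ 2 ≤ (2 * c0 * ∫ s : ℝ, Real.exp (-s ^ 2) * ‖P (t + s)‖) ^ 2 :=
        pow_le_pow_left₀ (norm_nonneg _) h3 2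
    _ = (2 * c0) ^ 2 * (∫ s : ℝ, Real.exp (-s ^ 2) * ‖P (t + s)‖) ^ 2 := by ring
    _ ≤ (2 * c0) ^ 2 * (Real.sqrt Real.pi * ∫ s : ℝ, Real.exp (-s ^ 2) * ‖P (t + s)‖ ^ 2) :=
        mul_le_mul_of_nonneg_left h6 (by positivity)
    _ = 1 / (2 * Real.pi * Real.sqrt Real.pi) *
        ∫ s : ℝ, Real.exp (-s ^ 2) * ‖P (t + s)‖ ^ 2 := by
        have e : (2 * c0) ^ 2 * Real.sqrt Real.pi = 1 / (2 * Real.pi * Real.sqrt Real.pi) := by
          rw [hc0]
          have e1 : (2 * (1 / (2 * Real.sqrt Real.pi) * (1 / Real.sqrt (2 * Real.pi)))) ^ 2 =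
              1 / (Real.sqrt Real.pi ^ 2 * Real.sqrt (2 * Real.pi) ^ 2) := by
            field_simp
          rw [e1, hsq2, hsq]
          have e2 : Real.pi * (2 * Real.pi) = 2 * Real.pi * Real.sqrt Real.pi * Real.sqrt Real.pi := by
            rw [mul_assoc (2 * Real.pi), ← sq, hsq]
            ring
          rw [e2]
          field_simp
        rw [← mul_assoc, e]

theorem AS_integrable {d : ℝ} (hd : 0 ≤ d) (h0 : ∀ n : ℕ, ‖a n‖ ≤ d * vonMangoldt n) (T u : ℝ)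
    (hT : 0 ≤ T) : Integrable (fun t => ‖AS M a T u t‖ ^ 2) := by
  obtain ⟨C, hC, h⟩ := wt_sq_int
  refine ((h T hT).1.const_mul ((d * (M : ℝ) ^ 2) ^ 2)).mono'
    ((AS_cont M a T u).norm.pow 2).aestronglyMeasurable
    (Filter.Eventually.of_forall fun t => ?_)
  rw [Real.norm_of_nonneg (by positivity), ← mul_pow]
  exact pow_le_pow_left₀ (norm_nonneg _) (AS_far M a hd h0 T u hT t) 2

end one

/-- the weights of the main term -/
theorem sum_bM' {c : ℕ → ℂ} (hc : MeanC c) (u : ℝ) (M : ℕ) :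
    ∑ n ∈ Finset.Icc 1 M, ‖((bM u n : ℝ) : ℂ)‖ ^ 2 * (vonMangoldt n * ‖c n‖) ^ 2 ≤
      1 / (2 * Real.pi) * SWu c 1 u := by
  have h1 := hc.hs2 1 one_pos u
  have h2 : ∑ n ∈ Finset.Icc 1 M, vonMangoldt n ^ 2 * ‖c n‖ ^ 2 / n *
      Real.exp (-(1 * (u - Real.log n) ^ 2)) ≤ SWu c 1 u := by
    unfold SWu
    exact h1.sum_le_tsum _ fun n _ => by positivity
  refine le_trans (le_of_eq ?_) (mul_le_mul_of_nonneg_left h2 (by positivity))
  rw [Finset.mul_sum]
  refine Finset.sum_congr rfl fun n _ => ?_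
  unfold bM
  rw [Complex.norm_real, Real.norm_of_nonneg (by positivity), mul_pow, mul_pow,
    ← Real.exp_nat_mul, inv_pow, Real.sq_sqrt (Nat.cast_nonneg n),
    div_pow, Real.sq_sqrt (by positivity), one_pow]
  have e : ((2 : ℕ) : ℝ) * (-(u - Real.log n) ^ 2 / 2) = -(1 * (u - Real.log n) ^ 2) := by
    push_cast; ring
  rw [e]
  ring

/-- the weights near the boundary -/
theorem sum_bP' {c : ℕ → ℂ} (hc : MeanC c) (u : ℝ) (M : ℕ) :
    ∑ n ∈ Finset.Icc 1 M, ‖((bP u n : ℝ) : ℂ)‖ ^ 2 * (vonMangoldt n * ‖c n‖) ^ 2 ≤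
      SWu c (1 / 2) u := by
  have h1 := hc.hs2 (1 / 2) (by norm_num) u
  have h2 : ∑ n ∈ Finset.Icc 1 M, vonMangoldt n ^ 2 * ‖c n‖ ^ 2 / n *
      Real.exp (-(1 / 2 * (u - Real.log n) ^ 2)) ≤ SWu c (1 / 2) u := by
    unfold SWu
    exact h1.sum_le_tsum _ fun n _ => by positivity
  refine le_trans (le_of_eq ?_) h2
  refine Finset.sum_congr rfl fun n _ => ?_
  unfold bP
  rw [Complex.norm_real, Real.norm_of_nonneg (by positivity), mul_pow,
    ← Real.exp_nat_mul, inv_pow, Real.sq_sqrt (Nat.cast_nonneg n)]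
  have e : ((2 : ℕ) : ℝ) * (-(u - Real.log n) ^ 2 / 4) = -(1 / 2 * (u - Real.log n) ^ 2) := by
    push_cast; ring
  rw [e]
  ring

/-- the large sieve inequality on the intervals of length at least `κ` -/
def LSI {ι : Type} (s : Finset ι) (a : ι → ℕ → ℂ) (c : ℕ → ℂ) (M : ℕ) (D κ : ℝ) : Prop :=
  ∀ (b : ℕ → ℂ) (α β : ℝ), κ ≤ β - α → ∑ i ∈ s, ∫ t in α..β, ‖DP M (a i) b t‖ ^ 2 ≤
    D * s.card * (β - α) * ∑ n ∈ Finset.Icc 1 M, ‖b n‖ ^ 2 * (vonMangoldt n * ‖c n‖) ^ 2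

section fam

variable {ι : Type} (s : Finset ι) (a : ι → ℕ → ℂ) {c : ℕ → ℂ} (M : ℕ) {D κ : ℝ}

/-- mean square over a zone -/
theorem zone' (hc : MeanC c) (h : LSI s a c M D κ) (hD : 0 ≤ D) (hκ : 0 ≤ κ) (T u : ℝ)
    (hT : 0 ≤ T) (α β : ℝ) (hαβ : κ ≤ β - α) :
    ∑ i ∈ s, ∫ t in α..β, ‖AS M (a i) T u t‖ ^ 2 ≤ s.card * (D * (β - α) * SWu c (1 / 2) u) := by
  have hpi := Real.pi_pos
  have hsp := sqrt_pi_pos
  have hab : α ≤ β := by linarith
  obtain ⟨g1, g2⟩ := gauss_int1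
  obtain ⟨P, hP⟩ : ∃ P : ι → ℝ → ℂ, ∀ i, P i = DP M (a i) (fun n => ((bP u n : ℝ) : ℂ)) :=
    ⟨_, fun _ => rfl⟩
  obtain ⟨Mb, hMb⟩ : ∃ Mb : ι → ℝ, ∀ i, Mb i =
    ∑ n ∈ Finset.Icc 1 M, ‖((bP u n : ℝ) : ℂ) * a i n‖ := ⟨_, fun _ => rfl⟩
  have hPc : ∀ i, Continuous (P i) := fun i => by rw [hP]; exact DP_cont M (a i) _
  have hfc : ∀ i, Continuous (fun t => ‖P i t‖ ^ 2) := fun i => (hPc i).norm.pow 2
  have hfM : ∀ i t, |‖P i t‖ ^ 2| ≤ Mb i ^ 2 := by
    intro i t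
    rw [abs_of_nonneg (by positivity), hMb, hP]
    exact pow_le_pow_left₀ (norm_nonneg _) (DP_le M (a i) _ t) 2
  have hav := fun i => avg_swap (fun t => ‖P i t‖ ^ 2) (hfc i) (Mb i ^ 2) (hfM i) hab
  obtain ⟨B, hB⟩ : ∃ B : ℝ, B = D * s.card * (β - α) * SWu c (1 / 2) u := ⟨_, rfl⟩
  have hls : ∀ v : ℝ, ∑ i ∈ s, ∫ t in (α + v)..(β + v), ‖P i t‖ ^ 2 ≤ B := by
    intro v
    have h1 := h (fun n => ((bP u n : ℝ) : ℂ)) (α + v) (β + v) (by linarith)
    simp only [← hP] at h1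
    have e : β + v - (α + v) = β - α := by ring
    rw [e] at h1
    refine h1.trans ?_
    rw [hB]
    exact mul_le_mul_of_nonneg_left (sum_bP' hc u M)
      (mul_nonneg (mul_nonneg hD (Nat.cast_nonneg _)) (by linarith))
  have hS0 : 0 ≤ SWu c (1 / 2) u := W388.SWu_nonneg c (1 / 2) u
  have hB0 : 0 ≤ B := by
    rw [hB]
    exact mul_nonneg (mul_nonneg (mul_nonneg hD (Nat.cast_nonneg _)) (by linarith)) hS0
  calc ∑ i ∈ s, ∫ t in α..β, ‖AS M (a i) T u t‖ ^ 2 ≤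
      ∑ i ∈ s, (1 / (2 * Real.pi * Real.sqrt Real.pi)) *
        ∫ t in α..β, ∫ v : ℝ, Real.exp (-v ^ 2) * ‖P i (t + v)‖ ^ 2 := by
        refine Finset.sum_le_sum fun i _ => ?_
        rw [← intervalIntegral.integral_const_mul]
        apply intervalIntegral.integral_mono_on hab
        · exact ((AS_cont M (a i) T u).norm.pow 2).intervalIntegrable _ _
        · exact (hav i).2.2.const_mul _
        · intro t _
          rw [hP]
          exact AS_zone M (a i) T u hT t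
    _ = (1 / (2 * Real.pi * Real.sqrt Real.pi)) * ∫ v : ℝ, Real.exp (-v ^ 2) *
          ∑ i ∈ s, ∫ t in (α + v)..(β + v), ‖P i t‖ ^ 2 := by
        rw [← Finset.mul_sum]
        congr 1
        simp only [Finset.mul_sum]
        rw [integral_finsetSum _ fun i _ => (hav i).2.1]
        exact Finset.sum_congr rfl fun i _ => (hav i).1
    _ ≤ (1 / (2 * Real.pi * Real.sqrt Real.pi)) * ∫ v : ℝ, Real.exp (-v ^ 2) * B := by
        apply mul_le_mul_of_nonneg_left _ (by positivity)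
        apply integral_mono
        · have : (fun v : ℝ => Real.exp (-v ^ 2) *
              ∑ i ∈ s, ∫ t in (α + v)..(β + v), ‖P i t‖ ^ 2) = fun v : ℝ =>
              ∑ i ∈ s, Real.exp (-v ^ 2) * ∫ t in (α + v)..(β + v), ‖P i t‖ ^ 2 := by
            funext v
            rw [Finset.mul_sum]
          rw [this]
          exact integrable_finsetSum _ fun i _ => (hav i).2.1
        · exact g1.mul_const B
        · intro v
          exact mul_le_mul_of_nonneg_left (hls v) (Real.exp_pos _).le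
    _ = 1 / (2 * Real.pi) * B := by
        rw [integral_mul_const, g2]
        field_simp
    _ ≤ 1 * B := by
        apply mul_le_mul_of_nonneg_right _ hB0
        rw [div_le_one (by positivity)]
        linarith [Real.pi_gt_three]
    _ = _ := by rw [hB]; ring

/-- the mean square of the short sums -/
theorem short' (hc : MeanC c) (h : LSI s a c M D κ) (hD : 0 ≤ D) (hκ : 0 ≤ κ) {d : ℝ}
    (hd : 0 ≤ d) (h0 : ∀ i ∈ s, ∀ n : ℕ, ‖a i n‖ ≤ d * vonMangoldt n) (T u ε : ℝ) (hε : 0 < ε)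
    (hκT : 3 * κ ≤ T) (hM : (d * (M : ℝ) ^ 2) ^ 2 * Real.exp (-κ ^ 2 / 2) ≤ 1) :
    ∑ i ∈ s, ∫ t : ℝ, ‖AS M (a i) T u t‖ ^ 2 ≤
      s.card * ((1 + ε) * D * (T / (2 * Real.pi) * SWu c 1 u) + 4 * D * κ * SWu c (1 / 2) u +
        ((1 + 1 / ε) * T + 4)) := by
  classical
  have hpi := Real.pi_pos
  have hT0 : 0 ≤ T := by linarith
  obtain ⟨E, hE⟩ : ∃ E : ℝ, E = (d * (M : ℝ) ^ 2) ^ 2 * Real.exp (-κ ^ 2 / 2) := ⟨_, rfl⟩
  rw [← hE] at hM
  have hE0 : 0 ≤ E := by rw [hE]; positivity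
  obtain ⟨f, hf⟩ : ∃ f : ι → ℝ → ℝ, ∀ i t, f i t = ‖AS M (a i) T u t‖ ^ 2 := ⟨_, fun _ _ => rfl⟩
  have hfe : ∀ i, f i = fun t => ‖AS M (a i) T u t‖ ^ 2 := fun i => funext (hf i)
  have hfc : ∀ i, Continuous (f i) := fun i => by
    rw [hfe]; exact (AS_cont M (a i) T u).norm.pow 2
  have hfi : ∀ i ∈ s, Integrable (f i) := fun i hi => by
    rw [hfe]; exact AS_integrable M (a i) hd (h0 i hi) T u hT0
  have hfw : ∀ i ∈ s, ∀ t, f i t ≤ (d * (M : ℝ) ^ 2) ^ 2 * wt T t ^ 2 := by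
    intro i hi t
    rw [hf, ← mul_pow]
    exact pow_le_pow_left₀ (norm_nonneg _) (AS_far M (a i) hd (h0 i hi) T u hT0 t) 2
  obtain ⟨Cw, hCw, hww⟩ := wt_sq_int
  have hwi := (hww T hT0).1
  have hL : ∀ i ∈ s, ∫ t in Iic (T - κ), f i t ≤ 2 * E := by
    intro i hi
    calc ∫ t in Iic (T - κ), f i t ≤ ∫ t in Iic (T - κ), (d * (M : ℝ) ^ 2) ^ 2 * wt T t ^ 2 :=
          setIntegral_mono (hfi i hi).integrableOn (hwi.const_mul _).integrableOn (hfw i hi)
      _ = (d * (M : ℝ) ^ 2) ^ 2 * ∫ t in Iic (T - κ), wt T t ^ 2 := integral_const_mul _ _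
      _ ≤ (d * (M : ℝ) ^ 2) ^ 2 * (2 * Real.exp (-κ ^ 2 / 2)) :=
          mul_le_mul_of_nonneg_left (wt_Iic T κ hT0 hκ) (by positivity)
      _ = _ := by rw [hE]; ring
  have hRr : ∀ i ∈ s, ∫ t in Ioi (2 * T + κ), f i t ≤ 2 * E := by
    intro i hi
    calc ∫ t in Ioi (2 * T + κ), f i t ≤
          ∫ t in Ioi (2 * T + κ), (d * (M : ℝ) ^ 2) ^ 2 * wt T t ^ 2 :=
          setIntegral_mono (hfi i hi).integrableOn (hwi.const_mul _).integrableOn (hfw i hi)
      _ = (d * (M : ℝ) ^ 2) ^ 2 * ∫ t in Ioi (2 * T + κ), wt T t ^ 2 := integral_const_mul _ _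
      _ ≤ (d * (M : ℝ) ^ 2) ^ 2 * (2 * Real.exp (-κ ^ 2 / 2)) :=
          mul_le_mul_of_nonneg_left (wt_Ioi T κ hT0 hκ) (by positivity)
      _ = _ := by rw [hE]; ring
  -- zones
  have hz1 := zone' s a M hc h hD hκ T u hT0 (T - κ) (T + κ) (by linarith)
  have hz2 := zone' s a M hc h hD hκ T u hT0 (2 * T - κ) (2 * T + κ) (by linarith)
  simp only [← hf] at hz1 hz2
  -- bulk
  have hb : ∑ i ∈ s, ∫ t in (T + κ)..(2 * T - κ), f i t ≤
      s.card * ((1 + ε) * D * (T / (2 * Real.pi) * SWu c 1 u) + (1 + 1 / ε) * T) := by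
    have hm : ∑ i ∈ s, ∫ t in (T + κ)..(2 * T - κ),
        ‖DP M (a i) (fun n => ((bM u n : ℝ) : ℂ)) t‖ ^ 2 ≤
        D * s.card * T * (1 / (2 * Real.pi) * SWu c 1 u) := by
      refine (h (fun n => ((bM u n : ℝ) : ℂ)) (T + κ) (2 * T - κ) (by linarith)).trans ?_
      have hS0 : 0 ≤ SWu c 1 u := W388.SWu_nonneg c 1 u
      have h1 : 2 * T - κ - (T + κ) ≤ T := by linarith
      have h2 : 0 ≤ 2 * T - κ - (T + κ) := by linarith
      exact mul_le_mul (mul_le_mul_of_nonneg_left h1 (mul_nonneg hD (Nat.cast_nonneg _)))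
        (sum_bM' hc u M) (Finset.sum_nonneg fun _ _ => by positivity) (by positivity)
    have hpt : ∀ i ∈ s, ∫ t in (T + κ)..(2 * T - κ), f i t ≤
        (1 + ε) * (∫ t in (T + κ)..(2 * T - κ),
          ‖DP M (a i) (fun n => ((bM u n : ℝ) : ℂ)) t‖ ^ 2) + (1 + 1 / ε) * T := by
      intro i hi
      have hSc := DP_cont M (a i) (fun n => ((bM u n : ℝ) : ℂ))
      have g3 : ∫ t in (T + κ)..(2 * T - κ), f i t ≤ ∫ t in (T + κ)..(2 * T - κ),
          ((1 + ε) * ‖DP M (a i) (fun n => ((bM u n : ℝ) : ℂ)) t‖ ^ 2 + (1 + 1 / ε)) := by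
        apply intervalIntegral.integral_mono_on (by linarith)
        · exact (hfc i).intervalIntegrable _ _
        · apply Continuous.intervalIntegrable
          fun_prop
        · intro t ht
          have g4 := AS_near M (a i) hd (h0 i hi) T u κ hκ t ht.1 ht.2
          have g5 := FamLS.sq_add_le (Pool.Agent.W354.LS.ee (t * u) * DP M (a i) (fun n => ((bM u n : ℝ) : ℂ)) t)
            (AS M (a i) T u t - Pool.Agent.W354.LS.ee (t * u) * DP M (a i) (fun n => ((bM u n : ℝ) : ℂ)) t) ε hε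
          have e1 : Pool.Agent.W354.LS.ee (t * u) * DP M (a i) (fun n => ((bM u n : ℝ) : ℂ)) t +
            (AS M (a i) T u t - Pool.Agent.W354.LS.ee (t * u) * DP M (a i) (fun n => ((bM u n : ℝ) : ℂ)) t) =
              AS M (a i) T u t := by ring
          rw [e1, norm_mul, Pool.Agent.W354.LS.ee_norm, one_mul] at g5
          have g6 : ‖AS M (a i) T u t -
              Pool.Agent.W354.LS.ee (t * u) * DP M (a i) (fun n => ((bM u n : ℝ) : ℂ)) t‖ ^ 2 ≤ 1 := by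
            refine (pow_le_pow_left₀ (norm_nonneg _) g4 2).trans (le_trans (le_of_eq ?_) hM)
            rw [hE, mul_pow, ← Real.exp_nat_mul]
            congr 2
            push_cast
            ring
          have g7 : 0 ≤ 1 + 1 / ε := by positivity
          rw [hf]
          refine g5.trans (add_le_add le_rfl ?_)
          calc (1 + 1 / ε) * _ ≤ (1 + 1 / ε) * 1 := mul_le_mul_of_nonneg_left g6 g7
            _ = _ := mul_one _
      refine g3.trans ?_
      rw [intervalIntegral.integral_add, intervalIntegral.integral_const_mul,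
        intervalIntegral.integral_const, smul_eq_mul]
      · have g7 : 0 ≤ 1 + 1 / ε := by positivity
        have g8 : (2 * T - κ - (T + κ)) * (1 + 1 / ε) ≤ (1 + 1 / ε) * T := by
          rw [mul_comm]
          apply mul_le_mul_of_nonneg_left _ g7
          linarith
        linarith
      · apply Continuous.intervalIntegrable
        fun_prop
      · exact continuous_const.intervalIntegrable _ _
    refine (Finset.sum_le_sum hpt).trans ?_
    rw [Finset.sum_add_distrib, ← Finset.mul_sum, Finset.sum_const, nsmul_eq_mul]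
    have g9 := mul_le_mul_of_nonneg_left hm (by positivity : 0 ≤ 1 + ε)
    calc _ ≤ (1 + ε) * (D * s.card * T * (1 / (2 * Real.pi) * SWu c 1 u)) +
          s.card * ((1 + 1 / ε) * T) := by linarith
      _ = _ := by ring
  -- splitting
  have hsplit : ∀ i ∈ s, ∫ t : ℝ, f i t = (∫ t in Iic (T - κ), f i t) +
      ((∫ t in (T - κ)..(T + κ), f i t) + (∫ t in (T + κ)..(2 * T - κ), f i t) +
        (∫ t in (2 * T - κ)..(2 * T + κ), f i t)) + ∫ t in Ioi (2 * T + κ), f i t := by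
    intro i hi
    have s1 := split3 (hfi i hi) (a := T - κ) (b := 2 * T + κ)
    have s2 := intervalIntegral.integral_add_adjacent_intervals (μ := volume)
      ((hfc i).intervalIntegrable (T - κ) (T + κ)) ((hfc i).intervalIntegrable (T + κ) (2 * T - κ))
    have s3 := intervalIntegral.integral_add_adjacent_intervals (μ := volume)
      ((hfc i).intervalIntegrable (T - κ) (2 * T - κ))
      ((hfc i).intervalIntegrable (2 * T - κ) (2 * T + κ))
    linarith
  have hsum : ∑ i ∈ s, ∫ t : ℝ, ‖AS M (a i) T u t‖ ^ 2 = ∑ i ∈ s, ∫ t : ℝ, f i t := by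
    simp only [hf]
  have t1 : ∑ i ∈ s, ∫ t in Iic (T - κ), f i t ≤ s.card * (2 * E) := by
    refine (Finset.sum_le_sum hL).trans (le_of_eq ?_)
    rw [Finset.sum_const, nsmul_eq_mul]
  have t2 : ∑ i ∈ s, ∫ t in Ioi (2 * T + κ), f i t ≤ s.card * (2 * E) := by
    refine (Finset.sum_le_sum hRr).trans (le_of_eq ?_)
    rw [Finset.sum_const, nsmul_eq_mul]
  rw [hsum, Finset.sum_congr rfl hsplit]
  simp only [Finset.sum_add_distrib]
  have hs0 : (0 : ℝ) ≤ s.card := Nat.cast_nonneg _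
  have t3 : (s.card : ℝ) * (2 * E) ≤ s.card * 2 :=
    mul_le_mul_of_nonneg_left (by linarith) hs0
  have e1 : T + κ - (T - κ) = 2 * κ := by ring
  have e2 : 2 * T + κ - (2 * T - κ) = 2 * κ := by ring
  rw [e1] at hz1
  rw [e2] at hz2
  have e3 : (s.card : ℝ) * ((1 + ε) * D * (T / (2 * Real.pi) * SWu c 1 u) +
      4 * D * κ * SWu c (1 / 2) u + ((1 + 1 / ε) * T + 4)) =
      s.card * ((1 + ε) * D * (T / (2 * Real.pi) * SWu c 1 u) + (1 + 1 / ε) * T) +
      s.card * (D * (2 * κ) * SWu c (1 / 2) u) + s.card * (D * (2 * κ) * SWu c (1 / 2) u) +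
      s.card * 2 + s.card * 2 := by ring
  rw [e3]
  linarith

/-- the mean square of the infinite sums -/
theorem mean_T (hc : MeanC c) (h : LSI s a c M D κ) (hD : 0 ≤ D) (hκ : 0 ≤ κ) {d : ℝ}
    (hd : 0 ≤ d) (h0 : ∀ i ∈ s, ∀ n : ℕ, ‖a i n‖ ≤ d * vonMangoldt n) (T u ε : ℝ) (hε : 0 < ε)
    (hκT : 3 * κ ≤ T) (hM : (d * (M : ℝ) ^ 2) ^ 2 * Real.exp (-κ ^ 2 / 2) ≤ 1)
    (hs : s.Nonempty) {C7 : ℝ} (hC7 : ∀ T : ℝ, 0 ≤ T → Integrable (fun t => wt T t ^ 2) ∧
      ∫ t : ℝ, wt T t ^ 2 ≤ T + C7)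
    (ht : ∑' n : ℕ, (if M < n then vonMangoldt n * Real.exp (-(u - Real.log n) ^ 2 / 4) else 0) ≤ 1) :
    ∫ t : ℝ, ∑ i ∈ s, (s.card : ℝ)⁻¹ * ‖∑' n : ℕ, a i n *
        ((Real.sqrt n : ℂ)⁻¹ * bt T u t (Real.log n))‖ ^ 2 ≤
      (1 + ε) * ((1 + ε) * D * (T / (2 * Real.pi) * SWu c 1 u) + 4 * D * κ * SWu c (1 / 2) u +
        ((1 + 1 / ε) * T + 4)) + (1 + 1 / ε) * d ^ 2 * (T + C7) := by
  have hT0 : 0 ≤ T := by linarith
  obtain ⟨j1, j2⟩ := hC7 T hT0
  have hcard : (0 : ℝ) < s.card := by exact_mod_cast hs.card_pos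
  have hw : ∀ t, 0 ≤ wt T t := fun t => wt_nonneg T t hT0
  have hpt : ∀ t : ℝ, ∑ i ∈ s, (s.card : ℝ)⁻¹ * ‖∑' n : ℕ, a i n *
        ((Real.sqrt n : ℂ)⁻¹ * bt T u t (Real.log n))‖ ^ 2 ≤
      (s.card : ℝ)⁻¹ * ∑ i ∈ s, (1 + ε) * ‖AS M (a i) T u t‖ ^ 2 +
        (1 + 1 / ε) * d ^ 2 * wt T t ^ 2 := by
    intro t
    have h1 : ∀ i ∈ s, ‖∑' n : ℕ, a i n *
        ((Real.sqrt n : ℂ)⁻¹ * bt T u t (Real.log n))‖ ^ 2 ≤
        (1 + ε) * ‖AS M (a i) T u t‖ ^ 2 + (1 + 1 / ε) * d ^ 2 * wt T t ^ 2 := by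
      intro i hi
      obtain ⟨r, hr1, hr2⟩ := split_inf' M (a i) d T u t hd hT0 (h0 i hi) ht
      have e1 : ∑' n : ℕ, a i n * ((Real.sqrt n : ℂ)⁻¹ * bt T u t (Real.log n)) =
          AS M (a i) T u t + r := hr2
      rw [e1]
      refine (FamLS.sq_add_le (AS M (a i) T u t) r ε hε).trans (add_le_add le_rfl ?_)
      rw [mul_assoc, ← mul_pow]
      exact mul_le_mul_of_nonneg_left (pow_le_pow_left₀ (norm_nonneg _) hr1 2) (by positivity)
    rw [← Finset.mul_sum]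
    have h2 := mul_le_mul_of_nonneg_left (Finset.sum_le_sum h1) (inv_nonneg.mpr hcard.le)
    refine h2.trans (le_of_eq ?_)
    rw [Finset.sum_add_distrib, Finset.sum_const, nsmul_eq_mul, mul_add]
    congr 1
    field_simp
  have hASi : ∀ i ∈ s, Integrable (fun t => (1 + ε) * ‖AS M (a i) T u t‖ ^ 2) := fun i hi =>
    (AS_integrable M (a i) hd (h0 i hi) T u hT0).const_mul _
  have hi1 : Integrable (fun t => (s.card : ℝ)⁻¹ * ∑ i ∈ s, (1 + ε) * ‖AS M (a i) T u t‖ ^ 2) :=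
    (integrable_finsetSum _ hASi).const_mul _
  have hi2 : Integrable (fun t => (1 + 1 / ε) * d ^ 2 * wt T t ^ 2) := j1.const_mul _
  calc _ ≤ ∫ t : ℝ, ((s.card : ℝ)⁻¹ * ∑ i ∈ s, (1 + ε) * ‖AS M (a i) T u t‖ ^ 2 +
        (1 + 1 / ε) * d ^ 2 * wt T t ^ 2) := by
        refine integral_mono_of_nonneg ?_ (hi1.add hi2) (Filter.Eventually.of_forall hpt)
        exact Filter.Eventually.of_forall fun t =>
          Finset.sum_nonneg fun i _ => mul_nonneg (inv_nonneg.mpr hcard.le) (sq_nonneg _)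
    _ = (s.card : ℝ)⁻¹ * ((1 + ε) * ∑ i ∈ s, ∫ t : ℝ, ‖AS M (a i) T u t‖ ^ 2) +
        (1 + 1 / ε) * d ^ 2 * ∫ t : ℝ, wt T t ^ 2 := by
        rw [integral_add hi1 hi2, integral_const_mul, integral_const_mul,
          integral_finsetSum _ hASi, Finset.mul_sum (s := s) (a := 1 + ε)]
        simp only [integral_const_mul]
    _ ≤ (s.card : ℝ)⁻¹ * ((1 + ε) * (s.card * ((1 + ε) * D * (T / (2 * Real.pi) * SWu c 1 u) +
        4 * D * κ * SWu c (1 / 2) u + ((1 + 1 / ε) * T + 4)))) +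
        (1 + 1 / ε) * d ^ 2 * (T + C7) := by
        have h1 := short' s a M hc h hD hκ hd h0 T u ε hε hκT hM
        refine add_le_add ?_ (mul_le_mul_of_nonneg_left j2 (by positivity))
        exact mul_le_mul_of_nonneg_left (mul_le_mul_of_nonneg_left h1 (by positivity))
          (inv_nonneg.mpr hcard.le)
    _ = _ := by
        field_simp

end fam

end Pool.Agent.E8helper84.TV
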