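import Pool.Agent.E8helper84.TV.Fam
import Pool.Agent.E8helper84.TV.Mean
import Pool.Agent.E8helper84.TR.Num

/-! # The large sieve for the coefficients of the L-functions -/

set_option autoImplicit false
set_option linter.unusedSectionVars false

open NumberField Complex MeasureTheory
open NumberField.Units

namespace Pool.Agent.E8helper84.TV

open Pool.Agent.Y773 (TPos VM cc)
open Pool.Agent.Y767 (Mq Mq_cop Mq_ne_bot Cls cls pq ax IsHM IsHecke UD cK)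
open Pool.Agent.Y773.IQ (tM IM mem_IM sum_cc sum_sq)
open Pool.Agent.E8helper84.TR (Par UC ph vl vl_pos IsNrm TFam U_nrm)
open Pool.Agent.W354.LS (ee ee_norm ee_add ee_cont)
open ArithmeticFunction (vonMangoldt)

section

variable {K : Type} [Field K] [NumberField K] [IsTotallyReal K] (U : UD K)

/-- the large sieve for the coefficients of the L-functions -/
theorem ls_cc {δ : ℝ} (hδ : 0 < δ) : ∃ ρ₀ E : ℝ, 0 ≤ ρ₀ ∧ 0 ≤ E ∧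
    ∀ (𝔣 : Ideal (𝓞 K)) (_ : 𝔣 ≠ ⊥) (_ : 𝔣 ≠ ⊤) (ν₀ : InfinitePlace K → ℝ)
    (ψ₀ : Ideal (𝓞 K) →*₀ ℂ) (_ : IsHecke K 𝔣 ν₀ ψ₀) (_ : ∑ w, ν₀ w = 0) (V : ℝ) (J : ℕ)
    (η ρ τ : ℝ) (M : ℕ),
    0 < V → 0 < J → 0 < η → ρ₀ / V ≤ ρ → ρ₀ / J ≤ ρ → ρ ≤ 1 / 8 → η * Real.log M ≤ Real.pi →
    4 * Real.pi * ρ ≤ η * τ → τ + 2 * ρ * E ≤ 1 →
    (2 * (τ + 2 * ρ * E)) ^ (Module.finrank ℚ K) * M < 1 →
    ∀ (Y : Finset (Ideal (𝓞 K) →*₀ ℂ)), (∀ ψ ∈ Y, ψ ∈ VFam 𝔣 ν₀ ψ₀ V) →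
    ∀ (b : ℕ → ℂ) (α : ℝ), ∑ ψ ∈ Y, ∫ t in α..(α + J * η),
      ‖∑ m ∈ Finset.Icc 1 M, b m * (cc ψ m * (vonMangoldt m : ℂ)) *
        ee (-(t * Real.log m))‖ ^ 2 ≤
      (Nat.card (Cls (pq 𝔣)) : ℝ) * ((J * η) * (V ^ (rank K) * (vl U + δ))) *
        ∑ m ∈ Finset.Icc 1 M, ‖b m‖ ^ 2 * (vonMangoldt m * ‖cK K m‖) ^ 2 := by
  classical
  obtain ⟨ρ₀, E, hρ₀, hE, hls⟩ := ls_T U hδ
  refine ⟨ρ₀, E, hρ₀, hE, ?_⟩
  intro 𝔣 hbot htop ν₀ ψ₀ hH hs V J η ρ τ M hV hJ hη hρ1 hρ2 hρ3 hηM hτ h1 hM Y hY b α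
  obtain ⟨p₀, hp₀, hν₀, hψ₀⟩ := exists_p₀ U htop hH hs
  have hT : ∀ ψ ∈ Y, ψ ∈ TFam 𝔣 (V + ‖ν₀‖) := fun ψ hψ => VFam_sub htop (hY ψ hψ)
  set S : Finset (Mq 𝔣) := (IM K M).subtype (fun 𝔞 => 𝔞 ∈ Mq 𝔣) with hS
  set a : Mq 𝔣 → ℂ := fun x => b (Ideal.absNorm (x : Ideal (𝓞 K))) * (VM (x : Ideal (𝓞 K)) : ℂ)
    with ha
  have h2 : ∀ ψ ∈ Y, ∀ t : ℝ, ∑ m ∈ Finset.Icc 1 M, b m * (cc ψ m * (vonMangoldt m : ℂ)) *
        ee (-(t * Real.log m)) =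
      ∑ x ∈ S, a x * ((tM 𝔣 ψ x : ℂˣ) : ℂ) *
        ee (-(t * Real.log (Ideal.absNorm (x : Ideal (𝓞 K))))) := by
    intro ψ hψ t
    have h3 : ∑ x ∈ S, a x * ((tM 𝔣 ψ x : ℂˣ) : ℂ) *
        ee (-(t * Real.log (Ideal.absNorm (x : Ideal (𝓞 K))))) = ∑ x ∈ S,
        (fun 𝔞 : Ideal (𝓞 K) => ((b (Ideal.absNorm 𝔞) * ee (-(t * Real.log (Ideal.absNorm 𝔞)))) *
          (VM 𝔞 : ℂ)) * ψ 𝔞) (x : Ideal (𝓞 K)) := by
      refine Finset.sum_congr rfl fun x _ => ?_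
      rw [TR.tM_coe htop (hT ψ hψ)]
      simp only [ha]
      ring
    rw [h3]
    refine Eq.trans ?_ (Finset.sum_subtype_eq_sum_filter
      (fun 𝔞 : Ideal (𝓞 K) => ((b (Ideal.absNorm 𝔞) * ee (-(t * Real.log (Ideal.absNorm 𝔞)))) *
          (VM 𝔞 : ℂ)) * ψ 𝔞)).symm
    rw [Finset.sum_filter_of_ne, ← sum_cc ψ M (fun m => b m * ee (-(t * Real.log m)))]
    · refine Finset.sum_congr rfl fun m _ => ?_
      ring
    · intro 𝔞 h𝔞 hne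
      obtain ⟨ν, -, -, h5, -⟩ := hY ψ hψ
      have h6 : ψ 𝔞 ≠ 0 := fun h7 => hne (by rw [h7, mul_zero])
      exact (h5.supp 𝔞 (mem_IM h𝔞).1).mp h6
  have hinj : Set.InjOn (tM 𝔣) Y := fun ψ hψ ψ' hψ' h =>
    TR.tM_inj hbot htop (hT ψ hψ) (hT ψ' hψ') h
  have h3 := hls 𝔣 hbot htop p₀ hp₀ V J η ρ τ M hV hJ hη hρ1 hρ2 hρ3 hηM hτ h1 hM
    (Y.image (tM 𝔣)) (by
    intro F hF
    obtain ⟨ψ, hψ, rfl⟩ := Finset.mem_image.mp hF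
    exact mem_par U htop hp₀ hν₀ hψ₀ hV.le (hY ψ hψ)) S (by
    intro x hx
    exact (mem_IM (Finset.mem_subtype.mp hx)).2) a α
  rw [Finset.sum_image hinj] at h3
  have h4 : ∀ ψ ∈ Y, ∫ t in α..(α + J * η), ‖∑ m ∈ Finset.Icc 1 M,
      b m * (cc ψ m * (vonMangoldt m : ℂ)) * ee (-(t * Real.log m))‖ ^ 2 =
      ∫ t in α..(α + J * η), ‖∑ x ∈ S, a x * ((tM 𝔣 ψ x : ℂˣ) : ℂ) *
        ee (-(t * Real.log (Ideal.absNorm (x : Ideal (𝓞 K)))))‖ ^ 2 := by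
    intro ψ hψ
    refine intervalIntegral.integral_congr fun t _ => ?_
    rw [h2 ψ hψ t]
  rw [Finset.sum_congr rfl h4]
  have hpos : 0 ≤ (Nat.card (Cls (pq 𝔣)) : ℝ) * ((J * η) * (V ^ (rank K) * (vl U + δ))) := by
    have := vl_pos U
    positivity
  refine h3.trans (mul_le_mul_of_nonneg_left ?_ hpos)
  calc ∑ x ∈ S, ‖a x‖ ^ 2
      = ∑ 𝔞 ∈ (IM K M).filter (fun 𝔞 => 𝔞 ∈ Mq 𝔣),
          ‖b (Ideal.absNorm 𝔞) * (VM 𝔞 : ℂ)‖ ^ 2 := by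
        rw [hS]
        exact Finset.sum_subtype_eq_sum_filter
          (fun 𝔞 : Ideal (𝓞 K) => ‖b (Ideal.absNorm 𝔞) * (VM 𝔞 : ℂ)‖ ^ 2)
    _ ≤ ∑ 𝔞 ∈ IM K M, ‖b (Ideal.absNorm 𝔞) * (VM 𝔞 : ℂ)‖ ^ 2 :=
        Finset.sum_le_sum_of_subset_of_nonneg (Finset.filter_subset _ _)
          (fun _ _ _ => sq_nonneg _)
    _ ≤ ∑ m ∈ Finset.Icc 1 M, ‖b m‖ ^ 2 * (vonMangoldt m * ‖cK K m‖) ^ 2 :=
        sum_sq M b

/-- the coefficients of the shifted L-function -/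
noncomputable def ac (H : ℝ) (ψ : Ideal (𝓞 K) →*₀ ℂ) (m : ℕ) : ℂ :=
  (cc ψ m * (vonMangoldt m : ℂ)) * (m : ℂ) ^ (-((H : ℂ) * I))

/-- **the large sieve on intervals** -/
theorem ls_int {ηc : ℝ} (hηc : 0 < ηc) : ∃ C₁ : ℝ, 1 ≤ C₁ ∧
    ∀ (𝔣 : Ideal (𝓞 K)) (_ : 𝔣 ≠ ⊥) (_ : 𝔣 ≠ ⊤) (ν₀ : InfinitePlace K → ℝ)
    (ψ₀ : Ideal (𝓞 K) →*₀ ℂ) (_ : IsHecke K 𝔣 ν₀ ψ₀) (_ : ∑ w, ν₀ w = 0) (V κ : ℝ) (M : ℕ)
    (H : ℝ), C₁ ≤ V → 1 ≤ κ → 1 ≤ Real.log M →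
    C₁ * (1 / V + 1 / κ) * Real.log M ≤ 1 →
    (C₁ * (1 / V + 1 / κ) * Real.log M) ^ (Module.finrank ℚ K) * M < 1 →
    ∀ (s : Finset (Ideal (𝓞 K) →*₀ ℂ)), (∀ ψ, ψ ∈ s ↔ ψ ∈ VFam 𝔣 ν₀ ψ₀ V) →
    LSI s (ac (K := K) H) (cK K) M (1 + 3 * ηc) κ := by
  obtain ⟨U⟩ : Nonempty (UD K) := Pool.Agent.Y767.exists_UD TR.t_unitB
  have hvl := vl_pos U
  have hpi := Real.pi_pos
  have hpi4 := Real.pi_le_four
  have hpi3 := Real.pi_gt_three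
  obtain ⟨ρ₀, E, hρ₀, hE, hls⟩ := ls_cc U (δ := vl U * (ηc / (1 + ηc))) (by positivity)
  obtain ⟨V₀, hV₀⟩ := TR.exists_V (rank K) (IsNrm.dc U.p) hηc
  obtain ⟨C₁, hC₁⟩ : ∃ C₁ : ℝ, C₁ = max (max 1 V₀) (8 * (32 + 2 * E) * (ρ₀ + 1)) := ⟨_, rfl⟩
  have hC1 : 1 ≤ C₁ := by rw [hC₁]; exact le_max_of_le_left (le_max_left _ _)
  have hC2 : V₀ ≤ C₁ := by rw [hC₁]; exact le_max_of_le_left (le_max_right _ _)
  have hC3 : 8 * (32 + 2 * E) * (ρ₀ + 1) ≤ C₁ := by rw [hC₁]; exact le_max_right _ _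
  refine ⟨C₁, hC1, ?_⟩
  intro 𝔣 hbot htop ν₀ ψ₀ hH hs V κ M H hV hκ hM1 hX1 hXM s hsm b α β hαβ
  obtain ⟨L, hL⟩ : ∃ L : ℝ, L = β - α := ⟨_, rfl⟩
  rw [← hL] at hαβ ⊢
  obtain ⟨lM, hlM⟩ : ∃ lM : ℝ, lM = Real.log M := ⟨_, rfl⟩
  rw [← hlM] at hM1 hX1 hXM
  have hV0 : 0 < V := by linarith
  have hκ0 : 0 < κ := by linarith
  have hL0 : 0 < L := by linarith
  have hlM0 : 0 < lM := by linarith
  obtain ⟨X, hX⟩ : ∃ X : ℝ, X = 1 / V + 1 / κ := ⟨_, rfl⟩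
  rw [← hX] at hX1 hXM
  have hX0 : 0 < X := by rw [hX]; positivity
  have hXlM : X ≤ X * lM := le_mul_of_one_le_right hX0.le hM1
  obtain ⟨J, hJ⟩ : ∃ J : ℕ, J = ⌈L * lM / Real.pi⌉₊ := ⟨_, rfl⟩
  have hJ1 : L * lM / Real.pi ≤ J := by rw [hJ]; exact Nat.le_ceil _
  have hJ2 : (J : ℝ) ≤ L * lM / Real.pi + 1 := by
    rw [hJ]; exact (Nat.ceil_lt_add_one (by positivity)).le
  have hJ0' : (0 : ℝ) < J := lt_of_lt_of_le (by positivity) hJ1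
  have hJ0 : 0 < J := by exact_mod_cast hJ0'
  obtain ⟨η, hη⟩ : ∃ η : ℝ, η = L / J := ⟨_, rfl⟩
  have hη0 : 0 < η := by rw [hη]; positivity
  have hJη : J * η = L := by rw [hη]; field_simp
  have hηM : η * Real.log M ≤ Real.pi := by
    rw [← hlM, hη, div_mul_eq_mul_div, div_le_iff₀ hJ0']
    rw [div_le_iff₀ hpi] at hJ1
    linarith
  have hJκ : κ / 4 ≤ J := by
    refine le_trans ?_ hJ1
    rw [div_le_div_iff₀ (by norm_num) hpi]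
    have h1 : κ * Real.pi ≤ L * 4 := mul_le_mul hαβ hpi4 hpi.le hL0.le
    have h2 : L * 4 ≤ L * lM * 4 := by nlinarith
    linarith
  have hη2 : 1 / η ≤ 2 * lM := by
    have h1 : 1 / η = J / L := by rw [hη]; field_simp
    rw [h1, div_le_iff₀ hL0]
    have h2 : L * lM / Real.pi ≤ L * lM := by
      rw [div_le_iff₀ hpi]
      have : 0 ≤ L * lM := by positivity
      nlinarith
    have h3 : 1 ≤ L * lM := one_le_mul_of_one_le_of_one_le (hκ.trans hαβ) hM1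
    linarith
  obtain ⟨ρ, hρ⟩ : ∃ ρ : ℝ, ρ = 4 * (ρ₀ + 1) * X := ⟨_, rfl⟩
  have hρ0 : 0 ≤ ρ := by rw [hρ]; positivity
  have hX2 : 1 / V ≤ X := by
    rw [hX]
    have : 0 ≤ 1 / κ := by positivity
    linarith
  have hX3 : 1 / κ ≤ X := by
    rw [hX]
    have : 0 ≤ 1 / V := by positivity
    linarith
  have hρ1 : ρ₀ / V ≤ ρ := by
    calc ρ₀ / V = ρ₀ * (1 / V) := by ring
      _ ≤ ρ₀ * X := mul_le_mul_of_nonneg_left hX2 hρ₀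
      _ ≤ ρ := by rw [hρ]; nlinarith [mul_nonneg hρ₀ hX0.le]
  have hρ2 : ρ₀ / J ≤ ρ := by
    have h1 : 1 / (J : ℝ) ≤ 4 * (1 / κ) := by
      rw [div_le_iff₀ hJ0']
      have : 4 * (1 / κ) * (κ / 4) = 1 := by field_simp
      calc 1 = 4 * (1 / κ) * (κ / 4) := this.symm
        _ ≤ 4 * (1 / κ) * J := mul_le_mul_of_nonneg_left hJκ (by positivity)
    calc ρ₀ / J = ρ₀ * (1 / J) := by ring
      _ ≤ ρ₀ * (4 * X) := mul_le_mul_of_nonneg_left (h1.trans (by linarith)) hρ₀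
      _ ≤ ρ := by rw [hρ]; nlinarith [mul_nonneg hρ₀ hX0.le]
  have hCX : 8 * (32 + 2 * E) * (ρ₀ + 1) * (X * lM) ≤ C₁ * X * lM := by
    rw [mul_assoc C₁]
    exact mul_le_mul_of_nonneg_right hC3 (by positivity)
  have hEρ : 0 ≤ E * (ρ₀ + 1) * (X * lM) := by positivity
  have hρX : 0 ≤ ρ₀ * (X * lM) := by positivity
  have hρ3 : ρ ≤ 1 / 8 := by
    have h1 : ρ ≤ 4 * (ρ₀ + 1) * (X * lM) := by
      rw [hρ]; exact mul_le_mul_of_nonneg_left hXlM (by positivity)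
    nlinarith
  obtain ⟨τ, hτ⟩ : ∃ τ : ℝ, τ = 4 * Real.pi * ρ * (1 / η) := ⟨_, rfl⟩
  have hτ1 : 4 * Real.pi * ρ ≤ η * τ := by
    rw [hτ]
    have : η * (4 * Real.pi * ρ * (1 / η)) = 4 * Real.pi * ρ := by field_simp
    rw [this]
  have hτ2 : τ ≤ 32 * ρ * lM := by
    rw [hτ]
    calc 4 * Real.pi * ρ * (1 / η) ≤ 4 * 4 * ρ * (2 * lM) := by
          refine mul_le_mul ?_ hη2 (by positivity) (by positivity)
          exact mul_le_mul_of_nonneg_right (by linarith) hρ0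
      _ = _ := by ring
  have hτE : 2 * (τ + 2 * ρ * E) ≤ C₁ * X * lM := by
    have h1 : ρ * E ≤ ρ * E * lM := le_mul_of_one_le_right (by positivity) hM1
    have h2 : 2 * (τ + 2 * ρ * E) ≤ 2 * (32 * ρ * lM + 2 * (ρ * E * lM)) := by linarith
    refine h2.trans (le_trans (le_of_eq ?_) hCX)
    rw [hρ]; ring
  have hτ0 : 0 ≤ τ + 2 * ρ * E := by
    rw [hτ]; positivity
  have hτ3 : τ + 2 * ρ * E ≤ 1 := by linarith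
  have hτ4 : (2 * (τ + 2 * ρ * E)) ^ (Module.finrank ℚ K) * M < 1 := by
    refine lt_of_le_of_lt ?_ hXM
    refine mul_le_mul_of_nonneg_right ?_ (Nat.cast_nonneg _)
    exact pow_le_pow_left₀ (by positivity) hτE _
  have hmem : ∀ ψ ∈ s, ψ ∈ VFam 𝔣 ν₀ ψ₀ V := fun ψ hψ => (hsm ψ).mp hψ
  have hmain := hls 𝔣 hbot htop ν₀ ψ₀ hH hs V J η ρ τ M hV0 hJ0 hη0 hρ1 hρ2 hρ3 hηM hτ1 hτ3 hτ4
    s hmem (fun m => b m * (m : ℂ) ^ (-((H : ℂ) * I))) α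
  have hαL : α + J * η = β := by rw [hJη, hL]; ring
  rw [hαL, hJη] at hmain
  have hnorm : ∀ m : ℕ, 0 < m → ‖(m : ℂ) ^ (-((H : ℂ) * I))‖ = 1 := fun m hm => by
    rw [Complex.norm_natCast_cpow_of_pos hm]
    simp
  have e1 : ∀ ψ ∈ s, ∫ t in α..β, ‖DP M (ac H ψ) b t‖ ^ 2 = ∫ t in α..β,
      ‖∑ m ∈ Finset.Icc 1 M, b m * (m : ℂ) ^ (-((H : ℂ) * I)) *
        (cc ψ m * (vonMangoldt m : ℂ)) * ee (-(t * Real.log m))‖ ^ 2 := by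
    intro ψ _
    refine intervalIntegral.integral_congr fun t _ => ?_
    unfold DP ac
    congr 2
    refine Finset.sum_congr rfl fun m _ => ?_
    ring
  have e2 : ∑ m ∈ Finset.Icc 1 M, ‖b m * (m : ℂ) ^ (-((H : ℂ) * I))‖ ^ 2 *
      (vonMangoldt m * ‖cK K m‖) ^ 2 =
      ∑ m ∈ Finset.Icc 1 M, ‖b m‖ ^ 2 * (vonMangoldt m * ‖cK K m‖) ^ 2 := by
    refine Finset.sum_congr rfl fun m hm => ?_
    rw [norm_mul, hnorm m (by have := (Finset.mem_Icc.1 hm).1; omega), mul_one]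
  rw [Finset.sum_congr rfl e1]
  rw [e2] at hmain
  refine hmain.trans (mul_le_mul_of_nonneg_right ?_
    (Finset.sum_nonneg fun _ _ => mul_nonneg (sq_nonneg _) (sq_nonneg _)))
  -- the size of the family
  obtain ⟨g1, g2, g3⟩ := hV₀ V (hC2.trans hV)
  obtain ⟨c1, c2⟩ := VFam_count U hbot htop hH hs (V := V) (by linarith)
  have hcard : ((VFam 𝔣 ν₀ ψ₀ V).ncard : ℝ) = s.card := by
    have : VFam 𝔣 ν₀ ψ₀ V = (s : Set (Ideal (𝓞 K) →*₀ ℂ)) := by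
      ext ψ
      rw [Finset.mem_coe]
      exact (hsm ψ).symm
    rw [this, Set.ncard_coe_finset]
  rw [hcard] at c2
  obtain ⟨Cl, hCl⟩ : ∃ Cl : ℝ, Cl = (Nat.card (Cls (pq 𝔣)) : ℝ) := ⟨_, rfl⟩
  have hCl0 : 0 ≤ Cl := by rw [hCl]; exact Nat.cast_nonneg _
  rw [← hCl] at c2 ⊢
  have h1 : V ^ rank K * (vl U + vl U * (ηc / (1 + ηc))) ≤
      (1 + 2 * ηc) * ((V - IsNrm.dc U.p) ^ rank K * vl U) := by
    have h2 : vl U + vl U * (ηc / (1 + ηc)) = vl U * ((1 + 2 * ηc) / (1 + ηc)) := by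
      field_simp; ring
    rw [h2]
    calc V ^ rank K * (vl U * ((1 + 2 * ηc) / (1 + ηc))) ≤
        ((1 + ηc) * (V - IsNrm.dc U.p) ^ rank K) * (vl U * ((1 + 2 * ηc) / (1 + ηc))) :=
          mul_le_mul_of_nonneg_right g3 (by positivity)
      _ = _ := by field_simp
  calc Cl * (L * (V ^ rank K * (vl U + vl U * (ηc / (1 + ηc))))) =
      L * (Cl * (V ^ rank K * (vl U + vl U * (ηc / (1 + ηc))))) := by ring
    _ ≤ L * (Cl * ((1 + 2 * ηc) * ((V - IsNrm.dc U.p) ^ rank K * vl U))) :=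
        mul_le_mul_of_nonneg_left (mul_le_mul_of_nonneg_left h1 hCl0) hL0.le
    _ = L * ((1 + 2 * ηc) * (Cl * ((V - IsNrm.dc U.p) ^ rank K * vl U))) := by ring
    _ ≤ L * ((1 + 3 * ηc) * s.card) := by
        refine mul_le_mul_of_nonneg_left ?_ hL0.le
        exact mul_le_mul (by linarith) c2 (by
          have : 0 ≤ V - IsNrm.dc U.p := by linarith
          positivity) (by linarith)
    _ = _ := by ring

end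

end Pool.Agent.E8helper84.TV
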