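import Mathlib

/-! # The parameters -/

set_option autoImplicit false

open Filter Topology

namespace Pool.Agent.E8helper84.TV

lemma ev_exp {a : ℝ} (ha : 0 < a) (c : ℝ) :
    ∀ᶠ L : ℝ in atTop, c * (L + 1) ^ 2 ≤ Real.exp (a * L) := by
  have h1 : Tendsto (fun L : ℝ => Real.exp (a * L) / L ^ (2 : ℝ)) atTop atTop :=
    tendsto_exp_mul_div_rpow_atTop 2 a ha
  filter_upwards [h1.eventually_ge_atTop (4 * |c|), eventually_ge_atTop 1] with L h2 h3
  have hL : 0 < L := by linarith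
  have e : L ^ (2 : ℝ) = L ^ 2 := by
    rw [← Real.rpow_natCast]; norm_num
  rw [e, le_div_iff₀ (by positivity)] at h2
  have h4 : (L + 1) ^ 2 ≤ 4 * L ^ 2 := by nlinarith
  calc c * (L + 1) ^ 2 ≤ |c| * (L + 1) ^ 2 := mul_le_mul_of_nonneg_right (le_abs_self c) (sq_nonneg _)
    _ ≤ |c| * (4 * L ^ 2) := mul_le_mul_of_nonneg_left h4 (abs_nonneg c)
    _ = 4 * |c| * L ^ 2 := by ring
    _ ≤ _ := h2

/-- the parameters -/
theorem num (N : ℕ) (n C₁ ε2 L0 e0 : ℝ) (hN : (N : ℝ) = n) (hn : 1 ≤ n) (hC₁ : 1 ≤ C₁)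
    (hε2 : 0 < ε2) (he0 : 0 < e0) (he1 : e0 ≤ 1 / 3) : ∃ η T₀ : ℝ, 0 < η ∧ η ≤ 1 / 36 ∧
    ∀ T : ℝ, T₀ ≤ T → ∀ (ℒ κ : ℝ) (M : ℕ), ℒ = (1 + 3 * η) * Real.log T → κ = T ^ (1 - η) →
      M = ⌊Real.exp (n * ℒ * (1 - e0))⌋₊ → 1 ≤ T ∧ L0 ≤ ℒ ∧ ℒ ^ 2 ≤ T ∧
      4 * Real.sqrt (n * ℒ) ≤ ε2 * T ∧ 1 ≤ κ ∧ κ * ℒ ≤ ε2 * T ∧
      (n * (M : ℝ) ^ 2) ^ 2 * Real.exp (-κ ^ 2 / 2) ≤ 1 ∧ (1 - ε2) * ℒ ≤ Real.log T ∧
      Real.log 2 ≤ η * Real.log T ∧ 1 ≤ Real.log M ∧ C₁ ≤ κ ∧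
      ∀ V : ℝ, κ ≤ V → C₁ * (1 / V + 1 / κ) * Real.log M ≤ 1 ∧
        (C₁ * (1 / V + 1 / κ) * Real.log M) ^ N * M < 1 := by
  obtain ⟨η, hη⟩ : ∃ η : ℝ, η = min (ε2 / 3) (e0 / 12) := ⟨_, rfl⟩
  have hη0 : 0 < η := by rw [hη]; exact lt_min (by positivity) (by positivity)
  have hη1 : 3 * η ≤ ε2 := by
    have : η ≤ ε2 / 3 := by rw [hη]; exact min_le_left _ _
    linarith
  have hη2 : 12 * η ≤ e0 := by
    have : η ≤ e0 / 12 := by rw [hη]; exact min_le_right _ _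
    linarith
  have hη3 : η ≤ 1 / 36 := by linarith
  obtain ⟨c, hc⟩ : ∃ c : ℝ, c = 64 * n * C₁ * (1 + 1 / ε2) := ⟨_, rfl⟩
  have hn0 : 0 < n := by linarith
  have hC0 : 0 < C₁ := by linarith
  obtain ⟨L1, hL1⟩ := eventually_atTop.mp ((ev_exp hη0 c).and
    ((eventually_ge_atTop (max (max 3 L0) (Real.log 2 / η)))))
  refine ⟨η, Real.exp L1, hη0, hη3, ?_⟩
  intro T hT ℒ κ M hℒ hκ hM
  have hT0 : 0 < T := lt_of_lt_of_le (Real.exp_pos _) hT
  obtain ⟨L, hL⟩ : ∃ L : ℝ, L = Real.log T := ⟨_, rfl⟩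
  have hL1' : L1 ≤ L := by rw [hL, Real.le_log_iff_exp_le hT0]; exact hT
  obtain ⟨g1, g2⟩ := hL1 L hL1'
  have g3 : 3 ≤ L := ((le_max_left _ _).trans (le_max_left _ _)).trans g2
  have g4 : L0 ≤ L := ((le_max_right _ _).trans (le_max_left _ _)).trans g2
  have g5 : Real.log 2 / η ≤ L := (le_max_right _ _).trans g2
  have hLp : 0 < L := by linarith
  have hTe : T = Real.exp L := by rw [hL, Real.exp_log hT0]
  rw [← hL] at hℒ
  have hκe : κ = Real.exp ((1 - η) * L) := by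
    rw [hκ, hTe, ← Real.exp_mul]; ring_nf
  rw [← hL]
  have hℒ1 : L ≤ ℒ := by rw [hℒ]; nlinarith
  have hℒ4 : ℒ ≤ 2 * L := by rw [hℒ]; nlinarith
  have hℒ0 : 0 < ℒ := by linarith
  -- the constants
  have hnC : 1 ≤ n * C₁ := one_le_mul_of_one_le_of_one_le hn hC₁
  have hi : 0 < 1 / ε2 := by positivity
  have hc1 : 64 * (n * C₁) ≤ c := by
    rw [hc]
    have : 0 ≤ 64 * n * C₁ * (1 / ε2) := by positivity
    linarith
  have hc2 : 64 * (n * C₁) ≤ ε2 * c := by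
    have : ε2 * c = 64 * n * C₁ * (ε2 + 1) := by rw [hc]; field_simp
    rw [this]
    have : 0 ≤ 64 * n * C₁ * ε2 := by positivity
    linarith
  have hn1 : n ≤ n * C₁ := le_mul_of_one_le_right hn0.le hC₁
  have hC1n : C₁ ≤ n * C₁ := le_mul_of_one_le_left hC0.le hn
  have hLL : L ≤ (L + 1) ^ 2 := by nlinarith
  have hLL2 : L ^ 2 ≤ (L + 1) ^ 2 := by nlinarith
  have hLL1 : 1 ≤ (L + 1) ^ 2 := by nlinarith
  have hsq0 : 0 < (L + 1) ^ 2 := by positivity
  have hE1 : Real.exp (η * L) ≤ Real.exp ((1 - η) * L) := by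
    rw [Real.exp_le_exp]; nlinarith
  have hE2 : Real.exp (η * L) ≤ Real.exp L := by
    rw [Real.exp_le_exp]; nlinarith
  have hE3 : Real.exp ((1 - η) * L) * Real.exp (η * L) = Real.exp L := by
    rw [← Real.exp_add]; ring_nf
  have k1 : 64 * (n * C₁) * (L + 1) ^ 2 ≤ Real.exp (η * L) :=
    (mul_le_mul_of_nonneg_right hc1 hsq0.le).trans g1
  have k2 : 64 * (n * C₁) * (L + 1) ^ 2 ≤ ε2 * Real.exp (η * L) := by
    refine (mul_le_mul_of_nonneg_right hc2 hsq0.le).trans ?_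
    rw [mul_assoc]
    exact mul_le_mul_of_nonneg_left g1 hε2.le
  have hκ1 : 1 ≤ κ := by
    rw [hκe]; exact Real.one_le_exp (by nlinarith)
  have hκ0 : 0 < κ := by linarith
  have hMexp : (M : ℝ) ≤ Real.exp (n * ℒ * (1 - e0)) := by
    rw [hM]; exact Nat.floor_le (Real.exp_pos _).le
  have hMexp2 : (M : ℝ) ≤ Real.exp (2 * n * L) := by
    refine hMexp.trans (Real.exp_le_exp.mpr ?_)
    have h1 : n * ℒ * (1 - e0) ≤ n * ℒ * 1 :=
      mul_le_mul_of_nonneg_left (by linarith) (by positivity)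
    have h2 : n * ℒ ≤ n * (2 * L) := mul_le_mul_of_nonneg_left hℒ4 hn0.le
    linarith
  have hM3 : (3 : ℝ) ≤ M := by
    have h1 : Real.exp (n * ℒ * (1 - e0)) < M + 1 := by rw [hM]; exact Nat.lt_floor_add_one _
    have h2 : 2 ≤ n * ℒ * (1 - e0) := by
      have h3 : (3 : ℝ) ≤ n * ℒ := by nlinarith
      nlinarith
    have h4 : (4 : ℝ) ≤ Real.exp (n * ℒ * (1 - e0)) := by
      have h5 := Real.quadratic_le_exp_of_nonneg (show 0 ≤ n * ℒ * (1 - e0) by linarith)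
      nlinarith
    linarith
  have hlM1 : 1 ≤ Real.log M := by
    rw [Real.le_log_iff_exp_le (by linarith)]
    have := Real.exp_one_lt_d9
    linarith
  have hlM2 : Real.log M ≤ 2 * n * L := by
    rw [Real.log_le_iff_le_exp (by linarith)]
    exact hMexp2
  refine ⟨?_, by linarith, ?_, ?_, hκ1, ?_, ?_, ?_, ?_, hlM1, ?_, ?_⟩
  · rw [hTe]; exact Real.one_le_exp hLp.le
  · rw [hTe]
    calc ℒ ^ 2 ≤ (2 * L) ^ 2 := pow_le_pow_left₀ hℒ0.le hℒ4 2
      _ = 4 * L ^ 2 := by ring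
      _ ≤ 64 * (n * C₁) * (L + 1) ^ 2 := by nlinarith
      _ ≤ _ := k1.trans hE2
  · have h1 : 1 ≤ n * ℒ := by nlinarith
    have h2 : Real.sqrt (n * ℒ) ≤ n * ℒ := by
      rw [Real.sqrt_le_left (by linarith)]
      nlinarith
    rw [hTe]
    calc 4 * Real.sqrt (n * ℒ) ≤ 4 * (n * ℒ) := by linarith
      _ ≤ 4 * (n * (2 * L)) := by
          have := mul_le_mul_of_nonneg_left hℒ4 hn0.le
          linarith
      _ = 8 * n * L := by ring
      _ ≤ 64 * (n * C₁) * (L + 1) ^ 2 := by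
          refine mul_le_mul (by linarith) hLL hLp.le (by positivity)
      _ ≤ ε2 * Real.exp (η * L) := k2
      _ ≤ ε2 * Real.exp L := mul_le_mul_of_nonneg_left hE2 hε2.le
  · rw [hκe, hTe]
    calc Real.exp ((1 - η) * L) * ℒ ≤ Real.exp ((1 - η) * L) * (ε2 * Real.exp (η * L)) := by
          refine mul_le_mul_of_nonneg_left (le_trans ?_ k2) (Real.exp_pos _).le
          calc ℒ ≤ 2 * L := hℒ4
            _ ≤ 64 * (n * C₁) * (L + 1) ^ 2 := mul_le_mul (by linarith) hLL hLp.le (by positivity)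
      _ = ε2 * (Real.exp ((1 - η) * L) * Real.exp (η * L)) := by ring
      _ = _ := by rw [hE3]
  · have hne : n ≤ Real.exp n := by
      have := Real.add_one_le_exp n
      linarith
    have h1 : (n * (M : ℝ) ^ 2) ^ 2 ≤ Real.exp (2 * n + 8 * n * L) := by
      have h2 : n * (M : ℝ) ^ 2 ≤ Real.exp n * Real.exp (2 * n * L) ^ 2 := by
        refine mul_le_mul hne (pow_le_pow_left₀ (Nat.cast_nonneg _) hMexp2 2) (by positivity)
          (Real.exp_pos _).le
      refine (pow_le_pow_left₀ (by positivity) h2 2).trans (le_of_eq ?_)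
      rw [mul_pow, ← Real.exp_nat_mul, ← Real.exp_nat_mul, ← Real.exp_nat_mul, ← Real.exp_add]
      congr 1
      push_cast
      ring
    have h3 : κ ^ 2 = Real.exp (2 * (1 - η) * L) := by
      rw [hκe, ← Real.exp_nat_mul]
      congr 1
      push_cast
      ring
    have h4 : 2 * n + 8 * n * L ≤ κ ^ 2 / 2 := by
      have h5 : Real.exp (η * L) ≤ κ ^ 2 := by
        rw [h3, Real.exp_le_exp]; nlinarith
      have h6 : 2 * (2 * n + 8 * n * L) ≤ 64 * (n * C₁) * (L + 1) ^ 2 := by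
        have h7 : 2 * (2 * n + 8 * n * L) ≤ 64 * n * (L + 1) ^ 2 := by nlinarith
        refine h7.trans (mul_le_mul_of_nonneg_right (by linarith) hsq0.le)
      linarith [k1.trans h5]
    calc (n * (M : ℝ) ^ 2) ^ 2 * Real.exp (-κ ^ 2 / 2) ≤
        Real.exp (2 * n + 8 * n * L) * Real.exp (-κ ^ 2 / 2) :=
          mul_le_mul_of_nonneg_right h1 (Real.exp_pos _).le
      _ = Real.exp (2 * n + 8 * n * L + (-κ ^ 2 / 2)) := by rw [← Real.exp_add]
      _ ≤ 1 := by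
          rw [Real.exp_le_one_iff]
          have : -κ ^ 2 / 2 = -(κ ^ 2 / 2) := by ring
          rw [this]; linarith
  · rw [hℒ]
    have h1 : (1 - ε2) * (1 + 3 * η) ≤ 1 := by nlinarith
    calc (1 - ε2) * ((1 + 3 * η) * L) = ((1 - ε2) * (1 + 3 * η)) * L := by ring
      _ ≤ 1 * L := mul_le_mul_of_nonneg_right h1 hLp.le
      _ = L := one_mul L
  · rw [div_le_iff₀ hη0] at g5
    linarith
  · rw [hκe]
    refine le_trans ?_ (k1.trans hE1)
    calc C₁ ≤ n * C₁ := hC1n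
      _ ≤ 64 * (n * C₁) * 1 := by linarith
      _ ≤ 64 * (n * C₁) * (L + 1) ^ 2 := mul_le_mul_of_nonneg_left hLL1 (by positivity)
  · intro V hV
    have hV0 : 0 < V := by linarith
    have h1 : 1 / V ≤ 1 / κ := one_div_le_one_div_of_le hκ0 hV
    have hB : C₁ * (1 / V + 1 / κ) * Real.log M ≤ 4 * n * C₁ * L * (1 / κ) := by
      calc C₁ * (1 / V + 1 / κ) * Real.log M ≤ C₁ * (2 * (1 / κ)) * (2 * n * L) := by
            refine mul_le_mul (mul_le_mul_of_nonneg_left (by linarith) hC0.le) hlM2 (by linarith)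
              (by positivity)
        _ = _ := by ring
    have hB0 : 0 ≤ C₁ * (1 / V + 1 / κ) * Real.log M := by positivity
    have hB1 : 4 * n * C₁ * L < Real.exp (η * L) := by
      refine lt_of_lt_of_le ?_ k1
      have h2 : 4 * n * C₁ * L = 4 * (n * C₁) * L := by ring
      rw [h2]
      have h3 : 4 * (n * C₁) * L ≤ 4 * (n * C₁) * (L + 1) ^ 2 :=
        mul_le_mul_of_nonneg_left hLL (by positivity)
      have h4 : 0 < (n * C₁) * (L + 1) ^ 2 := by positivity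
      linarith
    constructor
    · refine hB.trans ?_
      rw [mul_one_div, div_le_one hκ0, hκe]
      exact hB1.le.trans hE1
    · have hMe : (M : ℝ) ≤ Real.exp ((1 - 3 * e0 / 4) * L) ^ N := by
        refine hMexp.trans ?_
        rw [← Real.exp_nat_mul, hN, Real.exp_le_exp, hℒ]
        have h2 : (1 + 3 * η) * (1 - e0) ≤ 1 - 3 * e0 / 4 := by nlinarith
        calc n * ((1 + 3 * η) * L) * (1 - e0) = (n * L) * ((1 + 3 * η) * (1 - e0)) := by ring
          _ ≤ (n * L) * (1 - 3 * e0 / 4) := mul_le_mul_of_nonneg_left h2 (by positivity)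
          _ = _ := by ring
      have hNpos : N ≠ 0 := by
        rintro rfl
        rw [Nat.cast_zero] at hN
        linarith
      have h3 : C₁ * (1 / V + 1 / κ) * Real.log M * Real.exp ((1 - 3 * e0 / 4) * L) < 1 := by
        have h4 : C₁ * (1 / V + 1 / κ) * Real.log M * Real.exp ((1 - 3 * e0 / 4) * L) ≤
            4 * n * C₁ * L * (1 / κ) * Real.exp ((1 - 3 * e0 / 4) * L) :=
          mul_le_mul_of_nonneg_right hB (Real.exp_pos _).le
        refine lt_of_le_of_lt h4 ?_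
        have h5 : 1 / κ = Real.exp (-((1 - η) * L)) := by
          rw [hκe, Real.exp_neg, one_div]
        rw [h5, mul_assoc, ← Real.exp_add]
        have h6 : Real.exp (-((1 - η) * L) + (1 - 3 * e0 / 4) * L) ≤ Real.exp (-(η * L)) := by
          rw [Real.exp_le_exp]; nlinarith
        calc 4 * n * C₁ * L * Real.exp (-((1 - η) * L) + (1 - 3 * e0 / 4) * L) ≤
            4 * n * C₁ * L * Real.exp (-(η * L)) :=
              mul_le_mul_of_nonneg_left h6 (by positivity)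
          _ < Real.exp (η * L) * Real.exp (-(η * L)) :=
              mul_lt_mul_of_pos_right hB1 (Real.exp_pos _)
          _ = 1 := by rw [← Real.exp_add, add_neg_cancel, Real.exp_zero]
      calc (C₁ * (1 / V + 1 / κ) * Real.log M) ^ N * M ≤
          (C₁ * (1 / V + 1 / κ) * Real.log M) ^ N * Real.exp ((1 - 3 * e0 / 4) * L) ^ N :=
            mul_le_mul_of_nonneg_left hMe (pow_nonneg hB0 _)
        _ = (C₁ * (1 / V + 1 / κ) * Real.log M * Real.exp ((1 - 3 * e0 / 4) * L)) ^ N :=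
            (mul_pow _ _ _).symm
        _ < 1 := pow_lt_one₀ (mul_nonneg hB0 (Real.exp_pos _).le) h3 hNpos

end Pool.Agent.E8helper84.TV
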