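import Pool.Agent.E8helper84.TV.Core
import Pool.Agent.E8helper84.TV.LScc
import Pool.Agent.E8helper84.TV.Good
import Pool.Agent.E8helper84.TV.Num
import Pool.Agent.E8helper84.TR.Asm

/-! # 67.25 per cent of the zeros, fixed finite part, all infinity types in a box -/

set_option autoImplicit false
set_option linter.unusedSectionVars false

open NumberField Filter Topology MeasureTheory Complex
open NumberField.Units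

namespace Pool.Agent.E8helper84.TV

open Pool.Agent.Y773 (LI cc)
open Pool.Agent.Y767 (cK UD exists_UD IsHecke card_places)
open Pool.Agent.Y773.IQ (LL LL_eq)
open Pool.Agent.E8helper84.TR (constsD LL_spec IsNrm vl vl_pos U_nrm t_unitB Nd_shift)
open Pool.Agent.Y655.HC (NN_shift Ns_shift zset_shift)
open Pool.Agent.W354 (LogC GoodE)
open H370 (zset NN Ns Nd)
open H385 (Rw)

section

variable (K : Type) [Field K] [NumberField K] [IsTotallyReal K]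

open Classical in
/-- the infinity type of a member of the family -/
noncomputable def nu (𝔣 : Ideal (𝓞 K)) (ν₀ : InfinitePlace K → ℝ) (ψ₀ : Ideal (𝓞 K) →*₀ ℂ) (V : ℝ)
    (ψ : Ideal (𝓞 K) →*₀ ℂ) : InfinitePlace K → ℝ :=
  if h : ψ ∈ VFam 𝔣 ν₀ ψ₀ V then h.choose else 0

lemma nu_spec {𝔣 : Ideal (𝓞 K)} {ν₀ : InfinitePlace K → ℝ} {ψ₀ : Ideal (𝓞 K) →*₀ ℂ} {V : ℝ}
    {ψ : Ideal (𝓞 K) →*₀ ℂ} (h : ψ ∈ VFam 𝔣 ν₀ ψ₀ V) :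
    (∀ w, |nu K 𝔣 ν₀ ψ₀ V ψ w - ν₀ w| ≤ V) ∧ ∑ w, nu K 𝔣 ν₀ ψ₀ V ψ w = 0 ∧
      IsHecke K 𝔣 (nu K 𝔣 ν₀ ψ₀ V ψ) ψ := by
  unfold nu
  rw [dif_pos h]
  obtain ⟨h1, h2, h3, -⟩ := h.choose_spec
  exact ⟨h1, h2, h3⟩

/-- the size of the family -/
theorem card_lower : ∃ c V₀ : ℝ, 0 < c ∧ 1 ≤ V₀ ∧ ∀ (𝔣 : Ideal (𝓞 K)) (_ : 𝔣 ≠ ⊥) (_ : 𝔣 ≠ ⊤)
    (ν₀ : InfinitePlace K → ℝ) (ψ₀ : Ideal (𝓞 K) →*₀ ℂ), IsHecke K 𝔣 ν₀ ψ₀ → ∑ w, ν₀ w = 0 →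
    ∀ V : ℝ, V₀ ≤ V → (VFam 𝔣 ν₀ ψ₀ V).Finite ∧
      c * V ^ (rank K) ≤ ((VFam 𝔣 ν₀ ψ₀ V).ncard : ℝ) := by
  obtain ⟨U⟩ : Nonempty (UD K) := exists_UD t_unitB
  have hvl := vl_pos U
  have hdc := (U_nrm U).dc_nonneg
  refine ⟨vl U * (1 / 2) ^ (rank K), 2 * IsNrm.dc U.p + 1, by positivity, by linarith, ?_⟩
  intro 𝔣 hbot htop ν₀ ψ₀ hH hs V hV
  obtain ⟨h1, h2⟩ := VFam_count U hbot htop hH hs (V := V) (by linarith)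
  refine ⟨h1, le_trans ?_ h2⟩
  have hcl : (1 : ℝ) ≤ (Nat.card (Pool.Agent.Y767.Cls (Pool.Agent.Y767.pq 𝔣)) : ℝ) := by
    have := (TR.cls_card hbot htop).1
    have : 0 < Nat.card (Pool.Agent.Y767.Cls (Pool.Agent.Y767.pq 𝔣)) := Nat.card_pos
    exact_mod_cast this
  have h3 : (V / 2) ^ (rank K) ≤ (V - IsNrm.dc U.p) ^ (rank K) :=
    pow_le_pow_left₀ (by linarith) (by linarith) _
  calc vl U * (1 / 2) ^ rank K * V ^ rank K = 1 * ((V / 2) ^ rank K * vl U) := by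
        rw [div_eq_mul_one_div V 2, mul_pow]; ring
    _ ≤ _ := mul_le_mul hcl (mul_le_mul_of_nonneg_right h3 hvl.le)
        (by have : 0 ≤ V := by linarith
            positivity) (Nat.cast_nonneg _)

/-- **the zeros of the L-functions of all Hecke characters with given finite part** -/
theorem main : ∃ η T₀ : ℝ, 0 < η ∧ 1 ≤ T₀ ∧ ∀ 𝔣 : Ideal (𝓞 K), 𝔣 ≠ ⊥ → 𝔣 ≠ ⊤ →
    ∀ (ν₀ : InfinitePlace K → ℝ) (ψ₀ : Ideal (𝓞 K) →*₀ ℂ), IsHecke K 𝔣 ν₀ ψ₀ → ∑ w, ν₀ w = 0 →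
    ∀ T V Y : ℝ, T₀ ≤ T → (Ideal.absNorm 𝔣 : ℝ) ≤ T ^ η → T ^ (1 - η) ≤ V →
      (∀ w, V + |ν₀ w| + T ≤ Y) → Y ≤ T ^ (1 + η) →
      ∃ S : Finset (Ideal (𝓞 K) →*₀ ℂ), (∀ ψ, ψ ∈ S ↔ ψ ∈ VFam 𝔣 ν₀ ψ₀ V) ∧ S.Nonempty ∧
        (∀ ψ ∈ S, (zset (LL K ψ) Y (Y + T)).Finite) ∧
        0.6725 * ∑ ψ ∈ S, (NN (LL K ψ) Y (Y + T) : ℝ) ≤ ∑ ψ ∈ S, (Ns (LL K ψ) Y (Y + T) : ℝ) ∧
        0.83625 * ∑ ψ ∈ S, (NN (LL K ψ) Y (Y + T) : ℝ) ≤ ∑ ψ ∈ S, (Nd (LL K ψ) Y (Y + T) : ℝ) := by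
  classical
  obtain ⟨γ, t, D, κc, h0, hπ, ht0, ht1, hD, hκc, hR0, hI0, hconst⟩ := constsD
  obtain ⟨ηc, hηc⟩ : ∃ ηc : ℝ, ηc = (D - 1) / 3 := ⟨_, rfl⟩
  have hηc0 : 0 < ηc := by rw [hηc]; linarith
  have hD3 : 1 + 3 * ηc = D := by rw [hηc]; ring
  obtain ⟨n, hn⟩ : ∃ n : ℝ, n = (Module.finrank ℚ K : ℝ) := ⟨_, rfl⟩
  have hn1 : 1 ≤ n := by
    rw [hn]
    exact_mod_cast Module.finrank_pos (R := ℚ) (M := K)
  have hn0 : 0 < n := by linarith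
  obtain ⟨A, hA, hgood⟩ := goodE K
  rw [← hn] at hgood
  obtain ⟨cc0, V₀, hcc0, hV₀1, hcl⟩ := card_lower K
  obtain ⟨C₁, hC₁, hls⟩ := ls_int (K := K) hηc0
  rw [hD3] at hls
  have hβ0 : 0 < n * t := by positivity
  have hβn : n * t < n := by
    calc n * t < n * 1 := mul_lt_mul_of_pos_left ht1 hn0
      _ = n := mul_one n
  obtain ⟨ε2, L0, hε2, hL0, hcore⟩ := coreE n A hn1 hA (cK K) (Pool.Agent.Y772.HC.t_mer K) D hD.le γ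
    (n * t) h0 hπ hβ0 hβn κc hκc
  obtain ⟨e0, he0⟩ : ∃ e0 : ℝ, e0 = (1 - t) / 3 := ⟨_, rfl⟩
  have hte : (1 - (n * t) / n) / 3 = e0 := by
    rw [he0]; field_simp
  rw [hte] at hcore
  obtain ⟨η, T₀, hη, hη36, hnum⟩ := num (Module.finrank ℚ K) n (max C₁ V₀) ε2 L0 e0 hn.symm hn1
    (le_max_of_le_left hC₁) hε2 (by rw [he0]; linarith) (by rw [he0]; linarith)
  refine ⟨η, max T₀ 1, hη, le_max_right _ _, ?_⟩
  intro 𝔣 hbot htop ν₀ ψ₀ hH hs T V Y hT hN hV hY hYT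
  obtain ⟨ℒ, hℒ⟩ : ∃ ℒ : ℝ, ℒ = (1 + 3 * η) * Real.log T := ⟨_, rfl⟩
  obtain ⟨κ, hκ⟩ : ∃ κ : ℝ, κ = T ^ (1 - η) := ⟨_, rfl⟩
  obtain ⟨M, hM⟩ : ∃ M : ℕ, M = ⌊Real.exp (n * ℒ * (1 - e0))⌋₊ := ⟨_, rfl⟩
  obtain ⟨a1, a2, a3, a4, a5, a6, a7, a8, a9, a10, a11, a12⟩ :=
    hnum T ((le_max_left _ _).trans hT) ℒ κ M hℒ hκ hM
  rw [← hκ] at hV
  obtain ⟨a13, a14⟩ := a12 V hV
  have hT0 : 0 < T := by linarith
  have hκ0 : 0 < κ := by linarith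
  have hV0 : 0 < V := by linarith
  have hlT : 0 ≤ Real.log T := Real.log_nonneg a1
  obtain ⟨hfin, hcard⟩ := hcl 𝔣 hbot htop ν₀ ψ₀ hH hs V
    (((le_max_right _ _).trans a11).trans hV)
  obtain ⟨S, hS⟩ : ∃ S : Finset (Ideal (𝓞 K) →*₀ ℂ), S = hfin.toFinset := ⟨_, rfl⟩
  have hmem : ∀ ψ, ψ ∈ S ↔ ψ ∈ VFam 𝔣 ν₀ ψ₀ V := fun ψ => by
    rw [hS]; exact hfin.mem_toFinset
  have hne : S.Nonempty := by
    rw [hS, Set.Finite.toFinset_nonempty]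
    refine (Set.ncard_pos hfin).mp ?_
    have : (0 : ℝ) < ((VFam 𝔣 ν₀ ψ₀ V).ncard : ℝ) := lt_of_lt_of_le (by positivity) hcard
    exact_mod_cast this
  refine ⟨S, hmem, hne, ?_⟩
  obtain ⟨H, hHd⟩ : ∃ H : ℝ, H = Y - T := ⟨_, rfl⟩
  have hνH : ∀ ψ ∈ S, ∀ w, |nu K 𝔣 ν₀ ψ₀ V ψ w| ≤ H := by
    intro ψ hψ w
    obtain ⟨g1, -, -⟩ := nu_spec K ((hmem ψ).mp hψ)
    have g2 := g1 w
    have g3 := hY w
    have g4 : |nu K 𝔣 ν₀ ψ₀ V ψ w| ≤ |nu K 𝔣 ν₀ ψ₀ V ψ w - ν₀ w| + |ν₀ w| := by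
      have : nu K 𝔣 ν₀ ψ₀ V ψ w = (nu K 𝔣 ν₀ ψ₀ V ψ w - ν₀ w) + ν₀ w := by ring
      calc |nu K 𝔣 ν₀ ψ₀ V ψ w| = |(nu K 𝔣 ν₀ ψ₀ V ψ w - ν₀ w) + ν₀ w| := by rw [← this]
        _ ≤ _ := abs_add_le _ _
    rw [hHd]; linarith
  have hYpos : 0 < Y := by
    obtain ⟨w⟩ : Nonempty (InfinitePlace K) := inferInstance
    have := hY w
    have := abs_nonneg (ν₀ w)
    linarith
  have hHY : H ≤ Y := by rw [hHd]; linarith
  have hcardn : (Fintype.card (InfinitePlace K) : ℝ) = n := by rw [card_places, hn]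
  have hdat : ∀ ψ ∈ S, LogC (lcK K 𝔣 (nu K 𝔣 ν₀ ψ₀ V ψ) H) ∧
      GoodE n A (lcK K 𝔣 (nu K 𝔣 ν₀ ψ₀ V ψ) H) (fun z => LL K ψ (z + (H : ℂ) * I)) (ac H ψ) ∧
      lcK K 𝔣 (nu K 𝔣 ν₀ ψ₀ V ψ) H T ≤ ℒ ∧ (1 - ε2) * ℒ ≤ lcK K 𝔣 (nu K 𝔣 ν₀ ψ₀ V ψ) H T := by
    intro ψ hψ
    obtain ⟨g1, g2, g3⟩ := nu_spec K ((hmem ψ).mp hψ)
    have g4 := hνH ψ hψ
    have g5 : ∀ w, nu K 𝔣 ν₀ ψ₀ V ψ w ≤ H := fun w => (le_abs_self _).trans (g4 w)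
    obtain ⟨g6, g7⟩ := LL_spec K g3 g2 htop
    have g8 := lcK_logC K hbot g5
    refine ⟨g8, hgood 𝔣 htop _ ψ H g5 g2 g3 _ g6 g7, ?_, a8.trans (g8.low T a1)⟩
    have g9 : n * lcK K 𝔣 (nu K 𝔣 ν₀ ψ₀ V ψ) H T = Real.log (Ideal.absNorm 𝔣 : ℝ) +
        ∑ w, Real.log (T + (-nu K 𝔣 ν₀ ψ₀ V ψ w + H)) := by
      rw [← hcardn]
      exact lcn_mul _ _ _
    have hN1 : (1 : ℝ) ≤ (Ideal.absNorm 𝔣 : ℝ) := one_le_norm K hbot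
    have g10 : Real.log (Ideal.absNorm 𝔣 : ℝ) ≤ η * Real.log T := by
      have := Real.log_le_log (by linarith) hN
      rwa [Real.log_rpow hT0] at this
    have g11 : ∀ w, Real.log (T + (-nu K 𝔣 ν₀ ψ₀ V ψ w + H)) ≤
        Real.log 2 + (1 + η) * Real.log T := by
      intro w
      have b1 := abs_le.mp (g4 w)
      have b2 : 0 < T + (-nu K 𝔣 ν₀ ψ₀ V ψ w + H) := by linarith [g5 w]
      have b3 : T + (-nu K 𝔣 ν₀ ψ₀ V ψ w + H) ≤ 2 * T ^ (1 + η) := by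
        have : T + H = Y := by rw [hHd]; ring
        linarith [b1.1]
      have b4 := Real.log_le_log b2 b3
      rwa [Real.log_mul (by norm_num) (by positivity), Real.log_rpow hT0] at b4
    have g12 : ∑ w, Real.log (T + (-nu K 𝔣 ν₀ ψ₀ V ψ w + H)) ≤
        n * (Real.log 2 + (1 + η) * Real.log T) := by
      refine (Finset.sum_le_sum fun w _ => g11 w).trans (le_of_eq ?_)
      rw [Finset.sum_const, Finset.card_univ, nsmul_eq_mul, hcardn]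
    refine le_of_mul_le_mul_left ?_ hn0
    rw [g9, hℒ]
    have g13 : η * Real.log T ≤ n * (η * Real.log T) :=
      le_mul_of_one_le_left (by positivity) hn1
    have g14 : n * Real.log 2 ≤ n * (η * Real.log T) := mul_le_mul_of_nonneg_left a9 hn0.le
    calc _ ≤ η * Real.log T + n * (Real.log 2 + (1 + η) * Real.log T) := add_le_add g10 g12
      _ ≤ n * (η * Real.log T) + (n * (η * Real.log T) + n * ((1 + η) * Real.log T)) := by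
          rw [mul_add]
          linarith
      _ = _ := by ring
  have hLSI := hls 𝔣 hbot htop ν₀ ψ₀ hH hs V κ M H (((le_max_left _ _).trans a11).trans hV) a5 a10
    (by
      refine le_trans ?_ a13
      refine mul_le_mul_of_nonneg_right ?_ (by linarith)
      exact mul_le_mul_of_nonneg_right (le_max_left _ _) (by positivity)) (by
      refine lt_of_le_of_lt ?_ a14
      refine mul_le_mul_of_nonneg_right ?_ (Nat.cast_nonneg _)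
      refine pow_le_pow_left₀ (by positivity) ?_ _
      refine mul_le_mul_of_nonneg_right ?_ (by linarith)
      exact mul_le_mul_of_nonneg_right (le_max_left _ _) (by positivity)) S hmem
  obtain ⟨r1, r2⟩ := hcore S (fun ψ => lcK K 𝔣 (nu K 𝔣 ν₀ ψ₀ V ψ) H)
    (fun ψ z => LL K ψ (z + (H : ℂ) * I)) (ac H) T ℒ κ hne a2 hdat a3 a4 hκ0.le a6
    (by rw [← hM]; exact a7) (by rw [← hM]; exact hLSI)
  -- exact translation of the counts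
  have e1 : ∀ ψ, NN (LL K ψ) Y (Y + T) = NN (fun z => LL K ψ (z + (H : ℂ) * I)) T (2 * T) := by
    intro ψ
    rw [NN_shift (LL K ψ) H Y (Y + T)]
    congr 1 <;> rw [hHd] <;> ring
  have e2 : ∀ ψ, Ns (LL K ψ) Y (Y + T) = Ns (fun z => LL K ψ (z + (H : ℂ) * I)) T (2 * T) := by
    intro ψ
    rw [Ns_shift (LL K ψ) H Y (Y + T)]
    congr 1 <;> rw [hHd] <;> ring
  have e3 : ∀ ψ, Nd (LL K ψ) Y (Y + T) = Nd (fun z => LL K ψ (z + (H : ℂ) * I)) T (2 * T) := by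
    intro ψ
    rw [Nd_shift (LL K ψ) H Y (Y + T)]
    congr 1 <;> rw [hHd] <;> ring
  have e4 : ∀ ψ ∈ S, (zset (LL K ψ) Y (Y + T)).Finite := by
    intro ψ hψ
    obtain ⟨g1, g2, -, -⟩ := hdat ψ hψ
    rw [zset_shift (LL K ψ) H Y (Y + T)]
    refine Set.Finite.image _ ?_
    have := Pool.Agent.W354.E.zset_finite_E hA g1 g2 (Y - H) (Y + T - H) (by rw [hHd]; linarith)
    exact this
  refine ⟨e4, ?_⟩
  simp only [e1, e2, e3]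
  have hκn := hconst n hn1
  obtain ⟨S0, hS0⟩ : ∃ S0 : ℝ, S0 = ∑ ψ ∈ S, (NN (fun z => LL K ψ (z + (H : ℂ) * I)) T (2 * T) : ℝ) :=
    ⟨_, rfl⟩
  have hSN : 0 ≤ S0 := by
    rw [hS0]; exact Finset.sum_nonneg fun _ _ => Nat.cast_nonneg _
  rw [Finset.sum_sub_distrib] at r1 r2
  rw [← Finset.mul_sum] at r1
  rw [← Finset.mul_sum, ← Finset.mul_sum] at r2
  rw [← hS0] at r1 r2 ⊢
  have r3 := mul_le_mul_of_nonneg_right hκn hSN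
  have hκS : 0 ≤ κc * S0 := by positivity
  have r3' : (n * Rw γ 0 / (n * t) + 2 * (n * t) * (∫ α in (0 : ℝ)..1, α * Rw γ α) * D / n + κc) *
      S0 ≤ 1.3275 * S0 - κc * S0 := by
    refine r3.trans (le_of_eq ?_); ring
  constructor
  · linarith
  · linarith

end

end Pool.Agent.E8helper84.TV
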