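import Pool.Agent.E8helper84.TR.Lat
import Pool.Agent.E8helper84.TR.Bump

/-! # A bump function with different scales in the infinity type and in the height -/

set_option autoImplicit false
set_option linter.unusedSectionVars false

open Complex Filter Topology MeasureTheory

namespace Pool.Agent.E8helper84.TV

open Pool.Agent.E8helper84.TR (IsNrm bump)

/-- change of variables -/
lemma diag_int {k : ℕ} {E : Type*} [NormedAddCommGroup E] [NormedSpace ℝ E] (D : Fin k → ℝ)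
    (hD : ∀ i, 0 < D i) (f : (Fin k → ℝ) → E) (hf : Continuous f) :
    ∫ z : Fin k → ℝ, f (fun i => D i * z i) = (∏ i, D i)⁻¹ • ∫ z : Fin k → ℝ, f z := by
  classical
  have hdet : LinearMap.det (Matrix.toLin' (Matrix.diagonal D)) = ∏ i, D i := by
    rw [LinearMap.det_toLin', Matrix.det_diagonal]
  have hp : 0 < ∏ i, D i := Finset.prod_pos fun i _ => hD i
  have h1 := Real.map_linearMap_volume_pi_eq_smul_volume_pi
    (f := Matrix.toLin' (Matrix.diagonal D)) (by rw [hdet]; exact hp.ne')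
  have e1 : ∀ z : Fin k → ℝ, Matrix.toLin' (Matrix.diagonal D) z = fun i => D i * z i := by
    intro z
    funext i
    rw [Matrix.toLin'_apply, Matrix.mulVec_diagonal]
  have hc : Continuous (Matrix.toLin' (Matrix.diagonal D)) :=
    LinearMap.continuous_of_finiteDimensional _
  have h2 := integral_map (μ := (volume : Measure (Fin k → ℝ))) hc.measurable.aemeasurable
    (f := f) (by exact hf.aestronglyMeasurable)
  rw [h1, integral_smul_measure, hdet, abs_of_pos (inv_pos.mpr hp),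
    ENNReal.toReal_ofReal (inv_pos.mpr hp).le] at h2
  rw [h2]
  exact integral_congr_ae (Filter.Eventually.of_forall fun z => by simp only [e1])

section

variable {r : ℕ} {p : (Fin r → ℝ) → ℝ}

/-- the basic compact set -/
def B0 (p : (Fin r → ℝ) → ℝ) : Set (Fin (r + 1) → ℝ) :=
  {θ | p (fun i => θ i.succ) ≤ 1 ∧ 0 ≤ θ 0 ∧ θ 0 ≤ 1}

lemma B0_eq (p : (Fin r → ℝ) → ℝ) : B0 p =
    (MeasurableEquiv.piFinSuccAbove (fun _ : Fin (r + 1) => ℝ) 0) ⁻¹'
      (Set.Icc (0 : ℝ) 1 ×ˢ {θ | p θ ≤ 1}) := by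
  ext θ
  simp only [B0, Set.mem_preimage, Set.mem_prod, Set.mem_Icc, Set.mem_ofPred_eq]
  have e1 : (MeasurableEquiv.piFinSuccAbove (fun _ : Fin (r + 1) => ℝ) 0 θ).1 = θ 0 := rfl
  have e2 : (MeasurableEquiv.piFinSuccAbove (fun _ : Fin (r + 1) => ℝ) 0 θ).2 =
      fun i => θ i.succ := by
    funext i
    rfl
  rw [e1, e2]
  tauto

lemma B0_compact (h : IsNrm p) : IsCompact (B0 p) := by
  have h1 : IsCompact ((fun q : ℝ × (Fin r → ℝ) => (Fin.cons q.1 q.2 : Fin (r + 1) → ℝ)) ''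
      (Set.Icc (0 : ℝ) 1 ×ˢ {θ | p θ ≤ 1})) := by
    refine (isCompact_Icc.prod (h.compact 1)).image ?_
    refine continuous_pi fun i => ?_
    refine Fin.cases ?_ (fun j => ?_) i
    · simpa using continuous_fst
    · simp only [Fin.cons_succ]
      exact (continuous_apply j).comp continuous_snd
  convert h1 using 1
  ext θ
  simp only [B0, Set.mem_image, Set.mem_prod, Set.mem_Icc, Set.mem_ofPred_eq, Prod.exists]
  constructor
  · rintro ⟨h2, h3, h4⟩
    exact ⟨θ 0, fun i => θ i.succ, ⟨⟨h3, h4⟩, h2⟩, Fin.cons_self_tail θ⟩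
  · rintro ⟨a, b, ⟨⟨h3, h4⟩, h2⟩, rfl⟩
    simpa using ⟨h2, h3, h4⟩

lemma B0_vol (h : IsNrm p) : (volume (B0 p)).toReal = (volume {θ | p θ ≤ 1}).toReal := by
  have hm : MeasurableSet (Set.Icc (0 : ℝ) 1 ×ˢ {θ | p θ ≤ 1}) :=
    measurableSet_Icc.prod (h.compact 1).isClosed.measurableSet
  rw [B0_eq, (volume_preserving_piFinSuccAbove (fun _ : Fin (r + 1) => ℝ) 0).measure_preimage
    hm.nullMeasurableSet, Measure.volume_eq_prod, Measure.prod_prod, Real.volume_Icc]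
  simp

/-- **the bump function** -/
theorem bump_VJ (h : IsNrm p) {δ : ℝ} (hδ : 0 < δ) : ∃ ρ₀ : ℝ, 0 ≤ ρ₀ ∧ ∀ V J : ℝ, 0 < V → 0 < J →
    ∃ g : (Fin (r + 1) → ℝ) → ℂ, Continuous g ∧
      (∀ z, (∃ i, max (ρ₀ / V) (ρ₀ / J) < |z i|) → g z = 0) ∧
      (∀ θ : Fin (r + 1) → ℝ, p (fun i => θ i.succ) ≤ V → 0 ≤ θ 0 → θ 0 ≤ J →
        1 ≤ ‖∫ z : Fin (r + 1) → ℝ, g z *
          cexp (-(2 * Real.pi * I * ((∑ i, θ i * z i : ℝ) : ℂ)))‖ ^ 2) ∧
      ∫ z : Fin (r + 1) → ℝ, ‖g z‖ ^ 2 ≤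
        (J * V ^ r) * ((volume {θ | p θ ≤ 1}).toReal + δ) := by
  obtain ⟨ρ, g₀, hg, hg0, hg1, hg2⟩ := bump (r + 1) (B0 p) (B0_compact h) δ hδ
  rw [B0_vol h] at hg2
  refine ⟨max ρ 0, le_max_right _ _, fun V J hV hJ => ?_⟩
  obtain ⟨D, hD⟩ : ∃ D : Fin (r + 1) → ℝ, D = Fin.cons J (fun _ => V) := ⟨_, rfl⟩
  have hD0 : D 0 = J := by rw [hD, Fin.cons_zero]
  have hDs : ∀ i : Fin r, D i.succ = V := fun i => by rw [hD, Fin.cons_succ]
  have hDp : ∀ i, 0 < D i := by
    intro i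
    refine Fin.cases ?_ (fun j => ?_) i
    · rw [hD0]; exact hJ
    · rw [hDs]; exact hV
  have hprod : ∏ i, D i = J * V ^ r := by
    rw [Fin.prod_univ_succ, hD0]
    congr 1
    rw [Finset.prod_congr rfl fun i _ => hDs i, Finset.prod_const, Finset.card_univ,
      Fintype.card_fin]
  have hP0 : 0 < ∏ i, D i := Finset.prod_pos fun i _ => hDp i
  refine ⟨fun z => ((∏ i, D i : ℝ) : ℂ) * g₀ (fun i => D i * z i), by fun_prop, ?_, ?_, ?_⟩
  · rintro z ⟨i, hi⟩
    have : g₀ (fun i => D i * z i) = 0 := by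
      refine hg0 _ ⟨i, ?_⟩
      rw [abs_mul, abs_of_pos (hDp i)]
      have h1 : max ρ 0 / D i < |z i| := by
        refine lt_of_le_of_lt ?_ hi
        refine Fin.cases ?_ (fun j => ?_) i
        · rw [hD0]; exact le_max_right _ _
        · rw [hDs]; exact le_max_left _ _
      rw [div_lt_iff₀ (hDp i)] at h1
      have h2 := le_max_left ρ 0
      linarith
    simp only [this, mul_zero]
  · intro θ h1 h2 h3
    have hmem : (fun i => θ i / D i) ∈ B0 p := by
      refine ⟨?_, ?_, ?_⟩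
      · have e1 : (fun i : Fin r => θ i.succ / D i.succ) = V⁻¹ • (fun i : Fin r => θ i.succ) := by
          funext i
          rw [hDs, Pi.smul_apply, smul_eq_mul, div_eq_inv_mul]
        change p (fun i : Fin r => θ i.succ / D i.succ) ≤ 1
        rw [e1, h.smul, abs_of_pos (inv_pos.mpr hV), inv_mul_le_iff₀ hV, mul_one]
        exact h1
      · change 0 ≤ θ 0 / D 0
        rw [hD0]; exact div_nonneg h2 hJ.le
      · change θ 0 / D 0 ≤ 1
        rw [hD0, div_le_one hJ]; exact h3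
    have h4 := hg1 _ hmem
    have h5 := diag_int D hDp (fun y => g₀ y *
      cexp (-(2 * Real.pi * I * ((∑ i, (θ i / D i) * y i : ℝ) : ℂ)))) (by fun_prop)
    have h6 : ∫ z : Fin (r + 1) → ℝ, ((∏ i, D i : ℝ) : ℂ) * g₀ (fun i => D i * z i) *
          cexp (-(2 * Real.pi * I * ((∑ i, θ i * z i : ℝ) : ℂ))) =
        ∫ y : Fin (r + 1) → ℝ, g₀ y *
          cexp (-(2 * Real.pi * I * ((∑ i, (θ i / D i) * y i : ℝ) : ℂ))) := by
      have h7 : ∫ y : Fin (r + 1) → ℝ, g₀ y *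
          cexp (-(2 * Real.pi * I * ((∑ i, (θ i / D i) * y i : ℝ) : ℂ))) =
          (∏ i, D i) • ∫ z : Fin (r + 1) → ℝ, g₀ (fun i => D i * z i) *
            cexp (-(2 * Real.pi * I * ((∑ i, (θ i / D i) * (D i * z i) : ℝ) : ℂ))) := by
        rw [h5, smul_smul, mul_inv_cancel₀ hP0.ne', one_smul]
      rw [h7, ← integral_smul]
      refine integral_congr_ae (Filter.Eventually.of_forall fun z => ?_)
      simp only
      have e2 : ∑ i, (θ i / D i) * (D i * z i) = ∑ i, θ i * z i :=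
        Finset.sum_congr rfl fun i _ => by
          have := (hDp i).ne'
          field_simp
      rw [e2, Complex.real_smul]
      ring
    rw [h6]
    exact h4
  · have h5 := diag_int D hDp (fun y => ‖g₀ y‖ ^ 2) (by fun_prop)
    have h6 : ∀ z : Fin (r + 1) → ℝ, ‖((∏ i, D i : ℝ) : ℂ) * g₀ (fun i => D i * z i)‖ ^ 2 =
        (∏ i, D i) ^ 2 * ‖g₀ (fun i => D i * z i)‖ ^ 2 := by
      intro z
      rw [norm_mul, Complex.norm_real, Real.norm_of_nonneg hP0.le, mul_pow]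
    simp only [h6]
    rw [integral_const_mul, h5, smul_eq_mul]
    have e3 : (∏ i, D i) ^ 2 * ((∏ i, D i)⁻¹ * ∫ z : Fin (r + 1) → ℝ, ‖g₀ z‖ ^ 2) =
        (∏ i, D i) * ∫ z : Fin (r + 1) → ℝ, ‖g₀ z‖ ^ 2 := by
      field_simp
    rw [e3, hprod]
    refine mul_le_mul_of_nonneg_left hg2 ?_
    positivity

end

end Pool.Agent.E8helper84.TV
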