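import Pool.Agent.E8helper84.TV.Mean
import Pool.Agent.W354.GE.FamAbsE
import Pool.Agent.W354.GE.NLowE
import Pool.Agent.H385R3.CycNum
import Pool.Agent.Y773.IQ.Msq

/-!
# The zeros of a family, from a large sieve inequality on intervals

Any degree; conductors growing with the height; compare `Pool.Agent.W354.FK.Core` (helper354).
-/

set_option autoImplicit false
set_option maxHeartbeats 4000000

open Complex Filter Topology Set MeasureTheory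
open H370 (zset mult NN Nd Ns)

namespace Pool.Agent.E8helper84.TV

open ArithmeticFunction (vonMangoldt)
open H385 (Rw bt wt wt_sq_int)
open Pool.Agent.W354 (LogC GoodE)
open Pool.Agent.W354.E (fam_abstract_E fam_abstract_d_E N_lower_E)
open W388 (MeanC SmC SWu Wu YE YE_cont)
open Pool.Agent.W398.LV (YF_final)
open Pool.Agent.Y655.HC (tail_leY)

/-- parameters of the explicit formula -/
theorem param_E (d β ℒ T κ : ℝ) (hd : 1 ≤ d) (hβ : 0 < β) (hβd : β < d) (hℒ : 1 ≤ ℒ)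
    (hκ : κ = 4 * Real.sqrt (d * ℒ)) (hT : T ≤ Real.exp ℒ) : 3 ≤ κ ∧ T ≤ Real.exp (κ ^ 2 / 2) ∧
      ℒ ^ 2 * Real.exp (β * ℒ - κ ^ 2 / 2) ≤ Real.exp (-(β * ℒ)) ∧
      ℒ ^ 2 * Real.exp (-κ ^ 2 / 2) ≤ 1 := by
  have hdℒ : 1 ≤ d * ℒ := one_le_mul_of_one_le_of_one_le hd hℒ
  have hs : 1 ≤ Real.sqrt (d * ℒ) := by rw [Real.one_le_sqrt]; exact hdℒ
  have hκ2 : κ ^ 2 = 16 * (d * ℒ) := by
    rw [hκ, mul_pow, Real.sq_sqrt (by linarith)]; ring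
  have hℒd : ℒ ≤ d * ℒ := le_mul_of_one_le_left (by linarith) hd
  have hβℒ : β * ℒ ≤ d * ℒ := mul_le_mul_of_nonneg_right hβd.le (by linarith)
  have hq : ℒ ^ 2 ≤ Real.exp (2 * ℒ) := by
    have h1 : ℒ ≤ Real.exp ℒ := by
      have := Real.add_one_le_exp ℒ
      linarith
    have h2 : Real.exp (2 * ℒ) = Real.exp ℒ ^ 2 := by rw [← Real.exp_nat_mul]; norm_num
    rw [h2]
    exact pow_le_pow_left₀ (by linarith) h1 2
  refine ⟨by rw [hκ]; linarith, ?_, ?_, ?_⟩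
  · refine hT.trans (Real.exp_le_exp.mpr ?_)
    rw [hκ2]; linarith
  · refine (mul_le_mul_of_nonneg_right hq (Real.exp_pos _).le).trans ?_
    rw [← Real.exp_add]
    refine Real.exp_le_exp.mpr ?_
    rw [hκ2]
    linarith
  · refine (mul_le_mul_of_nonneg_right hq (Real.exp_pos _).le).trans ?_
    rw [← Real.exp_add, ← Real.exp_zero]
    refine Real.exp_le_exp.mpr ?_
    have e : -κ ^ 2 / 2 = -(8 * (d * ℒ)) := by
      rw [show -κ ^ 2 / 2 = -(κ ^ 2) / 2 by ring, hκ2]; ring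
    rw [e]; linarith

/-- the boundary part -/
theorem extra_part {c : ℕ → ℂ} {Cs : ℝ} (hs : SmC c Cs) (hCs : 0 < Cs) (γ β D2 ε : ℝ) (h0 : 0 < γ)
    (hπ : γ < Real.pi) (hβ : 0 < β) (hD2 : 0 ≤ D2) (hε : 0 < ε) : ∃ ε2 : ℝ, 0 < ε2 ∧
    ∀ (T ℒ κ : ℝ), 1 ≤ ℒ → 0 ≤ T → 0 ≤ κ → κ * ℒ ≤ ε2 * T → ∃ y : ℝ, 0 ≤ y ∧
      (∀ u ∈ Set.Icc 0 (β * ℒ), D2 * κ * SWu c (1 / 2) u ≤ T * (y * (u + 1))) ∧
      Real.sqrt y ≤ ε * ℒ ∧
      (2 / (Real.sqrt Real.pi * (β * ℒ))) * (∫ u in (0 : ℝ)..(β * ℒ),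
        Rw γ (u / (β * ℒ)) * (D2 * κ * SWu c (1 / 2) u)) ≤ T / (2 * Real.pi) * ℒ * ε := by
  have hpi := Real.pi_pos
  have hsp : 0 < Real.sqrt Real.pi := Real.sqrt_pos.mpr hpi
  have hR0 : 0 ≤ Rw γ 0 := H385.Rw_nonneg γ h0 hπ 0
  obtain ⟨K1, hK1⟩ : ∃ K1 : ℝ, K1 = D2 * Cs * (β + 1) + 1 := ⟨_, rfl⟩
  obtain ⟨K2, hK2⟩ : ∃ K2 : ℝ, K2 = 2 / (Real.sqrt Real.pi * β) * (Rw γ 0 * D2 * Cs *
    (β + 1) ^ 2) * (2 * Real.pi) + 1 := ⟨_, rfl⟩
  have hK10 : 0 < K1 := by rw [hK1]; positivity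
  have hK20 : 0 < K2 := by rw [hK2]; positivity
  obtain ⟨ε2, hε2d⟩ : ∃ ε2 : ℝ, ε2 = min (ε ^ 2 / K1) (ε / K2) := ⟨_, rfl⟩
  have hε2 : 0 < ε2 := by rw [hε2d]; exact lt_min (by positivity) (by positivity)
  have ha : K1 * ε2 ≤ ε ^ 2 := by
    calc K1 * ε2 ≤ K1 * (ε ^ 2 / K1) := by
          rw [hε2d]; exact mul_le_mul_of_nonneg_left (min_le_left _ _) hK10.le
      _ = ε ^ 2 := by field_simp
  have hb : K2 * ε2 ≤ ε := by
    calc K2 * ε2 ≤ K2 * (ε / K2) := by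
          rw [hε2d]; exact mul_le_mul_of_nonneg_left (min_le_right _ _) hK20.le
      _ = ε := by field_simp
  refine ⟨ε2, hε2, ?_⟩
  intro T ℒ κ hℒ hT hκ hκℒ
  have hℒ0 : 0 < ℒ := by linarith
  have hβℒ : β * ℒ + 1 ≤ (β + 1) * ℒ := by
    have : (β + 1) * ℒ = β * ℒ + ℒ := by ring
    linarith
  refine ⟨K1 * ε2, by positivity, ?_, ?_, ?_⟩
  · intro u hu
    have h1 := hs.sle u hu.1
    have hu1 : 0 ≤ u + 1 := by linarith [hu.1]
    have h2 : (u + 1) ^ 2 ≤ (β + 1) * ℒ * (u + 1) := by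
      rw [sq]
      exact mul_le_mul_of_nonneg_right (by linarith [hu.2]) hu1
    calc D2 * κ * SWu c (1 / 2) u ≤ D2 * κ * (Cs * ((β + 1) * ℒ * (u + 1))) := by
          refine mul_le_mul_of_nonneg_left (h1.trans ?_) (by positivity)
          exact mul_le_mul_of_nonneg_left h2 hCs.le
      _ = (D2 * Cs * (β + 1)) * (κ * ℒ) * (u + 1) := by ring
      _ ≤ K1 * (ε2 * T) * (u + 1) := by
          refine mul_le_mul_of_nonneg_right ?_ hu1
          exact mul_le_mul (by rw [hK1]; linarith) hκℒ (by positivity) hK10.le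
      _ = _ := by ring
  · have h1 : Real.sqrt (K1 * ε2) ≤ ε := by
      rw [Real.sqrt_le_left hε.le]
      exact ha
    refine h1.trans (le_mul_of_one_le_right hε.le hℒ)
  · have hβℒ0 : 0 < β * ℒ := by positivity
    have hRc := H385.Rw_cont γ h0 hπ
    have hSc := hs.sc (1 / 2) (by norm_num)
    have hi : ∫ u in (0 : ℝ)..(β * ℒ), Rw γ (u / (β * ℒ)) * (D2 * κ * SWu c (1 / 2) u) ≤
        ∫ u in (0 : ℝ)..(β * ℒ), Rw γ 0 * (D2 * κ) * SWu c (1 / 2) u := by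
      refine intervalIntegral.integral_mono_on hβℒ0.le ?_ ?_ ?_
      · exact ((hRc.comp (continuous_id.div_const _)).mul
          (continuous_const.mul hSc)).intervalIntegrable _ _
      · exact (continuous_const.mul hSc).intervalIntegrable _ _
      · intro u hu
        have h3 := H385.Rw_le γ h0 hπ (u / (β * ℒ)) (div_nonneg hu.1 hβℒ0.le)
        have h4 : 0 ≤ SWu c (1 / 2) u := W388.SWu_nonneg c (1 / 2) u
        calc Rw γ (u / (β * ℒ)) * (D2 * κ * SWu c (1 / 2) u) ≤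
            Rw γ 0 * (D2 * κ * SWu c (1 / 2) u) :=
              mul_le_mul_of_nonneg_right h3 (by positivity)
          _ = _ := by ring
    rw [intervalIntegral.integral_const_mul] at hi
    have h5 := hs.sint (β * ℒ) hβℒ0.le
    have h6 : (β * ℒ + 1) ^ 2 ≤ ((β + 1) * ℒ) ^ 2 := pow_le_pow_left₀ (by positivity) hβℒ 2
    have h7 : ∫ u in (0 : ℝ)..(β * ℒ), Rw γ (u / (β * ℒ)) * (D2 * κ * SWu c (1 / 2) u) ≤
        Rw γ 0 * (D2 * κ) * (Cs * ((β + 1) * ℒ) ^ 2) :=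
      hi.trans (mul_le_mul_of_nonneg_left (h5.trans (mul_le_mul_of_nonneg_left h6 hCs.le))
        (by positivity))
    calc _ ≤ (2 / (Real.sqrt Real.pi * (β * ℒ))) *
          (Rw γ 0 * (D2 * κ) * (Cs * ((β + 1) * ℒ) ^ 2)) :=
          mul_le_mul_of_nonneg_left h7 (by positivity)
      _ = (K2 - 1) / (2 * Real.pi) * (κ * ℒ) := by
          rw [hK2]
          field_simp
          ring
      _ ≤ K2 / (2 * Real.pi) * (ε2 * T) := by
          refine mul_le_mul ?_ hκℒ (by positivity) (by positivity)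
          exact div_le_div_of_nonneg_right (by linarith) (by positivity)
      _ = T / (2 * Real.pi) * (K2 * ε2) := by ring
      _ ≤ T / (2 * Real.pi) * ε := mul_le_mul_of_nonneg_left hb (by positivity)
      _ ≤ T / (2 * Real.pi) * ℒ * ε := by
          have : T / (2 * Real.pi) * 1 * ε ≤ T / (2 * Real.pi) * ℒ * ε :=
            mul_le_mul_of_nonneg_right (mul_le_mul_of_nonneg_left hℒ (by positivity)) hε.le
          linarith

/-- **the zeros, from the large sieve inequality** -/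
theorem coreE (d A : ℝ) (hd : 1 ≤ d) (hA : 1 ≤ A) (c : ℕ → ℂ) (hsel : W388.SelE c) (D : ℝ)
    (hD : 1 ≤ D) (γ β : ℝ) (h0 : 0 < γ) (hπ : γ < Real.pi) (hβ : 0 < β) (hβd : β < d) (ε : ℝ)
    (hε : 0 < ε) : ∃ ε2 L0 : ℝ, 0 < ε2 ∧ 1 ≤ L0 ∧ ∀ {ι : Type} (s : Finset ι)
      (lc : ι → ℝ → ℝ) (F : ι → ℂ → ℂ) (a : ι → ℕ → ℂ) (T ℒ κ : ℝ), s.Nonempty → L0 ≤ ℒ →
      (∀ i ∈ s, LogC (lc i) ∧ GoodE d A (lc i) (F i) (a i) ∧ lc i T ≤ ℒ ∧
        (1 - ε2) * ℒ ≤ lc i T) →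
      ℒ ^ 2 ≤ T → 4 * Real.sqrt (d * ℒ) ≤ ε2 * T → 0 ≤ κ → κ * ℒ ≤ ε2 * T →
      (d * (⌊Real.exp (d * ℒ * (1 - (1 - β / d) / 3))⌋₊ : ℝ) ^ 2) ^ 2 *
        Real.exp (-κ ^ 2 / 2) ≤ 1 →
      LSI s a c ⌊Real.exp (d * ℒ * (1 - (1 - β / d) / 3))⌋₊ D κ →
      (∑ i ∈ s, (2 * (NN (F i) T (2 * T) : ℝ) - (Ns (F i) T (2 * T) : ℝ)) ≤
        (d * Rw γ 0 / β + 2 * β * (∫ α in (0 : ℝ)..1, α * Rw γ α) * D / d + ε) *
          ∑ i ∈ s, (NN (F i) T (2 * T) : ℝ)) ∧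
      (∑ i ∈ s, (3 * (NN (F i) T (2 * T) : ℝ) - 2 * (Nd (F i) T (2 * T) : ℝ)) ≤
        (d * Rw γ 0 / β + 2 * β * (∫ α in (0 : ℝ)..1, α * Rw γ α) * D / d + ε) *
          ∑ i ∈ s, (NN (F i) T (2 * T) : ℝ)) := by
  classical
  have hpi := Real.pi_pos
  have hd0 : 0 < d := by linarith
  have hD0 : 0 < D := by linarith
  obtain ⟨C1, hC1, hfam⟩ := fam_abstract_E γ h0 hπ d A hd hA
  obtain ⟨C1', hC1', hfam'⟩ := fam_abstract_d_E γ h0 hπ d A hd hA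
  obtain ⟨C3, hC3, hlow⟩ := N_lower_E d A hd hA
  obtain ⟨I1, hI1⟩ : ∃ I1 : ℝ, I1 = ∫ α in (0 : ℝ)..1, α * Rw γ α := ⟨_, rfl⟩
  have hI10 : 0 ≤ I1 := by rw [hI1]; exact H385.I1_nonneg γ h0 hπ
  have hR0 : 0 ≤ Rw γ 0 := H385.Rw_nonneg γ h0 hπ 0
  obtain ⟨CC, hCC⟩ : ∃ CC : ℝ, CC = max C1 C1' := ⟨_, rfl⟩
  have hCC0 : 0 < CC := by rw [hCC]; exact lt_max_of_lt_left hC1
  obtain ⟨ε1, L1, hε1, hL1, hnum⟩ := H385.cyc_num (d ^ 2 * Rw γ 0) (2 * β * I1 * D) β (d * ε) CC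
    (2 * C3) (by positivity) (by positivity) hβ (by positivity) hCC0 (by positivity)
  -- real analysis of the smoothed sums
  obtain ⟨s1, s2, s3, s4, ⟨Cs, hCs, s5, s6, s7, s8⟩, s9⟩ := Pool.Agent.W261.TW.t_smooth c hsel
  obtain ⟨n1, _, _, _⟩ := W566TW.t_noncop c hsel
  have hcm : MeanC c := ⟨n1, s2⟩
  have hs : SmC c Cs := ⟨s3, s4, s5, s6, s7, s8, s9⟩
  obtain ⟨ε', hε'd⟩ : ∃ ε' : ℝ, ε' = ε1 / 2 / D := ⟨_, rfl⟩
  have hε' : 0 < ε' := by rw [hε'd]; positivity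
  have hε'D : ε' * D = ε1 / 2 := by rw [hε'd]; field_simp
  obtain ⟨ε3, hε3, hε3', hfin⟩ := YF_final hcm hCs hs γ β h0 hπ hβ ε' hε'
  obtain ⟨δ, hδd⟩ : ∃ δ : ℝ, δ = ε3 / 4 := ⟨_, rfl⟩
  have hδ : 0 < δ := by rw [hδd]; positivity
  have hδ1 : δ ≤ 1 := by rw [hδd]; linarith
  obtain ⟨C7, hC7, h7⟩ := wt_sq_int
  obtain ⟨CE, hCE⟩ : ∃ CE : ℝ, CE = C7 + 4 := ⟨_, rfl⟩
  have hCE0 : 0 < CE := by rw [hCE]; positivity
  obtain ⟨E, hEd⟩ : ∃ E : ℝ, E = (1 + δ) * (1 + 1 / δ) + (1 + 1 / δ) * d ^ 2 := ⟨_, rfl⟩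
  have hE0 : 0 < E := by rw [hEd]; positivity
  obtain ⟨L2, hL2, hY⟩ := hfin CE E hCE0 hE0
  obtain ⟨D2, hD2⟩ : ∃ D2 : ℝ, D2 = (1 + δ) * (4 * D) := ⟨_, rfl⟩
  have hD20 : 0 ≤ D2 := by rw [hD2]; positivity
  obtain ⟨ε4, hε4, hex⟩ := extra_part hs hCs γ β D2 (ε1 / 2) h0 hπ hβ hD20 (by positivity)
  -- tails
  obtain ⟨e0, he0d⟩ : ∃ x : ℝ, x = (1 - β / d) / 3 := ⟨_, rfl⟩
  have hbd : β / d < 1 := by rw [div_lt_one hd0]; exact hβd
  have hbd0 : 0 < β / d := by positivity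
  have he0 : 0 < e0 := by rw [he0d]; linarith
  obtain ⟨Lt, hLt, htail⟩ := tail_leY (2 * β / d) e0 he0 (by
    rw [he0d]
    have : 2 * β / d / 2 = β / d := by ring
    rw [this]
    linarith)
  rw [← he0d]
  obtain ⟨ε2, hε2d⟩ : ∃ x : ℝ, x = min (min ε1 ε4) (1 / 8) := ⟨_, rfl⟩
  have hε2 : 0 < ε2 := by
    rw [hε2d]; exact lt_min (lt_min hε1 hε4) (by norm_num)
  have hε21 : ε2 ≤ ε1 := by rw [hε2d]; exact (min_le_left _ _).trans (min_le_left _ _)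
  have hε24 : ε2 ≤ ε4 := by rw [hε2d]; exact (min_le_left _ _).trans (min_le_right _ _)
  have hε28 : ε2 ≤ 1 / 8 := by rw [hε2d]; exact min_le_right _ _
  refine ⟨ε2, L1 + L2 + 2 * Lt / d + 1 / β, hε2, ?_, ?_⟩
  · have : 0 ≤ L2 + 2 * Lt / d + 1 / β := by positivity
    linarith
  intro ι s lc F a T ℒ κ hne hℒ hdat hℒT hκ'T hκ hκℒ hMκ hLSI
  rw [← hI1]
  have hb1 : 0 ≤ 2 * Lt / d := by positivity
  have hb2 : 0 ≤ 1 / β := by positivity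
  have hℒL1 : L1 ≤ ℒ := by linarith
  have hℒL2 : L2 ≤ ℒ := by linarith
  have hℒLt : 2 * Lt / d ≤ ℒ := by linarith
  have hℒβ : 1 / β ≤ ℒ := by linarith
  have hℒ1 : 1 ≤ ℒ := hL1.trans hℒL1
  have hℒ0 : 0 < ℒ := by linarith
  have hT1 : 1 ≤ T := by nlinarith
  have hT0 : 0 < T := by linarith
  obtain ⟨i₀, hi₀⟩ := hne
  have hne : s.Nonempty := ⟨i₀, hi₀⟩
  have hTℒ : T ≤ Real.exp ℒ := by
    obtain ⟨g1, g2, g3, g4⟩ := hdat i₀ hi₀
    have h1 := (g1.low T hT1).trans g3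
    rwa [Real.log_le_iff_le_exp hT0] at h1
  obtain ⟨κ', hκ'⟩ : ∃ κ' : ℝ, κ' = 4 * Real.sqrt (d * ℒ) := ⟨_, rfl⟩
  rw [← hκ'] at hκ'T
  obtain ⟨p1, p3, p5, p6⟩ := param_E d β ℒ T κ' hd hβ hβd hℒ1 hκ' hTℒ
  have hκ'0 : 0 ≤ κ' := by linarith
  have hκ'1 : κ' ≤ ε1 * T := hκ'T.trans (mul_le_mul_of_nonneg_right hε21 hT0.le)
  have hκ'8 : 8 * κ' ≤ T := by
    have : κ' ≤ 1 / 8 * T := hκ'T.trans (mul_le_mul_of_nonneg_right hε28 hT0.le)
    linarith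
  have hΛ1 : 1 ≤ β * ℒ := by
    rw [div_le_iff₀ hβ] at hℒβ
    linarith
  have hκT : 3 * κ ≤ T := by
    have h1 : κ * 1 ≤ κ * ℒ := mul_le_mul_of_nonneg_left hℒ1 hκ
    have h2 : κ * ℒ ≤ 1 / 8 * T := hκℒ.trans (mul_le_mul_of_nonneg_right hε28 hT0.le)
    linarith
  have hcard : (0 : ℝ) < s.card := by exact_mod_cast hne.card_pos
  have hci : 0 ≤ (s.card : ℝ)⁻¹ := inv_nonneg.mpr hcard.le
  have hW : ∑ _i ∈ s, (s.card : ℝ)⁻¹ = 1 := by
    rw [Finset.sum_const, nsmul_eq_mul]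
    exact mul_inv_cancel₀ hcard.ne'
  -- the majorant
  have hD1W : (1 + δ) * ((1 + δ) * D) ≤ (1 + 11 * ε3) * D := by
    rw [← mul_assoc]
    refine mul_le_mul_of_nonneg_right ?_ hD0.le
    have : (1 + δ) * (1 + δ) ≤ 1 + 3 * δ := by nlinarith
    rw [hδd] at this ⊢
    linarith
  obtain ⟨y1, y2, hy1, hy2, m1, m2, m3⟩ := hY ℒ T ((1 + δ) * ((1 + δ) * D)) D 0 hℒL2 le_rfl hℒT
    (by linarith) (by positivity) hD1W
  obtain ⟨y3, hy3, k1, k2, k3⟩ := hex T ℒ κ hℒ1 hT0.le hκ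
    (hκℒ.trans (mul_le_mul_of_nonneg_right hε24 hT0.le))
  obtain ⟨Yf, hYf⟩ : ∃ Yf : ℝ → ℝ, ∀ u, Yf u = YE c ((1 + δ) * ((1 + δ) * D)) T ℒ CE E 0 u +
    D2 * κ * SWu c (1 / 2) u := ⟨_, fun _ => rfl⟩
  have hYe : Yf = fun u => YE c ((1 + δ) * ((1 + δ) * D)) T ℒ CE E 0 u +
    D2 * κ * SWu c (1 / 2) u := funext hYf
  have hYEc := YE_cont hs ((1 + δ) * ((1 + δ) * D)) T ℒ CE E 0
  have hSc := hs.sc (1 / 2) (by norm_num)
  have hExc : Continuous (fun u : ℝ => D2 * κ * SWu c (1 / 2) u) := continuous_const.mul hSc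
  have hYc : Continuous Yf := by rw [hYe]; exact hYEc.add hExc
  have q1 : ∀ u ∈ Set.Icc 0 (β * ℒ), Yf u ≤ T * ((y1 + y3) * (u + 1) + y2) := by
    intro u hu
    rw [hYf]
    have a1 := m1 u hu
    have a2 := k1 u hu
    calc _ ≤ T * (y1 * (u + 1) + y2) + T * (y3 * (u + 1)) := add_le_add a1 a2
      _ = _ := by ring
  have q2 : Real.sqrt (y1 + y3) + Real.sqrt y2 ≤ ε1 * ℒ := by
    have b0 : Real.sqrt (y1 + y3) ≤ Real.sqrt y1 + Real.sqrt y3 := by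
      rw [Real.sqrt_le_left (by positivity)]
      have b1 := Real.sq_sqrt hy1
      have b2 := Real.sq_sqrt hy3
      have b3 : 0 ≤ Real.sqrt y1 * Real.sqrt y3 := by positivity
      nlinarith
    have b4 : Real.sqrt D ≤ D := by
      rw [Real.sqrt_le_left (by linarith)]
      nlinarith
    have b5 : ε' * ℒ * Real.sqrt D ≤ ε1 / 2 * ℒ := by
      calc ε' * ℒ * Real.sqrt D ≤ ε' * ℒ * D := mul_le_mul_of_nonneg_left b4 (by positivity)
        _ = (ε' * D) * ℒ := by ring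
        _ = _ := by rw [hε'D]
    linarith
  have q3 : (2 / (Real.sqrt Real.pi * (β * ℒ))) * (∫ u in (0 : ℝ)..(β * ℒ),
      Rw γ (u / (β * ℒ)) * Yf u) ≤ T / (2 * Real.pi) * ℒ * (2 * β * I1 * D + ε1) := by
    have hRc := H385.Rw_cont γ h0 hπ
    have hRc' : Continuous (fun u : ℝ => Rw γ (u / (β * ℒ))) :=
      hRc.comp (continuous_id.div_const _)
    have e1 : ∫ u in (0 : ℝ)..(β * ℒ), Rw γ (u / (β * ℒ)) * Yf u =
        (∫ u in (0 : ℝ)..(β * ℒ), Rw γ (u / (β * ℒ)) *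
          YE c ((1 + δ) * ((1 + δ) * D)) T ℒ CE E 0 u) +
        ∫ u in (0 : ℝ)..(β * ℒ), Rw γ (u / (β * ℒ)) * (D2 * κ * SWu c (1 / 2) u) := by
      rw [← intervalIntegral.integral_add]
      · refine intervalIntegral.integral_congr fun u _ => ?_
        simp only [hYf]
        ring
      · exact (hRc'.mul hYEc).intervalIntegrable _ _
      · exact (hRc'.mul hExc).intervalIntegrable _ _
    rw [e1, mul_add]
    refine (add_le_add m3 k3).trans (le_of_eq ?_)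
    rw [← hI1]
    have e2 : T / (2 * Real.pi) * ℒ * D * (2 * β * I1 + ε') =
        T / (2 * Real.pi) * ℒ * (2 * β * I1 * D + ε' * D) := by ring
    rw [e2, hε'D]
    ring
  have q4 : ∀ u ∈ Set.Icc 0 (β * ℒ), ∫ t : ℝ, ∑ i ∈ s, (s.card : ℝ)⁻¹ *
      ‖∑' n : ℕ, a i n * ((Real.sqrt n : ℂ)⁻¹ * bt T u t (Real.log n))‖ ^ 2 ≤ Yf u := by
    intro u hu
    obtain ⟨Y, hYd⟩ : ∃ Y : ℝ, Y = Real.exp (d * ℒ) := ⟨_, rfl⟩
    have hY0 : 0 < Y := by rw [hYd]; exact Real.exp_pos _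
    have hlogY : Real.log (Real.sqrt Y) = d / 2 * ℒ := by
      rw [Real.log_sqrt hY0.le, hYd, Real.log_exp]
      ring
    have hYe' : Y ^ (1 - e0) = Real.exp (d * ℒ * (1 - e0)) := by
      rw [hYd, ← Real.exp_mul]
    have ht := htail Y u hY0 (by
        rw [hlogY]
        rw [div_le_iff₀ hd0] at hℒLt
        linarith) hu.1 (by
        rw [hlogY]
        have : 2 * β / d * (d / 2 * ℒ) = β * ℒ := by field_simp
        rw [this]
        exact hu.2)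
    rw [hYe'] at ht
    have h := mean_T s a ⌊Real.exp (d * ℒ * (1 - e0))⌋₊ hcm hLSI hD0.le hκ hd0.le
      (fun i hi n => (hdat i hi).2.1.ha n) T u δ hδ hκT hMκ hne h7 ht
    refine h.trans ?_
    rw [hYf]
    unfold YE
    have hWu := W388.Wu_nonneg c u
    have hS := W388.SWu_nonneg c (1 / 2) u
    have e1 : (1 + δ) * ((1 + 1 / δ) * T + 4) + (1 + 1 / δ) * d ^ 2 * (T + C7) ≤
        (T + CE) * (E * (0 + 1) * (Wu c u + 1)) := by
      have e2 : (1 + δ) * ((1 + 1 / δ) * T + 4) ≤ (1 + δ) * (1 + 1 / δ) * (T + CE) := by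
        have : (4 : ℝ) ≤ (1 + 1 / δ) * 4 := by
          have : 0 < 1 / δ := by positivity
          linarith
        have h3 : (1 + 1 / δ) * 4 ≤ (1 + 1 / δ) * CE := by
          rw [hCE]
          exact mul_le_mul_of_nonneg_left (by linarith) (by positivity)
        calc (1 + δ) * ((1 + 1 / δ) * T + 4) ≤ (1 + δ) * ((1 + 1 / δ) * T + (1 + 1 / δ) * CE) :=
              mul_le_mul_of_nonneg_left (by linarith) (by positivity)
          _ = _ := by ring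
      have e3 : (1 + 1 / δ) * d ^ 2 * (T + C7) ≤ (1 + 1 / δ) * d ^ 2 * (T + CE) := by
        rw [hCE]
        exact mul_le_mul_of_nonneg_left (by linarith) (by positivity)
      calc _ ≤ (1 + δ) * (1 + 1 / δ) * (T + CE) + (1 + 1 / δ) * d ^ 2 * (T + CE) :=
            add_le_add e2 e3
        _ = (T + CE) * (E * (0 + 1) * 1) := by rw [hEd]; ring
        _ ≤ _ := by
            refine mul_le_mul_of_nonneg_left ?_ (by positivity)
            exact mul_le_mul_of_nonneg_left (by linarith) (by positivity)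
    have e4 : 0 ≤ (1 + δ) * ((1 + δ) * D) * (CE * ℒ * SWu c (1 / 2) u) := by positivity
    have e5 : (1 + δ) * ((1 + δ) * D * (T / (2 * Real.pi) * SWu c 1 u) +
        4 * D * κ * SWu c (1 / 2) u + ((1 + 1 / δ) * T + 4)) +
        (1 + 1 / δ) * d ^ 2 * (T + C7) =
        (1 + δ) * ((1 + δ) * D) * (T / (2 * Real.pi) * SWu c 1 u) +
        D2 * κ * SWu c (1 / 2) u +
        ((1 + δ) * ((1 + 1 / δ) * T + 4) + (1 + 1 / δ) * d ^ 2 * (T + C7)) := by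
      rw [hD2]; ring
    rw [e5]
    have e6 : (1 + δ) * ((1 + δ) * D) * (T / (2 * Real.pi) * SWu c 1 u +
        CE * ℒ * SWu c (1 / 2) u) = (1 + δ) * ((1 + δ) * D) * (T / (2 * Real.pi) * SWu c 1 u) +
        (1 + δ) * ((1 + δ) * D) * (CE * ℒ * SWu c (1 / 2) u) := by ring
    rw [e6]
    linarith
  have hdata : ∀ i ∈ s, 0 ≤ (s.card : ℝ)⁻¹ ∧ LogC (lc i) ∧ GoodE d A (lc i) (F i) (a i) ∧
      lc i T ≤ ℒ := by
    intro i hi
    obtain ⟨g1, g2, g3, g4⟩ := hdat i hi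
    exact ⟨hci, g1, g2, g3⟩
  have r1 := hfam s (fun _ => (s.card : ℝ)⁻¹) lc F a T κ' (β * ℒ) ℒ (y1 + y3) y2 Yf hdata p1
    hκ'8 p3 hΛ1 hℒ1 p5 (by positivity) hy2 q4 q1 (hYc.intervalIntegrable _ _)
  have r2 := hfam' s (fun _ => (s.card : ℝ)⁻¹) lc F a T κ' (β * ℒ) ℒ (y1 + y3) y2 Yf hdata p1
    hκ'8 p3 hΛ1 hℒ1 p5 (by positivity) hy2 q4 q1 (hYc.intervalIntegrable _ _)
  -- lower bound for the number of zeros
  obtain ⟨SN, hSN⟩ : ∃ SN : ℝ, SN = ∑ i ∈ s, (s.card : ℝ)⁻¹ * (NN (F i) T (2 * T) : ℝ) :=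
    ⟨_, rfl⟩
  have hNlow : T / (2 * Real.pi) * ℒ * (1 - ε1) - 2 * C3 * (T + κ' * ℒ) ≤ SN / d := by
    have hpt : ∀ i ∈ s, d * (T / (2 * Real.pi) * ℒ * (1 - ε1) - 2 * C3 * (T + κ' * ℒ)) ≤
        (NN (F i) T (2 * T) : ℝ) := by
      intro i hi
      obtain ⟨g1, g2, g3, g4⟩ := hdat i hi
      have hl := hlow (lc i) (F i) (a i) g1 g2 T κ' p1 hκ'8
      refine le_trans ?_ hl
      have hn : 0 ≤ lc i T := g1.nonneg hT1
      have a3 : T * lc i T ^ 2 * Real.exp (-κ' ^ 2 / 2) ≤ T := by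
        have b1 : lc i T ^ 2 ≤ ℒ ^ 2 := pow_le_pow_left₀ hn g3 2
        have b2 : lc i T ^ 2 * Real.exp (-κ' ^ 2 / 2) ≤ 1 :=
          (mul_le_mul_of_nonneg_right b1 (Real.exp_pos _).le).trans p6
        calc _ = T * (lc i T ^ 2 * Real.exp (-κ' ^ 2 / 2)) := by ring
          _ ≤ T * 1 := mul_le_mul_of_nonneg_left b2 hT0.le
          _ = T := mul_one T
      have a4 : κ' * lc i T ≤ κ' * ℒ := mul_le_mul_of_nonneg_left g3 hκ'0
      have hκℒ' : 0 ≤ κ' * ℒ := by positivity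
      have a5 : C3 * (T + κ' * lc i T + T * lc i T ^ 2 * Real.exp (-κ' ^ 2 / 2)) ≤
          d * (2 * C3 * (T + κ' * ℒ)) := by
        calc _ ≤ C3 * (2 * (T + κ' * ℒ)) := mul_le_mul_of_nonneg_left (by linarith) hC3.le
          _ = 1 * (2 * C3 * (T + κ' * ℒ)) := by ring
          _ ≤ _ := mul_le_mul_of_nonneg_right hd (by positivity)
      have a6 : d * (T / (2 * Real.pi) * ℒ * (1 - ε1)) ≤ T / (2 * Real.pi) * (d * lc i T) := by
        have b1 : ℒ * (1 - ε1) ≤ lc i T := by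
          refine le_trans ?_ g4
          rw [mul_comm]
          exact mul_le_mul_of_nonneg_right (by linarith) hℒ0.le
        calc d * (T / (2 * Real.pi) * ℒ * (1 - ε1)) = T / (2 * Real.pi) * (d * (ℒ * (1 - ε1))) := by
              ring
          _ ≤ _ := mul_le_mul_of_nonneg_left (mul_le_mul_of_nonneg_left b1 hd0.le) (by positivity)
      have e7 : d * (T / (2 * Real.pi) * ℒ * (1 - ε1) - 2 * C3 * (T + κ' * ℒ)) =
          d * (T / (2 * Real.pi) * ℒ * (1 - ε1)) - d * (2 * C3 * (T + κ' * ℒ)) := by ring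
      rw [e7]
      linarith
    have hsum : ∑ i ∈ s, (s.card : ℝ)⁻¹ *
        (d * (T / (2 * Real.pi) * ℒ * (1 - ε1) - 2 * C3 * (T + κ' * ℒ))) ≤ SN := by
      rw [hSN]
      exact Finset.sum_le_sum fun i hi => mul_le_mul_of_nonneg_left (hpt i hi) hci
    rw [← Finset.sum_mul, hW, one_mul] at hsum
    rw [le_div_iff₀ hd0, mul_comm]
    exact hsum
  have core : ∀ (C SM : ℝ), 0 < C → C ≤ CC →
      SM ≤ (∑ _i ∈ s, (s.card : ℝ)⁻¹) * (d * ℒ) ^ 2 * Rw γ 0 * T /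
          (2 * Real.pi * (β * ℒ)) +
        (2 / (Real.sqrt Real.pi * (β * ℒ))) *
          (∫ u in (0 : ℝ)..(β * ℒ), Rw γ (u / (β * ℒ)) * Yf u) +
        C * ((∑ _i ∈ s, (s.card : ℝ)⁻¹) *
          (ℒ ^ 2 * κ' / (β * ℒ) + ℒ * T / (β * ℒ) + κ' * ℒ) +
          Real.sqrt (∑ _i ∈ s, (s.card : ℝ)⁻¹) * ℒ * T *
            (Real.sqrt (y1 + y3) + Real.sqrt y2) / (β * ℒ)) →
      s.card * SM ≤ (d * Rw γ 0 / β + 2 * β * I1 * D / d + ε) *
        ∑ i ∈ s, (NN (F i) T (2 * T) : ℝ) := by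
    intro C SM hC hCC' hSM
    rw [hW, Real.sqrt_one, one_mul, one_mul, one_mul] at hSM
    have h1 : SM ≤ (d ^ 2 * Rw γ 0 / β + 2 * β * I1 * D + d * ε) * (SN / d) := by
      refine hnum T ℒ κ' (Real.sqrt (y1 + y3) + Real.sqrt y2) _ SM _ hT0 hℒL1 hκ'0 hκ'1 q2 q3 ?_
        hNlow
      refine hSM.trans ?_
      have hb : 0 ≤ (ℒ ^ 2 * κ' / (β * ℒ) + ℒ * T / (β * ℒ) + κ' * ℒ) +
          ℒ * T * (Real.sqrt (y1 + y3) + Real.sqrt y2) / (β * ℒ) := by positivity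
      have := mul_le_mul_of_nonneg_right hCC' hb
      have e : (d * ℒ) ^ 2 * Rw γ 0 * T = ℒ ^ 2 * (d ^ 2 * Rw γ 0) * T := by ring
      rw [e]
      linarith
    have h2 : (d ^ 2 * Rw γ 0 / β + 2 * β * I1 * D + d * ε) * (SN / d) =
        (d * Rw γ 0 / β + 2 * β * I1 * D / d + ε) * SN := by
      field_simp
    rw [h2] at h1
    have h3 : (s.card : ℝ) * SN = ∑ i ∈ s, (NN (F i) T (2 * T) : ℝ) := by
      rw [hSN, ← Finset.mul_sum, ← mul_assoc, mul_inv_cancel₀ hcard.ne', one_mul]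
    calc (s.card : ℝ) * SM ≤ s.card * ((d * Rw γ 0 / β + 2 * β * I1 * D / d + ε) * SN) :=
          mul_le_mul_of_nonneg_left h1 hcard.le
      _ = (d * Rw γ 0 / β + 2 * β * I1 * D / d + ε) * (s.card * SN) := by ring
      _ = _ := by rw [h3]
  constructor
  · have := core C1 _ hC1 (by rw [hCC]; exact le_max_left _ _) r1
    refine le_trans (le_of_eq ?_) this
    rw [← Finset.mul_sum, ← mul_assoc, mul_inv_cancel₀ hcard.ne', one_mul]
  · have := core C1' _ hC1' (by rw [hCC]; exact le_max_right _ _) r2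
    refine le_trans (le_of_eq ?_) this
    rw [← Finset.mul_sum, ← mul_assoc, mul_inv_cancel₀ hcard.ne', one_mul]

end Pool.Agent.E8helper84.TV
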