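import Pool.Agent.E8helper84.TV.LS

/-! # The primitive Hecke characters with the same finite part -/

set_option autoImplicit false
set_option linter.unusedSectionVars false

open NumberField Complex MeasureTheory
open NumberField.Units

namespace Pool.Agent.E8helper84.TV

open Pool.Agent.Y773 (TPos VM cc)
open Pool.Agent.Y767 (Mq Mq_cop Mq_ne_bot Mq_cancel Cls cls cls_pi exists_lam card_dual finite_dual
  Tq pq pq_coe gq Tq_tp Tq_cop Tq_ne_zero ax IsHM IsHecke UD cK)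
open Pool.Agent.Y773.IQ (absNorm_pos' ofM' ofM'_pos ofM'_supp cop_one tM IM mem_IM sum_cc sum_sq)
open Pool.Agent.E8helper84.TR (Par UC ph ph_coe ph_apply Fof Fof_pq U_nrm vl tpos_ne_zero
  IsNrm TFam tM_coe Fl Fl_pq Fl_inj axu axu_coe ax_ne)
open Pool.Agent.W354.LS (ee ee_norm ee_add ee_cont)

section

variable {K : Type} [Field K] [NumberField K] [IsTotallyReal K]

/-- the primitive Hecke characters of conductor `𝔣` with the same finite part as `ψ₀`, the infinity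
type of which differs from `ν₀` by at most `V` -/
def VFam (𝔣 : Ideal (𝓞 K)) (ν₀ : InfinitePlace K → ℝ) (ψ₀ : Ideal (𝓞 K) →*₀ ℂ) (V : ℝ) :
    Set (Ideal (𝓞 K) →*₀ ℂ) :=
  {ψ | ∃ ν : InfinitePlace K → ℝ, (∀ w, |ν w - ν₀ w| ≤ V) ∧ ∑ w, ν w = 0 ∧ IsHecke K 𝔣 ν ψ ∧
    ∀ x : 𝓞 K, TPos K x → IsCoprime (Ideal.span {x}) 𝔣 →
      ψ (Ideal.span {x}) * ax ν₀ (x : K) = ψ₀ (Ideal.span {x}) * ax ν (x : K)}

variable {𝔣 : Ideal (𝓞 K)} {ν₀ : InfinitePlace K → ℝ} {ψ₀ : Ideal (𝓞 K) →*₀ ℂ} {V : ℝ}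

lemma VFam_sub (htop : 𝔣 ≠ ⊤) : VFam 𝔣 ν₀ ψ₀ V ⊆ TFam 𝔣 (V + ‖ν₀‖) := by
  rintro ψ ⟨ν, h1, h2, h3, -⟩
  refine ⟨𝔣, ν, dvd_refl _, htop, fun w => ?_, h2, h3⟩
  have e1 := norm_le_pi_norm ν₀ w
  rw [Real.norm_eq_abs] at e1
  have e2 : ν w = (ν w - ν₀ w) + ν₀ w := by ring
  rw [e2]
  exact (abs_add_le _ _).trans (add_le_add (h1 w) e1)

variable (U : UD K)

/-- the parameter of `ψ₀` -/
lemma exists_p₀ (htop : 𝔣 ≠ ⊤) (h : IsHecke K 𝔣 ν₀ ψ₀) (hs : ∑ w, ν₀ w = 0) :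
    ∃ p₀ : Par 𝔣, UC U 𝔣 p₀ ∧ U.NU p₀.2 = ν₀ ∧ ∀ x : Tq 𝔣,
      ψ₀ (Ideal.span {(x : 𝓞 K)}) = ((ph U 𝔣 p₀ x : ℂˣ) : ℂ) := by
  obtain ⟨p, h1, h2, h3⟩ := U.exists_par (V := ‖ν₀‖) (norm_nonneg _) htop
    (fun w => by rw [← Real.norm_eq_abs]; exact norm_le_pi_norm ν₀ w) hs h.toIsHM
  exact ⟨p, h1.1, h2, fun x => by rw [h3, ph_coe]⟩

lemma ax_sub (ν ν' : InfinitePlace K → ℝ) (x : K) : ax (ν - ν') x * ax ν' x = ax ν x := by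
  unfold ax
  rw [← Complex.exp_add, ← mul_add, ← Complex.ofReal_add, ← Finset.sum_add_distrib]
  congr 4
  funext w
  rw [Pi.sub_apply]; ring

lemma mem_par (htop : 𝔣 ≠ ⊤) {p₀ : Par 𝔣} (hp₀ : UC U 𝔣 p₀) (hν₀ : U.NU p₀.2 = ν₀)
    (hψ₀ : ∀ x : Tq 𝔣, ψ₀ (Ideal.span {(x : 𝓞 K)}) = ((ph U 𝔣 p₀ x : ℂˣ) : ℂ)) (hV : 0 ≤ V)
    {ψ : Ideal (𝓞 K) →*₀ ℂ} (h : ψ ∈ VFam 𝔣 ν₀ ψ₀ V) :
    ∃ m : Fin (rank K) → ℤ, U.p (fun i => (m i : ℝ)) ≤ V ∧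
      ∀ x, tM 𝔣 ψ (pq 𝔣 x) = ph U 𝔣 (sh p₀ m) x := by
  have hT := VFam_sub htop h
  obtain ⟨ν, h1, h2, h3, h4⟩ := h
  set θ : Fin (rank K) → ℝ :=
    fun i => (∑ w, ν w * Real.log (w ((U.ε i : (𝓞 K)ˣ) : K))) / (2 * Real.pi) with hθ
  have hNU : U.NU θ = ν := U.NUi ν h2
  -- value on the principal ideals
  have h5 : ∀ x : Tq 𝔣, ψ (Ideal.span {(x : 𝓞 K)}) =
      ((p₀.1 (gq 𝔣 x) : ℂˣ) : ℂ) * ax ν ((x : 𝓞 K) : K) := by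
    intro x
    have e1 := h4 x (Tq_tp x) (Tq_cop x)
    rw [hψ₀ x, ph_apply, Units.val_mul, axu_coe, hν₀] at e1
    have e2 := ax_ne ν₀ ((x : 𝓞 K) : K)
    apply mul_right_cancel₀ e2
    rw [e1]
    ring
  have h6 : ∀ i, cexp (2 * Real.pi * I * (θ i : ℂ)) = cexp (2 * Real.pi * I * (p₀.2 i : ℂ)) := by
    intro i
    have e1 := h5 (U.eT 𝔣 i)
    have e2 : Ideal.span {((U.eT 𝔣 i : Tq 𝔣) : 𝓞 K)} = 1 := by
      change Ideal.span {((U.ε i : (𝓞 K)ˣ) : 𝓞 K)} = 1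
      rw [Ideal.span_singleton_eq_top.mpr (U.ε i).isUnit, ← Ideal.one_eq_top]
    rw [e2, map_one] at e1
    have e3 : ax ν (((U.eT 𝔣 i : Tq 𝔣) : 𝓞 K) : K) = cexp (2 * Real.pi * I * (θ i : ℂ)) := by
      rw [← hNU]
      exact TR.ax_eps U θ i
    rw [e3] at e1
    have e4 := hp₀ i
    have e5 : ((p₀.1 (U.eG 𝔣 i) : ℂˣ) : ℂ) ≠ 0 := Units.ne_zero _
    apply mul_left_cancel₀ e5
    rw [e4]
    exact e1.symm
  have h7 : ∀ i, ∃ m : ℤ, θ i = p₀.2 i + m := by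
    intro i
    obtain ⟨m, hm⟩ := Complex.exp_eq_exp_iff_exists_int.mp (h6 i)
    refine ⟨m, ?_⟩
    have e1 : (2 * Real.pi * I : ℂ) ≠ 0 := by
      have : (Real.pi : ℂ) ≠ 0 := by exact_mod_cast Real.pi_pos.ne'
      simp [this]
    have e2 : (2 * Real.pi * I : ℂ) * (θ i : ℂ) = (2 * Real.pi * I) * ((p₀.2 i : ℂ) + m) := by
      rw [hm]; ring
    have e3 := mul_left_cancel₀ e1 e2
    exact_mod_cast e3
  choose m hm using h7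
  refine ⟨m, ?_, fun x => ?_⟩
  · have e1 : (fun i => (m i : ℝ)) = θ - p₀.2 := by
      funext i
      rw [Pi.sub_apply, hm]; ring
    rw [U.p_le _ hV, e1, map_sub, hNU, hν₀]
    exact h1
  · have e1 : (sh p₀ m).2 = θ := by
      funext i
      exact (hm i).symm
    ext
    rw [tM_coe htop hT, pq_coe, h5, ph_apply, Units.val_mul, axu_coe, e1, hNU]
    rfl

lemma par_mem (hbot : 𝔣 ≠ ⊥) (htop : 𝔣 ≠ ⊤) {p₀ : Par 𝔣} (hν₀ : U.NU p₀.2 = ν₀)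
    (hψ₀ : ∀ x : Tq 𝔣, ψ₀ (Ideal.span {(x : 𝓞 K)}) = ((ph U 𝔣 p₀ x : ℂˣ) : ℂ))
    (hH : IsHecke K 𝔣 ν₀ ψ₀) (hV : 0 ≤ V)
    {F : Mq 𝔣 →* ℂˣ} {m : Fin (rank K) → ℤ} (hm : U.p (fun i => (m i : ℝ)) ≤ V)
    (hF : ∀ x, F (pq 𝔣 x) = ph U 𝔣 (sh p₀ m) x) :
    ofM' htop F ∈ VFam 𝔣 ν₀ ψ₀ V := by
  have hval : ∀ (x : 𝓞 K) (hx : TPos K x) (hc : IsCoprime (Ideal.span {x}) 𝔣),
      ofM' htop F (Ideal.span {x}) = ((p₀.1 (gq 𝔣 ⟨x, hx, hc⟩) : ℂˣ) : ℂ) *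
        ax (U.NU (sh p₀ m).2) (x : K) := by
    intro x hx hc
    rw [ofM'_pos htop F hc]
    have e1 := hF ⟨x, hx, hc⟩
    have e2 : (⟨Ideal.span {x}, hc⟩ : Mq 𝔣) = pq 𝔣 ⟨x, hx, hc⟩ := by
      apply Subtype.ext
      rw [pq_coe]
    rw [e2, e1, ph_apply, Units.val_mul, axu_coe]
    rfl
  refine ⟨U.NU (sh p₀ m).2, ?_, U.NUs _, ⟨⟨hbot, fun 𝔞 _ => ofM'_supp htop F 𝔞, ?_⟩, ?_⟩, ?_⟩
  · have e1 : (sh p₀ m).2 = p₀.2 + (fun i => (m i : ℝ)) := by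
      funext i
      rfl
    rw [U.p_le _ hV] at hm
    intro w
    rw [e1, map_add, hν₀, Pi.add_apply, add_sub_cancel_left]
    exact hm w
  · intro x hx hxp
    rw [hval x hxp (cop_one hx)]
    have e1 : gq 𝔣 ⟨x, hxp, cop_one hx⟩ = 1 := by
      rw [← map_one (gq 𝔣), Pool.Agent.Y767.gq_eq_iff]
      exact hx
    rw [e1, map_one, Units.val_one, one_mul]
  · intro 𝔤 hg hne
    obtain ⟨x, h1, h2, h3, h4⟩ := hH.prim 𝔤 hg hne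
    refine ⟨x, h1, h2, h3, fun h5 => h4 ?_⟩
    rw [hval x h2 h3] at h5
    have e1 := hψ₀ ⟨x, h2, h3⟩
    rw [ph_apply, Units.val_mul, axu_coe, hν₀] at e1
    have e2 : ((p₀.1 (gq 𝔣 ⟨x, h2, h3⟩) : ℂˣ) : ℂ) = 1 :=
      mul_eq_right₀ (ax_ne _ _) |>.mp h5
    rw [e2, one_mul] at e1
    exact e1
  · intro x hx hc
    rw [hval x hx hc]
    have e1 := hψ₀ ⟨x, hx, hc⟩
    rw [ph_apply, Units.val_mul, axu_coe, hν₀] at e1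
    have e1' : ψ₀ (Ideal.span {x}) = ((p₀.1 (gq 𝔣 ⟨x, hx, hc⟩) : ℂˣ) : ℂ) * ax ν₀ (x : K) := e1
    rw [e1']
    ring

/-- **the size of the family** -/
theorem VFam_count (hbot : 𝔣 ≠ ⊥) (htop : 𝔣 ≠ ⊤) (hH : IsHecke K 𝔣 ν₀ ψ₀) (hs : ∑ w, ν₀ w = 0)
    (hV : IsNrm.dc U.p ≤ V) : (VFam 𝔣 ν₀ ψ₀ V).Finite ∧
    (Nat.card (Cls (pq 𝔣)) : ℝ) * ((V - IsNrm.dc U.p) ^ (rank K) * vl U) ≤
      ((VFam 𝔣 ν₀ ψ₀ V).ncard : ℝ) := by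
  classical
  have hn := U_nrm U
  have hV0 : 0 ≤ V := hn.dc_nonneg.trans hV
  have hfc := (TR.cls_card hbot htop).1
  have hfd := finite_dual (Cls (pq 𝔣))
  obtain ⟨p₀, hp₀, hν₀, hψ₀⟩ := exists_p₀ U htop hH hs
  have hfin : (VFam 𝔣 ν₀ ψ₀ V).Finite := by
    have h1 := (TR.TFam_finite U hbot htop (V := max (V + ‖ν₀‖) (IsNrm.dc U.p))
      (le_max_right _ _)).1
    refine h1.subset ((VFam_sub htop).trans ?_)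
    rintro ψ ⟨𝔤, ν, h1, h2, h3, h4, h5⟩
    exact ⟨𝔤, ν, h1, h2, fun w => (h3 w).trans (le_max_left _ _), h4, h5⟩
  refine ⟨hfin, ?_⟩
  -- an injection
  set G : (Cls (pq 𝔣) →* ℂˣ) × (Fin (rank K) → ℤ) → (Ideal (𝓞 K) →*₀ ℂ) := fun q =>
    ofM' htop (Fl U 𝔣 (q.1, sh p₀ q.2)) with hG
  have hmaps : Set.MapsTo G (Set.univ ×ˢ IsNrm.pts U.p 0 V) (VFam 𝔣 ν₀ ψ₀ V) := by
    rintro ⟨l, m⟩ ⟨-, hm⟩
    have hm' : U.p (fun i => (m i : ℝ)) ≤ V := by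
      have : U.p (fun i => (0 : Fin (rank K) → ℝ) i + (m i : ℝ)) ≤ V := hm
      simpa using this
    exact par_mem U hbot htop hν₀ hψ₀ hH hV0 hm'
      (fun x => Fl_pq U htop (lp := (l, sh p₀ m)) (UC_sh U hp₀ m) x)
  have hinj : Set.InjOn G (Set.univ ×ˢ IsNrm.pts U.p 0 V) := by
    rintro ⟨l, m⟩ ⟨-, hm⟩ ⟨l', m'⟩ ⟨-, hm'⟩ h
    have h1 : Fl U 𝔣 (l, sh p₀ m) = Fl U 𝔣 (l', sh p₀ m') := by
      refine MonoidHom.ext fun x => ?_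
      have h2 := DFunLike.congr_fun h (x : Ideal (𝓞 K))
      simp only [hG] at h2
      rw [ofM'_pos htop _ (Mq_cop x), ofM'_pos htop _ (Mq_cop x)] at h2
      exact Units.ext h2
    obtain ⟨W, hW⟩ : ∃ W : ℝ, W = max (U.p (sh p₀ m).2) (U.p (sh p₀ m').2) := ⟨_, rfl⟩
    have h3 := Fl_inj U hbot htop W
      (show ((l, sh p₀ m) : (Cls (pq 𝔣) →* ℂˣ) × Par 𝔣) ∈ Set.univ ×ˢ U.PQ 𝔣 W from
        ⟨trivial, UC_sh U hp₀ m, by rw [hW]; exact le_max_left _ _⟩)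
      (show ((l', sh p₀ m') : (Cls (pq 𝔣) →* ℂˣ) × Par 𝔣) ∈ Set.univ ×ˢ U.PQ 𝔣 W from
        ⟨trivial, UC_sh U hp₀ m', by rw [hW]; exact le_max_right _ _⟩) h1
    obtain ⟨h4, h5⟩ := Prod.ext_iff.mp h3
    have h6 : m = m' := by
      funext i
      have h7 : (sh p₀ m).2 i = (sh p₀ m').2 i := congrFun (congrArg Prod.snd h5) i
      unfold sh at h7
      simp only at h7
      have h8 : (m i : ℝ) = m' i := by linarith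
      exact_mod_cast h8
    exact Prod.ext h4 h6
  have h1 := Set.ncard_le_ncard_of_injOn G hmaps hinj hfin
  rw [Set.ncard_prod, Set.ncard_univ, card_dual] at h1
  have h2 : (Nat.card (Cls (pq 𝔣)) : ℝ) * ((IsNrm.pts U.p 0 V).ncard : ℝ) ≤
      ((VFam 𝔣 ν₀ ψ₀ V).ncard : ℝ) := by exact_mod_cast h1
  refine le_trans (mul_le_mul_of_nonneg_left (hn.pts_lower 0 hV) (Nat.cast_nonneg _)) h2

end

end Pool.Agent.E8helper84.TV
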