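import Pool.Agent.Y772.HC.Fen
import Pool.Agent.W354.GE.GoodE

/-!
# Analytic consequences of a functional equation with large shifts

Compare `Pool.Agent.Y772.HC.Fen` (helper772); the constants do not depend on the shifts.
-/

set_option autoImplicit false

open Complex Filter Topology Set MeasureTheory Asymptotics
open H370.DL (refl hasDerivAt_refl analyticAt_refl im_osc re_osc eventually_im_ne
  ne_neg_nat_of_im logDeriv_refl order_refl Gammaℝ_ne_zero_of_im analyticAt_Gammaℝ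
  logDeriv_Gammaℝ_bound)
open Pool.Agent.Y767 (GGn FEn)
open Pool.Agent.Y772.FE (HH sp3_ne)
open Pool.Agent.Y772.HC (Gd GGn_ne GGn_est fe_asym LX LX_ne LX_an logDeriv_LX eventually_Gd HH_bound)

namespace Pool.Agent.E8helper84.TV

variable {ι : Type} [Fintype ι]

/-- the logarithmic conductor (divided by the degree) -/
noncomputable def lcn (R : ℝ) (μ : ι → ℝ) (t : ℝ) : ℝ :=
  (Fintype.card ι : ℝ)⁻¹ * (Real.log R + ∑ i, Real.log (t + μ i))

lemma lcn_mul [Nonempty ι] (R : ℝ) (μ : ι → ℝ) (t : ℝ) :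
    (Fintype.card ι : ℝ) * lcn R μ t = Real.log R + ∑ i, Real.log (t + μ i) := by
  have h : (Fintype.card ι : ℝ) ≠ 0 := by exact_mod_cast Fintype.card_ne_zero
  unfold lcn
  rw [← mul_assoc, mul_inv_cancel₀ h, one_mul]

lemma lcn_logC [Nonempty ι] {R : ℝ} (hR : 1 ≤ R) {μ : ι → ℝ} (hμ : ∀ i, 0 ≤ μ i) :
    Pool.Agent.W354.LogC (lcn R μ) := by
  have hc : (0 : ℝ) < (Fintype.card ι : ℝ) := by exact_mod_cast Fintype.card_pos
  have hR0 := Real.log_nonneg hR
  have hle : ∀ a b : ℝ, (Fintype.card ι : ℝ) * a ≤ (Fintype.card ι : ℝ) * b → a ≤ b :=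
    fun a b h => le_of_mul_le_mul_left h hc
  refine ⟨fun x y hx hxy => hle _ _ ?_, fun x hx => hle _ _ ?_, fun x y hx hxy => hle _ _ ?_⟩
  · rw [lcn_mul, lcn_mul]
    have : ∑ i, Real.log (x + μ i) ≤ ∑ i, Real.log (y + μ i) :=
      Finset.sum_le_sum fun i _ => Real.log_le_log (by linarith [hμ i]) (by linarith)
    linarith
  · rw [lcn_mul]
    have h1 : ∑ _i : ι, Real.log x ≤ ∑ i, Real.log (x + μ i) :=
      Finset.sum_le_sum fun i _ => Real.log_le_log (by linarith) (by linarith [hμ i])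
    rw [Finset.sum_const, Finset.card_univ, nsmul_eq_mul] at h1
    linarith
  · rw [mul_add, lcn_mul, lcn_mul]
    have h1 : ∑ i, Real.log (y + μ i) ≤ ∑ i, (Real.log (x + μ i) + Real.log (y / x)) := by
      refine Finset.sum_le_sum fun i _ => ?_
      have hxi : 0 < x + μ i := by linarith [hμ i]
      have hx0 : 0 < x := by linarith
      have hy0 : 0 < y := by linarith
      rw [← Real.log_mul hxi.ne' (by positivity)]
      refine Real.log_le_log (by linarith [hμ i]) ?_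
      have h2 : (x + μ i) * (y / x) = y + μ i * (y / x) := by
        field_simp
      rw [h2]
      have h3 : 1 ≤ y / x := by rw [one_le_div hx0]; exact hxy
      have h4 := le_mul_of_one_le_right (hμ i) h3
      linarith
    rw [Finset.sum_add_distrib, Finset.sum_const, Finset.card_univ, nsmul_eq_mul] at h1
    linarith

theorem F_growth' {N Q B V : ℝ} (hN : 1 ≤ N) (hQ : 1 ≤ Q) (hB1 : 1 ≤ B) (hV : 0 ≤ V) {e : ι → ℕ}
    {ν : ι → ℝ} (hν : ∀ i, |ν i| ≤ V) {F : ℂ → ℂ} (hF : FEn (N * Q ^ Fintype.card ι) e ν F)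
    (hB : ∀ s : ℂ, 3 / 2 ≤ s.re → ‖F s‖ ≤ B)
    (s : ℂ) (h1 : (1 / 16 : ℝ) ≤ s.re) (h3 : 1 ≤ s.im) :
    ‖F s‖ ≤ B * N * (1 + V) ^ Fintype.card ι * 6 ^ Fintype.card ι *
      (Q * s.im) ^ Fintype.card ι := by
  set d := Fintype.card ι with hd
  have hV1 : 1 ≤ (1 + V) ^ d := one_le_pow₀ (by linarith)
  have hBN0 : 1 ≤ B * N := by nlinarith
  set BN : ℝ := B * N * (1 + V) ^ d with hBNdef
  have hBN : 1 ≤ BN := by
    rw [hBNdef]
    nlinarith
  have hBBN : B ≤ BN := by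
    have h4 : B ≤ B * N := by nlinarith
    have h5 : B * N ≤ BN := le_mul_of_one_le_right (by linarith) hV1
    linarith
  have hQ0 : (0 : ℝ) < Q := by linarith
  have hqt : 1 ≤ Q * s.im := by nlinarith
  have hP : 1 ≤ Q ^ d := one_le_pow₀ hQ
  have hP0 : 0 < Q ^ d := by positivity
  have hc0 : 0 ≤ BN * 6 ^ d := by positivity
  rcases le_total s.re (3 / 2) with h | h
  · have e1 := HH_bound hN hP hV hν hF hB s (by linarith) h
    rw [← hd, ← hBNdef] at e1
    unfold HH at e1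
    rw [norm_mul, norm_mul, norm_inv, norm_pow, Complex.norm_cpow_eq_rpow_re_of_pos hP0] at e1
    have hre : ((s - 3 / 2) / 2).re = (s.re - 3 / 2) / 2 := by
      have : ((s - 3 / 2) / 2).re = (s - 3 / 2).re / 2 := by simp
      rw [this, Complex.sub_re]; norm_num
    rw [hre] at e1
    have e2 : 0 < ‖s + 3‖ ^ d := by
      have : s + 3 ≠ 0 := sp3_ne (by linarith)
      positivity
    have e3 : ‖s + 3‖ ^ d ≤ (6 * s.im) ^ d := by
      apply pow_le_pow_left₀ (norm_nonneg _)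
      refine (norm_le_abs_re_add_abs_im _).trans ?_
      have hre' : (s + 3).re = s.re + 3 := by simp
      have him' : (s + 3).im = s.im := by simp
      rw [hre', him', abs_of_nonneg (by linarith), abs_of_nonneg (by linarith)]
      linarith
    have e4 : (Q ^ d)⁻¹ ≤ (Q ^ d) ^ ((s.re - 3 / 2) / 2) := by
      rw [← Real.rpow_neg_one (Q ^ d)]
      apply Real.rpow_le_rpow_of_exponent_le hP
      linarith
    have e5 : ‖F s‖ * (Q ^ d)⁻¹ * (‖s + 3‖ ^ d)⁻¹ ≤ BN := by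
      refine le_trans ?_ e1
      gcongr
    have e6 : ‖F s‖ ≤ BN * (‖s + 3‖ ^ d) * Q ^ d := by
      have : ‖F s‖ = (‖F s‖ * (Q ^ d)⁻¹ * (‖s + 3‖ ^ d)⁻¹) * (‖s + 3‖ ^ d) * Q ^ d := by
        have e2' := e2.ne'
        generalize ‖s + 3‖ ^ d = M at e2' ⊢
        field_simp
      rw [this]
      gcongr
    calc ‖F s‖ ≤ BN * (‖s + 3‖ ^ d) * Q ^ d := e6
      _ ≤ BN * ((6 * s.im) ^ d) * Q ^ d := by gcongr
      _ = BN * 6 ^ d * (Q * s.im) ^ d := by rw [mul_pow, mul_pow]; ring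
  · have e1 := hB s h
    have e2 : 1 ≤ (Q * s.im) ^ d := one_le_pow₀ hqt
    have e3 : B ≤ BN * 6 ^ d := by
      have h5 : (1 : ℝ) ≤ 6 ^ d := one_le_pow₀ (by norm_num)
      nlinarith
    nlinarith

theorem F_left' {C : ℝ} (hC : ∀ z : ℂ, -1 / 2 ≤ z.re → z.re ≤ 6 → 1 ≤ |z.im| →
    ‖logDeriv Gammaℝ z - 1 / 2 * Real.log |z.im|‖ ≤ C) {N P : ℝ} (hN : 1 ≤ N) (hP : 1 ≤ P)
    {e : ι → ℕ} {ν : ι → ℝ} (hν : ∀ i, 0 ≤ ν i) {F : ℂ → ℂ}
    (hF : FEn (N * P) e ν F)
    (s : ℂ) (h1 : -3 / 4 ≤ s.re) (h2 : s.re ≤ 1 / 2) (h3 : 1 ≤ s.im) (h4 : F s ≠ 0) :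
    ‖deriv F s / F s + ((Real.log P + ∑ i, Real.log (s.im + ν i) : ℝ) : ℂ) +
        (starRingEnd ℂ) (deriv F (1 - (starRingEnd ℂ) s) / F (1 - (starRingEnd ℂ) s))‖ ≤
      Real.log N + Fintype.card ι * (C + 1) + Fintype.card ι * (C + 1) := by
  set d := Fintype.card ι with hd
  have hs : s.im ≠ 0 := by linarith
  have hpos : ∀ i, 1 ≤ s.im + ν i := fun i => by linarith [hν i]
  have hGd : Gd ν s := fun i h => by linarith [hpos i]
  have hP0 : (0 : ℝ) < P := by linarith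
  have hR : 0 < N * P := by positivity
  obtain ⟨w, hw, hfe⟩ := fe_asym hR hF
  have hw0 : w ≠ 0 := by
    intro h
    rw [h, norm_zero] at hw
    exact zero_ne_one hw
  have hdiff : Differentiable ℂ F := hF.diff
  have ha : AnalyticAt ℂ F (1 - (starRingEnd ℂ) s) :=
    (hdiff.differentiableOn).analyticAt Filter.univ_mem
  have e1 : F =ᶠ[𝓝 s] fun z => LX w (N * P) e ν z * refl F z := by
    filter_upwards [eventually_Gd hGd] with z hz
    exact hfe z hz
  have hr : refl F s ≠ 0 := by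
    intro h
    apply h4
    rw [hfe s hGd, h, mul_zero]
  have e2 : logDeriv F s = logDeriv (LX w (N * P) e ν) s + logDeriv (refl F) s := by
    rw [(logDeriv_congr_nhds e1).eq_of_nhds]
    exact logDeriv_mul s (LX_ne hw0 hR e hGd) hr (LX_an w hR e hGd).differentiableAt
      (analyticAt_refl ha).differentiableAt
  rw [logDeriv_refl ha.differentiableAt, logDeriv_LX hw0 hR e hGd] at e2
  change ‖logDeriv F s + ((Real.log P + ∑ i, Real.log (s.im + ν i) : ℝ) : ℂ) +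
    (starRingEnd ℂ) (logDeriv F (1 - (starRingEnd ℂ) s))‖ ≤ _
  rw [e2]
  have i1 : ∀ i, |(1 - s).im + -ν i| = s.im + ν i := by
    intro i
    have : (1 - s).im = -s.im := by simp
    rw [this, ← neg_add, abs_neg, abs_of_nonneg (by linarith [hpos i])]
  have i2 : ∀ i, |s.im + ν i| = s.im + ν i := fun i => abs_of_nonneg (by linarith [hpos i])
  have b1 := GGn_est hC hR hF.he (ν := fun i => -ν i) (s := 1 - s) (by simp; linarith)
    (by simp; linarith) (fun i => by rw [i1]; exact hpos i)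
  have b2 := GGn_est hC hR hF.he (ν := ν) (s := s) h1 (by linarith)
    (fun i => by rw [i2]; exact hpos i)
  simp only [i1] at b1
  simp only [i2] at b2
  rw [← hd] at b1 b2
  have hlogR : Real.log (N * P) = Real.log N + Real.log P := by
    rw [Real.log_mul (by linarith) (by positivity)]
  rw [hlogR] at b1 b2
  obtain ⟨D, hD⟩ : ∃ D : ℝ, D = ∑ i, Real.log (s.im + ν i) := ⟨_, rfl⟩
  have hDeq : ∑ i, (1 / 2 * Real.log (s.im + ν i)) = D / 2 := by
    rw [hD, ← Finset.mul_sum]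
    ring
  rw [hDeq] at b1 b2
  rw [← hD]
  set G1 := logDeriv (GGn (N * P) e fun i => -ν i) (1 - s) with hG1
  set G2 := logDeriv (GGn (N * P) e ν) s with hG2
  have e3 : -G1 - G2 + -(starRingEnd ℂ) (logDeriv F (1 - (starRingEnd ℂ) s)) +
        ((Real.log P + D : ℝ) : ℂ) +
      (starRingEnd ℂ) (logDeriv F (1 - (starRingEnd ℂ) s)) =
      -((Real.log N : ℝ) : ℂ) -
        (G1 - (((Real.log N + Real.log P) / 2 + D / 2 : ℝ) : ℂ)) -
      (G2 - (((Real.log N + Real.log P) / 2 + D / 2 : ℝ) : ℂ)) := by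
    push_cast
    ring
  rw [e3]
  refine (norm_sub_le _ _).trans ?_
  have n1 := norm_sub_le (-((Real.log N : ℝ) : ℂ))
    (G1 - (((Real.log N + Real.log P) / 2 + D / 2 : ℝ) : ℂ))
  rw [norm_neg, Complex.norm_real,
    Real.norm_of_nonneg (Real.log_nonneg hN)] at n1
  linarith

/-- uniform consequences of the functional equation -/
theorem t_fen' [Nonempty ι] (N : ℝ) (hN : 1 ≤ N) (B : ℝ) (hB1 : 1 ≤ B) : ∃ A : ℝ, 1 ≤ A ∧
    ∀ (Q : ℝ), 1 ≤ Q → ∀ (e : ι → ℕ) (ν : ι → ℝ) (F : ℂ → ℂ), (∀ i, 0 ≤ ν i) →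
    FEn (N * Q ^ Fintype.card ι) e ν F →
    (∀ s : ℂ, 3 / 2 ≤ s.re → ‖F s‖ ≤ B) → (∀ s : ℂ, 1 ≤ s.re → 1 ≤ s.im → F s ≠ 0) →
    (∀ s : ℂ, (1 / 16 : ℝ) ≤ s.re → s.re ≤ 4 → 1 ≤ s.im →
      ‖F s‖ ≤ A * Real.exp (A * lcn (Q ^ Fintype.card ι) ν s.im)) ∧
    (∀ s : ℂ, s.re ≤ 0 → 1 ≤ s.im → F s ≠ 0) ∧
    (∀ s : ℂ, 0 < s.re → s.re < 1 → 1 ≤ s.im →
      analyticOrderAt F (1 - (starRingEnd ℂ) s) = analyticOrderAt F s) ∧
    (∀ s : ℂ, -1 / 2 ≤ s.re → s.re ≤ 1 / 2 → 1 ≤ s.im → F s ≠ 0 →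
      ‖deriv F s / F s + (((Fintype.card ι : ℝ) * lcn (Q ^ Fintype.card ι) ν s.im : ℝ) : ℂ) +
        (starRingEnd ℂ) (deriv F (1 - (starRingEnd ℂ) s) / F (1 - (starRingEnd ℂ) s))‖ ≤ A) := by
  obtain ⟨C, hC0, hC⟩ := logDeriv_Gammaℝ_bound
  set d := Fintype.card ι with hd
  have hd0 : (0 : ℝ) ≤ d := Nat.cast_nonneg d
  have hdpos : (0 : ℝ) < d := by exact_mod_cast (Fintype.card_pos : 0 < Fintype.card ι)
  have h61 : (1 : ℝ) ≤ 6 ^ d := one_le_pow₀ (by norm_num)
  have hBN : 1 ≤ B * N := by nlinarith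
  have hc0 : 1 ≤ B * N * 6 ^ d := by nlinarith
  have hl0 : 0 ≤ Real.log N := Real.log_nonneg hN
  have hdC : 0 ≤ (d : ℝ) * (C + 1) := mul_nonneg hd0 (by linarith)
  refine ⟨(B * N * 6 ^ d + d * (2 * d)) +
    (Real.log N + d * (C + 1) + d * (C + 1)), by nlinarith, ?_⟩
  intro Q hQ e ν F hν hF hB hnz
  have hsum : ∀ i, ν i ≤ ∑ j, ν j := fun i =>
    Finset.single_le_sum (f := ν) (fun j _ => hν j) (Finset.mem_univ i)
  have hQ0 : 0 < Q := by linarith
  have hR : 0 < N * Q ^ d := by positivity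
  obtain ⟨w, hw, hfe⟩ := fe_asym hR hF
  have hw0 : w ≠ 0 := by
    intro h
    rw [h, norm_zero] at hw
    exact zero_ne_one hw
  have hGd : ∀ s : ℂ, 1 ≤ s.im → Gd ν s := fun s hs i h => by linarith [hν i]
  refine ⟨?_, ?_, ?_, ?_⟩
  · intro s h1 _ h3
    obtain ⟨V, hV⟩ : ∃ V : ℝ, V = ∑ j, ν j := ⟨_, rfl⟩
    have hV0 : 0 ≤ V := by rw [hV]; exact Finset.sum_nonneg fun i _ => hν i
    have g1 := F_growth' hN hQ hB1 hV0 (e := e) (ν := ν) (fun i => by
      rw [abs_of_nonneg (hν i), hV]; exact hsum i) hF hB s h1 h3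
    rw [← hd] at g1
    have hPQ : 1 ≤ Q ^ d := one_le_pow₀ hQ
    -- the conductor
    obtain ⟨P, hPd⟩ : ∃ P : ℝ, P = ∏ i, (s.im + ν i) := ⟨_, rfl⟩
    have hpos : ∀ i, 1 ≤ s.im + ν i := fun i => by linarith [hν i]
    have hP1 : s.im ^ d ≤ P := by
      rw [hPd, hd, ← Finset.card_univ, ← Finset.prod_const]
      exact Finset.prod_le_prod (fun i _ => by linarith) (fun i _ => by linarith [hν i])
    have hP2 : 1 + V ≤ P := by
      have h5 : ∀ S : Finset ι, 1 + ∑ j ∈ S, ν j ≤ ∏ j ∈ S, (s.im + ν j) := by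
        intro S
        classical
        induction S using Finset.induction_on with
        | empty => simp
        | insert a S ha ih =>
          rw [Finset.sum_insert ha, Finset.prod_insert ha]
          have h6 : 0 ≤ ∑ j ∈ S, ν j := Finset.sum_nonneg fun i _ => hν i
          have h7 := hν a
          have h8 : (s.im + ν a) * (1 + ∑ j ∈ S, ν j) ≤
              (s.im + ν a) * ∏ j ∈ S, (s.im + ν j) :=
            mul_le_mul_of_nonneg_left ih (by linarith)
          nlinarith [mul_nonneg h7 h6, mul_nonneg (by linarith : 0 ≤ s.im - 1) h6]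
      rw [hV, hPd]
      exact h5 _
    have hP0 : 0 < P := by linarith
    have hexp : Real.exp ((d : ℝ) * lcn (Q ^ d) ν s.im) = Q ^ d * P := by
      rw [hd, lcn_mul, Real.exp_add, Real.exp_log (by positivity), hPd, ← Real.log_prod
        (fun i _ => by linarith [hpos i]),
        Real.exp_log (Finset.prod_pos fun i _ => by linarith [hpos i])]
    have hlc0 : 0 ≤ lcn (Q ^ d) ν s.im := (lcn_logC hPQ hν).nonneg h3
    obtain ⟨E, hE⟩ : ∃ E : ℝ, E = Real.exp ((d : ℝ) * lcn (Q ^ d) ν s.im) := ⟨_, rfl⟩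
    have hE1 : 1 ≤ E := by rw [hE]; exact Real.one_le_exp (by positivity)
    have hd1 : 1 ≤ d := Fintype.card_pos
    have k1 : (1 + V) ^ d ≤ P ^ d := pow_le_pow_left₀ (by linarith) hP2 d
    have k2 : (Q * s.im) ^ d ≤ E := by
      rw [mul_pow, hE, hexp]
      exact mul_le_mul_of_nonneg_left hP1 (by positivity)
    have k3 : P ^ d ≤ E ^ d := by
      refine pow_le_pow_left₀ hP0.le ?_ d
      rw [hE, hexp]
      exact le_mul_of_one_le_left hP0.le hPQ
    have k4 : E ^ d * E ≤ Real.exp (d * (2 * d) * lcn (Q ^ d) ν s.im) := by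
      have : E ^ d * E = Real.exp (((d : ℝ) + 1) * (d * lcn (Q ^ d) ν s.im)) := by
        rw [← pow_succ, hE, ← Real.exp_nat_mul]
        push_cast
        ring_nf
      rw [this, Real.exp_le_exp]
      have h5 : (1 : ℝ) ≤ d := by exact_mod_cast hd1
      have h6 : 0 ≤ (d : ℝ) * lcn (Q ^ d) ν s.im := by positivity
      nlinarith
    obtain ⟨A, hA⟩ : ∃ A : ℝ, A = (B * N * 6 ^ d + d * (2 * d)) +
      (Real.log N + d * (C + 1) + d * (C + 1)) := ⟨_, rfl⟩
    rw [← hA]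
    have hA1 : B * N * 6 ^ d ≤ A := by
      rw [hA]
      nlinarith
    have hA2 : (d : ℝ) * (2 * d) ≤ A := by
      rw [hA]
      nlinarith
    calc ‖F s‖ ≤ B * N * (1 + V) ^ d * 6 ^ d * (Q * s.im) ^ d := g1
      _ = (B * N * 6 ^ d) * ((1 + V) ^ d * (Q * s.im) ^ d) := by ring
      _ ≤ (B * N * 6 ^ d) * (E ^ d * E) := by
          refine mul_le_mul_of_nonneg_left ?_ (by linarith)
          exact mul_le_mul (k1.trans k3) k2 (by positivity) (by positivity)
      _ ≤ A * Real.exp (A * lcn (Q ^ d) ν s.im) := by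
          refine mul_le_mul hA1 (k4.trans ?_) (by positivity) (by linarith)
          rw [Real.exp_le_exp]
          exact mul_le_mul_of_nonneg_right hA2 hlc0
  · intro s h1 h3
    rw [hfe s (hGd s h3)]
    refine mul_ne_zero (LX_ne hw0 hR e (hGd s h3)) ?_
    unfold H370.DL.refl
    rw [map_ne_zero]
    apply hnz
    · rw [re_osc]; linarith
    · rw [im_osc]; exact h3
  · intro s _ _ h3
    have ha : AnalyticAt ℂ F (1 - (starRingEnd ℂ) s) := hF.diff.analyticAt _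
    have h1 : F =ᶠ[𝓝 s] (LX w (N * Q ^ d) e ν) * refl F := by
      filter_upwards [eventually_Gd (hGd s h3)] with z hz
      exact hfe z hz
    have hX := LX_an w hR e (hGd s h3)
    rw [analyticOrderAt_congr h1, analyticOrderAt_mul hX (analyticAt_refl ha),
      hX.analyticOrderAt_eq_zero.mpr (LX_ne hw0 hR e (hGd s h3)), zero_add, order_refl ha]
  · intro s h1 h2' h3 h4
    have h5 := F_left' hC hN (one_le_pow₀ hQ : 1 ≤ Q ^ d) hν hF s (by linarith) h2' h3 h4
    rw [← hd] at h5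
    rw [hd, lcn_mul, ← hd]
    refine h5.trans ?_
    nlinarith

end Pool.Agent.E8helper84.TV
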