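import Pool.Agent.E8helper84.TV.Bmp
import Pool.Agent.Y287.HC.BesFin
import Pool.Agent.W354.LS.Main

/-! # The large sieve on a torus and a line -/

set_option autoImplicit false
set_option linter.unusedSectionVars false

open Complex Filter Topology MeasureTheory

namespace Pool.Agent.E8helper84.TV

open Pool.Agent.E8helper84.TR (IsNrm)
open Pool.Agent.W354.LS (ee ee_norm ee_add ee_cont)

section

variable {r : ℕ} {p : (Fin r → ℝ) → ℝ}

/-- the exponential sum -/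
noncomputable def ES {X : Type} (s : Finset X) (y : X → Fin r → ℝ) (ℓ : X → ℝ) (c : X → ℂ)
    (m : Fin r → ℤ) (t : ℝ) : ℂ :=
  ∑ x ∈ s, c x * ee (2 * Real.pi * ∑ i, (m i : ℝ) * y x i) * ee (-(t * ℓ x))

lemma ES_cont {X : Type} (s : Finset X) (y : X → Fin r → ℝ) (ℓ : X → ℝ) (c : X → ℂ)
    (m : Fin r → ℤ) : Continuous (ES s y ℓ c m) := by
  unfold ES
  have := ee_cont
  fun_prop

/-- the discrete version -/
lemma bes_J (h : IsNrm p) {δ : ℝ} (hδ : 0 < δ) : ∃ ρ₀ : ℝ, 0 ≤ ρ₀ ∧ ∀ (V : ℝ) (J : ℕ), 0 < V →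
    0 < J → ∀ (X : Type) (s : Finset X) (y : X → Fin r → ℝ) (ℓ : X → ℝ) (η ρ : ℝ), 0 < η →
    ρ₀ / V ≤ ρ → ρ₀ / J ≤ ρ → ρ ≤ 1 / 8 →
    (∀ x ∈ s, ∀ x' ∈ s, η * |ℓ x - ℓ x'| ≤ Real.pi) →
    (∀ x ∈ s, ∀ x' ∈ s, ∀ m : Fin r → ℤ, (∀ i, |y x i + m i - y x' i| ≤ 2 * ρ) →
      η * |ℓ x - ℓ x'| ≤ 4 * Real.pi * ρ → x = x' ∧ m = 0) →
    ∀ (P : Finset (Fin r → ℤ)), (∀ m ∈ P, p (fun i => (m i : ℝ)) ≤ V) → ∀ (c : X → ℂ),
    ∑ m ∈ P, ∑ j ∈ Finset.range J, ‖ES s y ℓ c m (j * η)‖ ^ 2 ≤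
      (J * V ^ r) * ((volume {θ | p θ ≤ 1}).toReal + δ) * ∑ x ∈ s, ‖c x‖ ^ 2 := by
  classical
  obtain ⟨ρ₀, hρ₀, hbump⟩ := bump_VJ h hδ
  refine ⟨ρ₀, hρ₀, ?_⟩
  intro V J hV hJ X s y ℓ η ρ hη hρ1 hρ2 hρ3 hℓ hsep P hP c
  have hJ' : (0 : ℝ) < J := by exact_mod_cast hJ
  have hpi := Real.pi_pos
  obtain ⟨g, hg, hg0, hg1, hg2⟩ := hbump V J hV hJ'
  obtain ⟨y', hy'⟩ : ∃ y' : X → Fin (r + 1) → ℝ, ∀ x, y' x =
    Fin.cons (-(η * ℓ x) / (2 * Real.pi)) (y x) := ⟨_, fun _ => rfl⟩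
  have hy0 : ∀ x, y' x 0 = -(η * ℓ x) / (2 * Real.pi) := fun x => by rw [hy', Fin.cons_zero]
  have hys : ∀ x (i : Fin r), y' x i.succ = y x i := fun x i => by rw [hy', Fin.cons_succ]
  obtain ⟨f, hf⟩ : ∃ f : (Fin r → ℤ) × ℕ → (Unit →* ℂˣ) × (Fin (r + 1) → ℝ), ∀ q, f q =
    (1, Fin.cons (q.2 : ℝ) (fun i => (q.1 i : ℝ))) := ⟨_, fun _ => rfl⟩
  have hf1 : ∀ q, (f q).1 = 1 := fun q => by rw [hf]
  have hf0 : ∀ q, (f q).2 0 = (q.2 : ℝ) := fun q => by rw [hf]; rfl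
  have hfs : ∀ q (i : Fin r), (f q).2 i.succ = (q.1 i : ℝ) := fun q i => by rw [hf]; rfl
  have hinj : Function.Injective f := by
    intro q q' hq
    refine Prod.ext ?_ ?_
    · funext i
      have h1 := hfs q i
      rw [hq, hfs q' i] at h1
      exact_mod_cast h1.symm
    · have h1 := hf0 q
      rw [hq, hf0 q'] at h1
      exact_mod_cast h1.symm
  have hmain := Pool.Agent.Y287.HC.t_bes (r + 1) Unit (fun _ => 1) ρ g hg (by
      rintro z ⟨i, hi⟩
      exact hg0 z ⟨i, lt_of_le_of_lt (max_le hρ1 hρ2) hi⟩) X s (fun _ => 1) y' (by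
      intro x hx x' hx' m _ hm
      have h0 := hm 0
      rw [hy0, hy0] at h0
      have h1 := hℓ x hx x' hx'
      obtain ⟨A, hA⟩ : ∃ A : ℝ, A = η * (ℓ x - ℓ x') / (2 * Real.pi) := ⟨_, rfl⟩
      have hA1 : |A| = η * |ℓ x - ℓ x'| / (2 * Real.pi) := by
        rw [hA, abs_div, abs_mul, abs_of_pos hη, abs_of_pos (by positivity : 0 < 2 * Real.pi)]
      have hA2 : |A| ≤ 1 / 2 := by
        rw [hA1, div_le_iff₀ (by positivity)]
        linarith
      have e1 : -(η * ℓ x) / (2 * Real.pi) + (m 0 : ℝ) - -(η * ℓ x') / (2 * Real.pi) =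
          (m 0 : ℝ) - A := by
        rw [hA]; ring
      rw [e1] at h0
      have hm0 : m 0 = 0 := by
        have a1 := abs_le.mp h0
        have a2 := abs_le.mp hA2
        have a3 : (m 0 : ℝ) < 1 := by linarith [a1.2, a2.2]
        have a4 : (-1 : ℝ) < m 0 := by linarith [a1.1, a2.1]
        have a5 : m 0 < 1 := by exact_mod_cast a3
        have a6 : -1 < m 0 := by exact_mod_cast a4
        omega
      have h2 := hsep x hx x' hx' (fun i => m i.succ) (fun i => by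
        have := hm i.succ
        rw [hys, hys] at this
        exact this) (by
        rw [hm0, Int.cast_zero, zero_sub, abs_neg, hA1, div_le_iff₀ (by positivity)] at h0
        linarith)
      refine ⟨h2.1, ?_⟩
      funext i
      refine Fin.cases ?_ (fun j => ?_) i
      · exact hm0
      · exact congrFun h2.2 j) ((P ×ˢ Finset.range J).image f) (by
      intro q hq i
      obtain ⟨q', hq', rfl⟩ := Finset.mem_image.mp hq
      rw [hf1, MonoidHom.one_apply, Units.val_one, one_mul]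
      refine Fin.cases ?_ (fun j => ?_) i
      · rw [hf0]
        rw [Complex.exp_eq_one_iff]
        exact ⟨(q'.2 : ℤ), by push_cast; ring⟩
      · rw [hfs]
        rw [Complex.exp_eq_one_iff]
        exact ⟨q'.1 j, by push_cast; ring⟩) c
  rw [Finset.sum_image (fun _ _ _ _ h => hinj h), Finset.sum_product] at hmain
  refine le_trans ?_ (hmain.trans ?_)
  · refine Finset.sum_le_sum fun m hm => Finset.sum_le_sum fun j hj => ?_
    have hjJ : (j : ℝ) ≤ J := by exact_mod_cast (Finset.mem_range.mp hj).le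
    have h1 := hg1 (f (m, j)).2 (by
      have : (fun i : Fin r => (f (m, j)).2 i.succ) = fun i => (m i : ℝ) := by
        funext i; rw [hfs]
      rw [this]
      exact hP m hm) (by rw [hf0]; exact Nat.cast_nonneg _) (by rw [hf0]; exact hjJ)
    have h2 : ES s y ℓ c m (j * η) = ∑ x ∈ s, c x * (((f (m, j)).1 (1 : Unit) : ℂˣ) : ℂ) *
        cexp (2 * Real.pi * I * ((∑ i, (f (m, j)).2 i * y' x i : ℝ) : ℂ)) := by
      unfold ES
      refine Finset.sum_congr rfl fun x _ => ?_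
      rw [hf1, MonoidHom.one_apply, Units.val_one, mul_one, mul_assoc, ← ee_add]
      congr 1
      unfold ee
      congr 1
      rw [Fin.sum_univ_succ, hf0, hy0]
      have : ∑ i : Fin r, (f (m, j)).2 i.succ * y' x i.succ = ∑ i, (m i : ℝ) * y x i :=
        Finset.sum_congr rfl fun i _ => by rw [hfs, hys]
      rw [this]
      have hpc : (Real.pi : ℂ) ≠ 0 := by exact_mod_cast hpi.ne'
      push_cast
      field_simp
      ring
    rw [h2]
    exact le_mul_of_one_le_left (sq_nonneg _) h1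
  · rw [Fintype.card_unit, Nat.cast_one, one_mul]
    exact mul_le_mul_of_nonneg_right hg2 (Finset.sum_nonneg fun _ _ => sq_nonneg _)

/-- the continuous version -/
lemma bes_int (h : IsNrm p) {δ : ℝ} (hδ : 0 < δ) : ∃ ρ₀ : ℝ, 0 ≤ ρ₀ ∧ ∀ (V : ℝ) (J : ℕ), 0 < V →
    0 < J → ∀ (X : Type) (s : Finset X) (y : X → Fin r → ℝ) (ℓ : X → ℝ) (η ρ : ℝ), 0 < η →
    ρ₀ / V ≤ ρ → ρ₀ / J ≤ ρ → ρ ≤ 1 / 8 →
    (∀ x ∈ s, ∀ x' ∈ s, η * |ℓ x - ℓ x'| ≤ Real.pi) →
    (∀ x ∈ s, ∀ x' ∈ s, ∀ m : Fin r → ℤ, (∀ i, |y x i + m i - y x' i| ≤ 2 * ρ) →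
      η * |ℓ x - ℓ x'| ≤ 4 * Real.pi * ρ → x = x' ∧ m = 0) →
    ∀ (P : Finset (Fin r → ℤ)), (∀ m ∈ P, p (fun i => (m i : ℝ)) ≤ V) → ∀ (c : X → ℂ) (α : ℝ),
    ∑ m ∈ P, ∫ t in α..(α + J * η), ‖ES s y ℓ c m t‖ ^ 2 ≤
      (J * η) * (V ^ r * ((volume {θ | p θ ≤ 1}).toReal + δ)) * ∑ x ∈ s, ‖c x‖ ^ 2 := by
  obtain ⟨ρ₀, hρ₀, hb⟩ := bes_J h hδ
  refine ⟨ρ₀, hρ₀, ?_⟩
  intro V J hV hJ X s y ℓ η ρ hη hρ1 hρ2 hρ3 hℓ hsep P hP c α
  have hshift : ∀ (a : ℝ) (m : Fin r → ℤ) (t : ℝ),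
      ES s y ℓ c m (t + a) = ES s y ℓ (fun x => c x * ee (-(a * ℓ x))) m t := by
    intro a m t
    unfold ES
    refine Finset.sum_congr rfl fun x _ => ?_
    have : -((t + a) * ℓ x) = -(a * ℓ x) + -(t * ℓ x) := by ring
    rw [this, ee_add]
    ring
  have hnorm : ∀ a : ℝ, ∑ x ∈ s, ‖c x * ee (-(a * ℓ x))‖ ^ 2 = ∑ x ∈ s, ‖c x‖ ^ 2 := by
    intro a
    refine Finset.sum_congr rfl fun x _ => ?_
    rw [norm_mul, ee_norm, mul_one]
  have hcont : ∀ m, Continuous (fun t => ‖ES s y ℓ c m t‖ ^ 2) := fun m =>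
    (ES_cont s y ℓ c m).norm.pow 2
  have h1 : ∀ m, ∫ t in α..(α + J * η), ‖ES s y ℓ c m t‖ ^ 2 =
      ∫ v in (0 : ℝ)..η, ∑ j ∈ Finset.range J, ‖ES s y ℓ c m (j * η + (α + v))‖ ^ 2 := by
    intro m
    have e1 := intervalIntegral.sum_integral_adjacent_intervals (μ := volume)
      (f := fun t => ‖ES s y ℓ c m t‖ ^ 2) (a := fun k : ℕ => α + k * η) (n := J)
      (fun k _ => (hcont m).intervalIntegrable _ _)
    simp only [Nat.cast_zero, zero_mul, add_zero] at e1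
    rw [← e1, intervalIntegral.integral_finsetSum]
    · refine Finset.sum_congr rfl fun j _ => ?_
      have e2 := intervalIntegral.integral_comp_add_left (a := 0) (b := η)
        (fun t => ‖ES s y ℓ c m t‖ ^ 2) (α + j * η)
      have e3 : α + ((j + 1 : ℕ) : ℝ) * η = α + j * η + η := by push_cast; ring
      rw [e3]
      rw [add_zero] at e2
      rw [← e2]
      refine intervalIntegral.integral_congr fun v _ => ?_
      have e4 : α + j * η + v = j * η + (α + v) := by ring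
      rw [e4]
    · intro j _
      apply Continuous.intervalIntegrable
      exact (hcont m).comp (by fun_prop)
  have hc2 : ∀ m, Continuous (fun v : ℝ =>
      ∑ j ∈ Finset.range J, ‖ES s y ℓ c m (j * η + (α + v))‖ ^ 2) := fun m =>
    continuous_finsetSum _ fun j _ => (hcont m).comp (by fun_prop)
  rw [Finset.sum_congr rfl fun m _ => h1 m, ← intervalIntegral.integral_finsetSum
    (fun m _ => (hc2 m).intervalIntegrable _ _)]
  have h2 : ∫ v in (0 : ℝ)..η, ∑ m ∈ P, ∑ j ∈ Finset.range J,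
      ‖ES s y ℓ c m (j * η + (α + v))‖ ^ 2 ≤
      ∫ _v in (0 : ℝ)..η, (J * V ^ r) * ((volume {θ | p θ ≤ 1}).toReal + δ) *
        ∑ x ∈ s, ‖c x‖ ^ 2 := by
    refine intervalIntegral.integral_mono_on hη.le ?_ ?_ ?_
    · exact (continuous_finsetSum _ fun m _ => hc2 m).intervalIntegrable _ _
    · exact continuous_const.intervalIntegrable _ _
    · intro v _
      have h3 := hb V J hV hJ X s y ℓ η ρ hη hρ1 hρ2 hρ3 hℓ hsep P hP
        (fun x => c x * ee (-((α + v) * ℓ x)))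
      rw [hnorm] at h3
      simp only [hshift]
      exact h3
  refine h2.trans (le_of_eq ?_)
  rw [intervalIntegral.integral_const, smul_eq_mul, sub_zero]
  ring

end

end Pool.Agent.E8helper84.TV
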