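import Pool.Agent.E8helper84.TR.Sep

/-! # Two totally positive integers which are close at all places -/

set_option autoImplicit false
set_option linter.unusedSectionVars false

open NumberField Complex Filter Topology MeasureTheory
open NumberField.Units

namespace Pool.Agent.E8helper84.TV

open Pool.Agent.Y773 (TPos rl)
open Pool.Agent.Y772.SG (abs_rl tpos_iff)
open Pool.Agent.Y767 (mult_one card_places sum_log)
open Pool.Agent.E8helper84.TR (tpos_ne_zero sum_log_unit log_prod_unit)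

section

variable {K : Type} [Field K] [NumberField K] [IsTotallyReal K]

/-- a product of totally positive units is totally positive -/
lemma tpos_prod {r : ℕ} (ε : Fin r → (𝓞 K)ˣ) (hε : ∀ i, TPos K ((ε i : (𝓞 K)ˣ) : 𝓞 K))
    (m : Fin r → ℤ) : TPos K ((∏ i, ε i ^ m i : (𝓞 K)ˣ) : 𝓞 K) := by
  obtain ⟨u, hu⟩ : ∃ u : (𝓞 K)ˣ, u = ∏ i, ε i ^ m i := ⟨_, rfl⟩
  have : u ∈ ({ carrier := {u | TPos K ((u : (𝓞 K)ˣ) : 𝓞 K)}
                mul_mem' := fun {u v} hu hv => by
                  change TPos K ((u * v : (𝓞 K)ˣ) : 𝓞 K)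
                  rw [Units.val_mul]
                  exact Pool.Agent.Y767.tpos_mul hu hv
                one_mem' := by
                  change TPos K ((1 : (𝓞 K)ˣ) : 𝓞 K)
                  rw [Units.val_one]
                  exact Pool.Agent.Y767.tpos_one
                inv_mem' := fun {u} hu => by
                  change TPos K ((u⁻¹ : (𝓞 K)ˣ) : 𝓞 K)
                  refine Pool.Agent.Y767.tpos_of_mul (x := ((u : (𝓞 K)ˣ) : 𝓞 K)) hu ?_
                  rw [← Units.val_mul, mul_inv_cancel, Units.val_one]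
                  exact Pool.Agent.Y767.tpos_one } : Subgroup (𝓞 K)ˣ) := by
    rw [hu]
    exact Subgroup.prod_mem _ fun i _ => Subgroup.zpow_mem _ (hε i) _
  rw [← hu]
  exact this

/-- **the separation lemma** -/
theorem sep_close {r : ℕ} (ε : Fin r → (𝓞 K)ˣ) (hε : ∀ i, TPos K ((ε i : (𝓞 K)ˣ) : 𝓞 K))
    {x x' : 𝓞 K} {y y' : Fin r → ℝ} {m : Fin r → ℤ} (hx : TPos K x) (hx' : TPos K x')
    (hy : ∀ w : InfinitePlace K, Real.log (w (x : K)) -
      Real.log (Ideal.absNorm (Ideal.span {x})) / (Module.finrank ℚ K : ℝ) =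
        ∑ i, y i * Real.log (w ((ε i : (𝓞 K)ˣ) : K)))
    (hy' : ∀ w : InfinitePlace K, Real.log (w (x' : K)) -
      Real.log (Ideal.absNorm (Ideal.span {x'})) / (Module.finrank ℚ K : ℝ) =
        ∑ i, y' i * Real.log (w ((ε i : (𝓞 K)ˣ) : K)))
    {ρ τ E : ℝ} (hE : ∀ w : InfinitePlace K, ∑ i, |Real.log (w ((ε i : (𝓞 K)ˣ) : K))| ≤ E)
    (hρ : 0 ≤ ρ)
    (hm : ∀ i, |y i + m i - y' i| ≤ 2 * ρ)
    (hτ : |Real.log (Ideal.absNorm (Ideal.span {x})) - Real.log (Ideal.absNorm (Ideal.span {x'}))| ≤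
      τ) (h1 : τ + 2 * ρ * E ≤ 1) :
    (Ideal.absNorm (Ideal.span {x * ((∏ i, ε i ^ m i : (𝓞 K)ˣ) : 𝓞 K) - x'}) : ℝ) ≤
      (2 * (τ + 2 * ρ * E)) ^ (Module.finrank ℚ K) * (Ideal.absNorm (Ideal.span {x'}) : ℝ) := by
  obtain ⟨n, hn⟩ : ∃ n : ℝ, n = (Module.finrank ℚ K : ℝ) := ⟨_, rfl⟩
  have hn1 : 1 ≤ n := by
    rw [hn]
    have := Module.finrank_pos (R := ℚ) (M := K)
    exact_mod_cast this
  have hn0 : 0 < n := by linarith
  have hτ0 : 0 ≤ τ := (abs_nonneg _).trans hτ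
  obtain ⟨δ, hδ⟩ : ∃ δ : ℝ, δ = τ + 2 * ρ * E := ⟨_, rfl⟩
  rw [← hδ] at h1 ⊢
  obtain ⟨u, hu⟩ : ∃ u : (𝓞 K)ˣ, u = ∏ i, ε i ^ m i := ⟨_, rfl⟩
  have hut : TPos K (u : 𝓞 K) := by rw [hu]; exact tpos_prod ε hε m
  rw [← hu]
  have hx0 := tpos_ne_zero hx
  have hx0' := tpos_ne_zero hx'
  rw [← hn] at hy hy'
  have hle : ∀ w : InfinitePlace K, w ((x * (u : 𝓞 K) - x' : 𝓞 K) : K) ≤ 2 * δ * w (x' : K) := by
    intro w
    have e0 : ((x * (u : 𝓞 K) - x' : 𝓞 K) : K) = (x : K) * ((u : 𝓞 K) : K) - (x' : K) := by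
      simp
    have px := (tpos_iff x).mp hx w
    have px' := (tpos_iff x').mp hx' w
    have pu := (tpos_iff (u : 𝓞 K)).mp hut w
    have a1 : w (x : K) = rl w (x : K) := by rw [← abs_rl, abs_of_pos px]
    have a2 : w (x' : K) = rl w (x' : K) := by rw [← abs_rl, abs_of_pos px']
    have a3 : w ((u : 𝓞 K) : K) = rl w ((u : 𝓞 K) : K) := by rw [← abs_rl, abs_of_pos pu]
    have p1 : 0 < w (x : K) := by rw [a1]; exact px
    have p2 : 0 < w ((u : 𝓞 K) : K) := by rw [a3]; exact pu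
    have p3 : 0 < w (x' : K) := by rw [a2]; exact px'
    obtain ⟨D, hD⟩ : ∃ D : ℝ, D = Real.log (w (x : K) * w ((u : 𝓞 K) : K)) - Real.log (w (x' : K)) :=
      ⟨_, rfl⟩
    have hDb : |D| ≤ δ := by
      have c0 : D = (Real.log (Ideal.absNorm (Ideal.span {x})) -
          Real.log (Ideal.absNorm (Ideal.span {x'}))) / n +
          ∑ i, (y i + m i - y' i) * Real.log (w ((ε i : (𝓞 K)ˣ) : K)) := by
        rw [hD, Real.log_mul p1.ne' p2.ne', hu, log_prod_unit]
        have c1 := hy w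
        have c2 := hy' w
        have c3 : ∑ i, (y i + m i - y' i) * Real.log (w ((ε i : (𝓞 K)ˣ) : K)) =
            ∑ i, y i * Real.log (w ((ε i : (𝓞 K)ˣ) : K)) +
            ∑ i, (m i : ℝ) * Real.log (w ((ε i : (𝓞 K)ˣ) : K)) -
            ∑ i, y' i * Real.log (w ((ε i : (𝓞 K)ˣ) : K)) := by
          rw [← Finset.sum_add_distrib, ← Finset.sum_sub_distrib]
          exact Finset.sum_congr rfl fun i _ => by ring
        rw [c3, ← c1, ← c2]
        ring
      rw [c0, hδ]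
      refine (abs_add_le _ _).trans (add_le_add ?_ ?_)
      · rw [abs_div, abs_of_pos hn0]
        refine (div_le_self (abs_nonneg _) hn1).trans hτ
      · refine (Finset.abs_sum_le_sum_abs _ _).trans ?_
        calc ∑ i, |(y i + m i - y' i) * Real.log (w ((ε i : (𝓞 K)ˣ) : K))| ≤
            ∑ i, 2 * ρ * |Real.log (w ((ε i : (𝓞 K)ˣ) : K))| := by
              refine Finset.sum_le_sum fun i _ => ?_
              rw [abs_mul]
              exact mul_le_mul_of_nonneg_right (hm i) (abs_nonneg _)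
          _ = 2 * ρ * ∑ i, |Real.log (w ((ε i : (𝓞 K)ˣ) : K))| := by rw [Finset.mul_sum]
          _ ≤ _ := mul_le_mul_of_nonneg_left (hE w) (by positivity)
    have hD1 : |D| ≤ 1 := hDb.trans h1
    have hexp : |Real.exp D - 1| ≤ 2 * |D| := Real.abs_exp_sub_one_le hD1
    have hxu : w (x : K) * w ((u : 𝓞 K) : K) = w (x' : K) * Real.exp D := by
      rw [hD, Real.exp_sub, Real.exp_log (mul_pos p1 p2), Real.exp_log p3]
      field_simp
    rw [e0, ← abs_rl, map_sub, map_mul, ← a1, ← a2, ← a3, hxu]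
    have e3 : w (x' : K) * Real.exp D - w (x' : K) = w (x' : K) * (Real.exp D - 1) := by ring
    rw [e3, abs_mul, abs_of_pos p3]
    calc w (x' : K) * |Real.exp D - 1| ≤ w (x' : K) * (2 * δ) := by
          refine mul_le_mul_of_nonneg_left (hexp.trans ?_) p3.le
          linarith
      _ = _ := by ring
  rw [TR.norm_prod, TR.norm_prod]
  refine (Finset.prod_le_prod (fun w _ => apply_nonneg w _) fun w _ => hle w).trans (le_of_eq ?_)
  rw [Finset.prod_mul_distrib, Finset.prod_const, Finset.card_univ, card_places]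

end

end Pool.Agent.E8helper84.TV
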