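import Pool.Agent.E8helper84.TR.Fam
import Pool.Agent.E8helper84.TV.LS0
import Pool.Agent.E8helper84.TV.Sep

/-! # The large sieve for the infinity types and the height -/

set_option autoImplicit false
set_option linter.unusedSectionVars false

open NumberField Complex MeasureTheory
open NumberField.Units

namespace Pool.Agent.E8helper84.TV

open Pool.Agent.Y773 (TPos)
open Pool.Agent.Y767 (Mq Mq_cop Mq_ne_bot Mq_cancel isUnit_mk coprime_of_isUnit Cls cls cls_eq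
  cls_of_mul cls_pi cls_div cls_one ext_mon exists_lam card_dual finite_dual bes_cls Tq pq pq_coe gq
  gq_coe gq_surj Tq_tp Tq_cop Tq_ne_zero ax ax_coe_mul IsHM
  IsHecke tpos_mul tpos_of_mul tpos_one gq_eq_iff UD)
open Pool.Agent.Y773.IQ (absNorm_pos')
open Pool.Agent.E8helper84.TR (Par UC ph ph_coe Fof Fof_pq norm_F exists_t U_nrm vl tpos_ne_zero
  IsNrm)
open Pool.Agent.W354.LS (ee ee_norm ee_add ee_cont)

section

variable {K : Type} [Field K] [NumberField K] [IsTotallyReal K] (U : UD K)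

/-- the separation condition -/
lemma sep_T {𝔮 : Ideal (𝓞 K)} (htop : 𝔮 ≠ ⊤) {ρ τ E : ℝ}
    (hE : ∀ w : InfinitePlace K, ∑ i, |Real.log (w ((U.ε i : (𝓞 K)ˣ) : K))| ≤ E)
    (hρ : 0 ≤ ρ) (h1 : τ + 2 * ρ * E ≤ 1) {M : ℕ}
    (hM : (2 * (τ + 2 * ρ * E)) ^ (Module.finrank ℚ K) * M < 1) {𝔟 : Mq 𝔮} {x x' : Mq 𝔮}
    {t t' : Tq 𝔮} (hx : x * 𝔟 = pq 𝔮 t) (hx' : x' * 𝔟 = pq 𝔮 t')
    (hxM' : Ideal.absNorm (x' : Ideal (𝓞 K)) ≤ M) {m : Fin (rank K) → ℤ}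
    (hy : ∀ i, |U.yc (t : 𝓞 K) i + m i - U.yc (t' : 𝓞 K) i| ≤ 2 * ρ)
    (hτ : |Real.log (Ideal.absNorm (x : Ideal (𝓞 K))) -
      Real.log (Ideal.absNorm (x' : Ideal (𝓞 K)))| ≤ τ) :
    (t : 𝓞 K) * ((∏ i, U.ε i ^ m i : (𝓞 K)ˣ) : 𝓞 K) = t' := by
  by_contra hne
  have hb0 : (𝔟 : Ideal (𝓞 K)) ≠ ⊥ := Mq_ne_bot htop 𝔟
  have hNb : (0 : ℝ) < Ideal.absNorm (𝔟 : Ideal (𝓞 K)) := by exact_mod_cast absNorm_pos' hb0
  have hNx : (0 : ℝ) < Ideal.absNorm (x : Ideal (𝓞 K)) := by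
    exact_mod_cast absNorm_pos' (Mq_ne_bot htop x)
  have hNx' : (0 : ℝ) < Ideal.absNorm (x' : Ideal (𝓞 K)) := by
    exact_mod_cast absNorm_pos' (Mq_ne_bot htop x')
  have ht1 := congrArg Subtype.val hx
  have ht1' := congrArg Subtype.val hx'
  rw [Submonoid.coe_mul, pq_coe] at ht1 ht1'
  have e1 : (Ideal.absNorm (Ideal.span {(t : 𝓞 K)}) : ℝ) =
      Ideal.absNorm (x : Ideal (𝓞 K)) * Ideal.absNorm (𝔟 : Ideal (𝓞 K)) := by
    rw [← ht1, map_mul]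
    push_cast
    rfl
  have e2 : (Ideal.absNorm (Ideal.span {(t' : 𝓞 K)}) : ℝ) =
      Ideal.absNorm (x' : Ideal (𝓞 K)) * Ideal.absNorm (𝔟 : Ideal (𝓞 K)) := by
    rw [← ht1', map_mul]
    push_cast
    rfl
  have h2 := sep_close U.ε U.tp (x := (t : 𝓞 K)) (x' := (t' : 𝓞 K)) (Tq_tp t) (Tq_tp t')
    (U.ycs t (tpos_ne_zero (Tq_tp t))) (U.ycs t' (tpos_ne_zero (Tq_tp t'))) hE hρ hy (τ := τ) (by
      rw [e1, e2, Real.log_mul hNx.ne' hNb.ne', Real.log_mul hNx'.ne' hNb.ne']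
      have : Real.log (Ideal.absNorm (x : Ideal (𝓞 K))) +
          Real.log (Ideal.absNorm (𝔟 : Ideal (𝓞 K))) -
          (Real.log (Ideal.absNorm (x' : Ideal (𝓞 K))) +
          Real.log (Ideal.absNorm (𝔟 : Ideal (𝓞 K)))) =
          Real.log (Ideal.absNorm (x : Ideal (𝓞 K))) -
          Real.log (Ideal.absNorm (x' : Ideal (𝓞 K))) := by ring
      rw [this]
      exact hτ) h1
  obtain ⟨u, hu⟩ : ∃ u : (𝓞 K)ˣ, u = ∏ i, U.ε i ^ m i := ⟨_, rfl⟩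
  rw [← hu] at h2 hne
  obtain ⟨z, hz⟩ : ∃ z : 𝓞 K, z = (t : 𝓞 K) * (u : 𝓞 K) - t' := ⟨_, rfl⟩
  rw [← hz, e2] at h2
  have hz0 : z ≠ 0 := by
    rw [hz]; exact sub_ne_zero.mpr hne
  have htb : (t : 𝓞 K) ∈ (𝔟 : Ideal (𝓞 K)) := by
    have : Ideal.span {(t : 𝓞 K)} ≤ (𝔟 : Ideal (𝓞 K)) := by
      rw [← ht1]; exact Ideal.mul_le_inf.trans inf_le_right
    exact this (Ideal.mem_span_singleton_self _)
  have htb' : (t' : 𝓞 K) ∈ (𝔟 : Ideal (𝓞 K)) := by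
    have : Ideal.span {(t' : 𝓞 K)} ≤ (𝔟 : Ideal (𝓞 K)) := by
      rw [← ht1']; exact Ideal.mul_le_inf.trans inf_le_right
    exact this (Ideal.mem_span_singleton_self _)
  have hzb : z ∈ (𝔟 : Ideal (𝓞 K)) := by
    rw [hz]; exact sub_mem (Ideal.mul_mem_right _ _ htb) htb'
  have hdiv : (𝔟 : Ideal (𝓞 K)) ∣ Ideal.span {z} := by
    rw [Ideal.dvd_iff_le, Ideal.span_singleton_le_iff_mem]
    exact hzb
  have h5 : Ideal.absNorm (𝔟 : Ideal (𝓞 K)) ≤ Ideal.absNorm (Ideal.span {z}) := by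
    refine Nat.le_of_dvd (absNorm_pos' ?_)
      (Ideal.absNorm_dvd_absNorm_of_le (Ideal.dvd_iff_le.mp hdiv))
    rw [Ne, Ideal.span_singleton_eq_bot]; exact hz0
  have h6 : (Ideal.absNorm (𝔟 : Ideal (𝓞 K)) : ℝ) ≤ Ideal.absNorm (Ideal.span {z}) := by
    exact_mod_cast h5
  obtain ⟨D, hD⟩ : ∃ D : ℝ, D = (2 * (τ + 2 * ρ * E)) ^ (Module.finrank ℚ K) := ⟨_, rfl⟩
  rw [← hD] at h2 hM
  have hτ0 : 0 ≤ τ := (abs_nonneg _).trans hτ
  have hE0 : 0 ≤ E := by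
    obtain ⟨w⟩ : Nonempty (InfinitePlace K) := inferInstance
    exact (Finset.sum_nonneg fun _ _ => abs_nonneg _).trans (hE w)
  have hD0 : 0 ≤ D := by rw [hD]; positivity
  have h7 : (Ideal.absNorm (x' : Ideal (𝓞 K)) : ℝ) ≤ M := by exact_mod_cast hxM'
  have h8 : D * (Ideal.absNorm (x' : Ideal (𝓞 K)) * Ideal.absNorm (𝔟 : Ideal (𝓞 K))) ≤
      D * M * Ideal.absNorm (𝔟 : Ideal (𝓞 K)) := by
    rw [mul_assoc]
    exact mul_le_mul_of_nonneg_left (mul_le_mul_of_nonneg_right h7 hNb.le) hD0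
  have h9 : D * M * Ideal.absNorm (𝔟 : Ideal (𝓞 K)) < 1 * Ideal.absNorm (𝔟 : Ideal (𝓞 K)) :=
    mul_lt_mul_of_pos_right hM hNb
  linarith

/-- the parameter shifted by a lattice point -/
def sh {𝔮 : Ideal (𝓞 K)} (p₀ : Par 𝔮) (m : Fin (rank K) → ℤ) : Par 𝔮 :=
  (p₀.1, fun i => p₀.2 i + m i)

lemma UC_sh {𝔮 : Ideal (𝓞 K)} {p₀ : Par 𝔮} (h : UC U 𝔮 p₀) (m : Fin (rank K) → ℤ) :
    UC U 𝔮 (sh p₀ m) := by
  intro i
  have h1 := h i
  unfold sh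
  simp only
  have e : cexp (2 * Real.pi * I * ((p₀.2 i + (m i : ℝ) : ℝ) : ℂ)) =
      cexp (2 * Real.pi * I * (p₀.2 i : ℂ)) := by
    rw [Complex.exp_eq_exp_iff_exists_int]
    exact ⟨m i, by push_cast; ring⟩
  rw [e]
  exact h1

/-- **the large sieve** -/
theorem ls_T {δ : ℝ} (hδ : 0 < δ) : ∃ ρ₀ E : ℝ, 0 ≤ ρ₀ ∧ 0 ≤ E ∧
    ∀ (𝔮 : Ideal (𝓞 K)) (_ : 𝔮 ≠ ⊥) (_ : 𝔮 ≠ ⊤) (p₀ : Par 𝔮) (_ : UC U 𝔮 p₀) (V : ℝ) (J : ℕ)
    (η ρ τ : ℝ) (M : ℕ),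
    0 < V → 0 < J → 0 < η → ρ₀ / V ≤ ρ → ρ₀ / J ≤ ρ → ρ ≤ 1 / 8 → η * Real.log M ≤ Real.pi →
    4 * Real.pi * ρ ≤ η * τ → τ + 2 * ρ * E ≤ 1 →
    (2 * (τ + 2 * ρ * E)) ^ (Module.finrank ℚ K) * M < 1 →
    ∀ (Y : Finset (Mq 𝔮 →* ℂˣ)), (∀ F ∈ Y, ∃ m : Fin (rank K) → ℤ,
      U.p (fun i => (m i : ℝ)) ≤ V ∧ ∀ x, F (pq 𝔮 x) = ph U 𝔮 (sh p₀ m) x) →
    ∀ (S : Finset (Mq 𝔮)), (∀ x ∈ S, Ideal.absNorm (x : Ideal (𝓞 K)) ≤ M) →
    ∀ (a : Mq 𝔮 → ℂ) (α : ℝ), ∑ F ∈ Y, ∫ t in α..(α + J * η), ‖∑ x ∈ S,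
      a x * ((F x : ℂˣ) : ℂ) * ee (-(t * Real.log (Ideal.absNorm (x : Ideal (𝓞 K)))))‖ ^ 2 ≤
      (Nat.card (Cls (pq 𝔮)) : ℝ) * ((J * η) * (V ^ (rank K) * (vl U + δ))) *
        ∑ x ∈ S, ‖a x‖ ^ 2 := by
  have hn := U_nrm U
  obtain ⟨ρ₀, hρ₀, hb⟩ := bes_int hn hδ
  obtain ⟨E, hE⟩ : ∃ E : ℝ, E = ∑ w : InfinitePlace K,
    ∑ i, |Real.log (w ((U.ε i : (𝓞 K)ˣ) : K))| := ⟨_, rfl⟩
  have hEw : ∀ w : InfinitePlace K, ∑ i, |Real.log (w ((U.ε i : (𝓞 K)ˣ) : K))| ≤ E := by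
    intro w
    rw [hE]
    exact Finset.single_le_sum (f := fun w : InfinitePlace K =>
      ∑ i, |Real.log (w ((U.ε i : (𝓞 K)ˣ) : K))|)
      (fun w _ => Finset.sum_nonneg fun _ _ => abs_nonneg _) (Finset.mem_univ w)
  have hE0 : 0 ≤ E := by
    rw [hE]
    exact Finset.sum_nonneg fun w _ => Finset.sum_nonneg fun _ _ => abs_nonneg _
  refine ⟨ρ₀, E, hρ₀, hE0, ?_⟩
  intro 𝔮 hbot htop p₀ hp₀ V J η ρ τ M hV hJ hη hρ1 hρ2 hρ3 hηM hτ h1 hM Y hY S hS a α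
  classical
  have hfq : Finite (𝓞 K ⧸ 𝔮) := Ideal.finiteQuotientOfFreeOfNeBot 𝔮 hbot
  have := Fintype.ofFinite (𝓞 K ⧸ 𝔮)ˣ
  have := (TR.cls_card hbot htop).1
  have := Fintype.ofFinite (Cls (pq 𝔮))
  have := Mq_cancel htop
  have hρ0 : 0 ≤ ρ := le_trans (div_nonneg hρ₀ hV.le) hρ1
  have hJη : 0 ≤ J * η := by positivity
  choose! mm hmm1 hmm2 using hY
  choose 𝔟 t ht using exists_t hbot htop
  obtain ⟨P, hP⟩ : ∃ P : Finset (Fin (rank K) → ℤ), P = Y.image mm := ⟨_, rfl⟩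
  have hPV : ∀ m ∈ P, U.p (fun i => (m i : ℝ)) ≤ V := by
    intro m hm
    rw [hP] at hm
    obtain ⟨F, hF, rfl⟩ := Finset.mem_image.mp hm
    exact hmm1 F hF
  have hNx : ∀ x : Mq 𝔮, (1 : ℝ) ≤ Ideal.absNorm (x : Ideal (𝓞 K)) := fun x => by
    exact_mod_cast absNorm_pos' (Mq_ne_bot htop x)
  -- coefficients in one class
  obtain ⟨a', ha'⟩ : ∃ a' : Cls (pq 𝔮) → Mq 𝔮 → ℂ, ∀ c x, a' c x =
    a x * ((p₀.1 (gq 𝔮 (t c x)) : ℂˣ) : ℂ) *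
      cexp (2 * Real.pi * I * ((∑ i, p₀.2 i * U.yc (t c x : 𝓞 K) i : ℝ) : ℂ)) :=
    ⟨_, fun _ _ => rfl⟩
  have ha'n : ∀ c x, ‖a' c x‖ = ‖a x‖ := by
    intro c x
    rw [ha', norm_mul, norm_mul, TR.norm_char, mul_one, Complex.norm_exp]
    have : (2 * (Real.pi : ℂ) * I *
        ((∑ i, p₀.2 i * U.yc (t c x : 𝓞 K) i : ℝ) : ℂ)).re = 0 := by
      simp [Complex.mul_re, Complex.mul_im]
    rw [this, Real.exp_zero, mul_one]
  obtain ⟨ℓ, hℓ⟩ : ∃ ℓ : Mq 𝔮 → ℝ, ∀ x, ℓ x = Real.log (Ideal.absNorm (x : Ideal (𝓞 K))) :=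
    ⟨_, fun _ => rfl⟩
  -- pointwise inequality
  have hpt : ∀ v : ℝ, ∑ F ∈ Y, ‖∑ x ∈ S, a x * ((F x : ℂˣ) : ℂ) * ee (-(v * ℓ x))‖ ^ 2 ≤
      (Fintype.card (Cls (pq 𝔮)) : ℝ) * ∑ c : Cls (pq 𝔮), ∑ m ∈ P,
        ‖ES (S.filter (fun x => cls (pq 𝔮) x = c)) (fun x => U.yc (t c x : 𝓞 K)) ℓ (a' c)
          m v‖ ^ 2 := by
    intro v
    have h2 : ∑ F ∈ Y, ‖∑ x ∈ S, a x * ((F x : ℂˣ) : ℂ) * ee (-(v * ℓ x))‖ ^ 2 =
        ∑ m ∈ P, ∑ F ∈ Y.filter (fun F => mm F = m),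
          ‖∑ x ∈ S, (a x * ee (-(v * ℓ x))) * ((F x : ℂˣ) : ℂ)‖ ^ 2 := by
      rw [hP, Finset.sum_fiberwise_of_maps_to (fun F hF => Finset.mem_image_of_mem mm hF)]
      refine Finset.sum_congr rfl fun F _ => ?_
      congr 2
      exact Finset.sum_congr rfl fun x _ => by ring
    rw [h2, Finset.sum_comm, Finset.mul_sum]
    refine Finset.sum_le_sum fun m hm => ?_
    have hUC : UC U 𝔮 (sh p₀ m) := UC_sh U hp₀ m
    have h3 := bes_cls Pool.Agent.Y287.HC.t_bes (pq 𝔮) (Fof U 𝔮 (sh p₀ m))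
      (Y.filter (fun F => mm F = m))
      (by
        intro F hF x
        obtain ⟨h4, h5⟩ := Finset.mem_filter.mp hF
        rw [hmm2 F h4, h5, Fof_pq U htop hUC]) S (fun x => a x * ee (-(v * ℓ x)))
    refine h3.trans (mul_le_mul_of_nonneg_left (le_of_eq ?_) (Nat.cast_nonneg _))
    refine Finset.sum_congr rfl fun c _ => ?_
    have h4 : ∀ x ∈ S.filter (fun x => cls (pq 𝔮) x = c),
        a x * ee (-(v * ℓ x)) * ((Fof U 𝔮 (sh p₀ m) x : ℂˣ) : ℂ) =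
        (a' c x * ee (2 * Real.pi * ∑ i, (m i : ℝ) * U.yc (t c x : 𝓞 K) i) *
          ee (-(v * ℓ x))) * (((Fof U 𝔮 (sh p₀ m) (𝔟 c))⁻¹ : ℂˣ) : ℂ) := by
      intro x hx
      have h5 := ht c x (Finset.mem_filter.mp hx).2
      have h6 := congrArg (Fof U 𝔮 (sh p₀ m)) h5
      rw [map_mul, Fof_pq U htop hUC] at h6
      have h7 : Fof U 𝔮 (sh p₀ m) x = ph U 𝔮 (sh p₀ m) (t c x) *
          (Fof U 𝔮 (sh p₀ m) (𝔟 c))⁻¹ := by
        rw [← h6, mul_inv_cancel_right]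
      have h8 : cexp (2 * Real.pi * I * ((∑ i, (sh p₀ m).2 i * U.yc (t c x : 𝓞 K) i : ℝ) : ℂ)) =
          cexp (2 * Real.pi * I * ((∑ i, p₀.2 i * U.yc (t c x : 𝓞 K) i : ℝ) : ℂ)) *
            ee (2 * Real.pi * ∑ i, (m i : ℝ) * U.yc (t c x : 𝓞 K) i) := by
        unfold ee
        rw [← Complex.exp_add]
        congr 1
        have : ∑ i, (sh p₀ m).2 i * U.yc (t c x : 𝓞 K) i =
            ∑ i, p₀.2 i * U.yc (t c x : 𝓞 K) i + ∑ i, (m i : ℝ) * U.yc (t c x : 𝓞 K) i := by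
          rw [← Finset.sum_add_distrib]
          refine Finset.sum_congr rfl fun i _ => ?_
          unfold sh
          ring
        rw [this]
        push_cast
        ring
      have h9 : (sh p₀ m).1 = p₀.1 := rfl
      rw [h7, Units.val_mul, ph_coe, h8, ha', h9]
      ring
    unfold ES
    rw [Finset.sum_congr rfl h4, ← Finset.sum_mul, norm_mul]
    have h8 : ‖(((Fof U 𝔮 (sh p₀ m) (𝔟 c))⁻¹ : ℂˣ) : ℂ)‖ = 1 := by
      rw [Units.val_inv_eq_inv_val, norm_inv,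
        norm_F U hbot htop (p := sh p₀ m) (fun x => Fof_pq U htop hUC x), inv_one]
    rw [h8, mul_one]
  -- one class
  have hcl : ∀ c : Cls (pq 𝔮), ∑ m ∈ P, ∫ v in α..(α + J * η),
      ‖ES (S.filter (fun x => cls (pq 𝔮) x = c)) (fun x => U.yc (t c x : 𝓞 K)) ℓ (a' c)
          m v‖ ^ 2 ≤ (J * η) * (V ^ (rank K) * (vl U + δ)) *
        ∑ x ∈ S.filter (fun x => cls (pq 𝔮) x = c), ‖a x‖ ^ 2 := by
    intro c
    have h2 := hb V J hV hJ (Mq 𝔮) (S.filter (fun x => cls (pq 𝔮) x = c))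
      (fun x => U.yc (t c x : 𝓞 K)) ℓ η ρ hη hρ1 hρ2 hρ3 (by
        intro x hx x' hx'
        have a1 := hS x (Finset.mem_filter.mp hx).1
        have a2 := hS x' (Finset.mem_filter.mp hx').1
        have b1 := hNx x
        have b2 := hNx x'
        have a3 : (Ideal.absNorm (x : Ideal (𝓞 K)) : ℝ) ≤ M := by exact_mod_cast a1
        have a4 : (Ideal.absNorm (x' : Ideal (𝓞 K)) : ℝ) ≤ M := by exact_mod_cast a2
        have c1 := Real.log_le_log (by linarith) a3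
        have c2 := Real.log_le_log (by linarith) a4
        have c3 := Real.log_nonneg b1
        have c4 := Real.log_nonneg b2
        have c5 : |ℓ x - ℓ x'| ≤ Real.log M := by
          rw [hℓ, hℓ, abs_le]
          constructor <;> linarith
        exact (mul_le_mul_of_nonneg_left c5 hη.le).trans hηM) (by
        intro x hx x' hx' m hm1 hm2
        obtain ⟨hx1, hx2⟩ := Finset.mem_filter.mp hx
        obtain ⟨hx1', hx2'⟩ := Finset.mem_filter.mp hx'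
        have h3 : |ℓ x - ℓ x'| ≤ τ := by
          have : η * |ℓ x - ℓ x'| ≤ η * τ := hm2.trans hτ
          exact le_of_mul_le_mul_left this hη
        rw [hℓ, hℓ] at h3
        have h4 := sep_T U htop hEw hρ0 h1 hM (ht c x hx2) (ht c x' hx2')
          (hS x' hx1') hm1 h3
        have h5 : pq 𝔮 (t c x) = pq 𝔮 (t c x') := by
          apply Subtype.ext
          rw [pq_coe, pq_coe, ← h4, ← Ideal.span_singleton_mul_span_singleton,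
            Ideal.span_singleton_eq_top.mpr (∏ i, U.ε i ^ m i : (𝓞 K)ˣ).isUnit, Ideal.mul_top]
        have h6 : x = x' := by
          rw [← ht c x hx2, ← ht c x' hx2'] at h5
          exact mul_right_cancel h5
        refine ⟨h6, ?_⟩
        subst h6
        apply U.ind
        ext
        have h7 : (t c x : 𝓞 K) ≠ 0 := tpos_ne_zero (Tq_tp _)
        have h8 := mul_left_cancel₀ h7 (h4.trans (mul_one _).symm)
        rw [h8, Units.val_one]) P hPV (a' c) α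
    simp only [ha'n] at h2
    exact h2
  -- integration
  have hcF : ∀ F : Mq 𝔮 →* ℂˣ, Continuous (fun v : ℝ =>
      ‖∑ x ∈ S, a x * ((F x : ℂˣ) : ℂ) * ee (-(v * ℓ x))‖ ^ 2) := fun F => by
    have := ee_cont
    fun_prop
  have hcE : ∀ (c : Cls (pq 𝔮)) (m : Fin (rank K) → ℤ), Continuous (fun v : ℝ =>
      ‖ES (S.filter (fun x => cls (pq 𝔮) x = c)) (fun x => U.yc (t c x : 𝓞 K)) ℓ (a' c)
          m v‖ ^ 2) := fun c m => (ES_cont _ _ _ _ _).norm.pow 2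
  have h0 : α ≤ α + J * η := by linarith
  have e0 : ∀ F : Mq 𝔮 →* ℂˣ, (∫ v in α..(α + J * η), ‖∑ x ∈ S,
      a x * ((F x : ℂˣ) : ℂ) * ee (-(v * Real.log (Ideal.absNorm (x : Ideal (𝓞 K)))))‖ ^ 2) =
      ∫ v in α..(α + J * η), ‖∑ x ∈ S, a x * ((F x : ℂˣ) : ℂ) * ee (-(v * ℓ x))‖ ^ 2 := by
    intro F
    simp only [hℓ]
  rw [Finset.sum_congr rfl fun F _ => e0 F, ← intervalIntegral.integral_finsetSum
    (fun F _ => (hcF F).intervalIntegrable _ _)]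
  have h2 : ∫ v in α..(α + J * η), ∑ F ∈ Y,
      ‖∑ x ∈ S, a x * ((F x : ℂˣ) : ℂ) * ee (-(v * ℓ x))‖ ^ 2 ≤
      ∫ v in α..(α + J * η), (Fintype.card (Cls (pq 𝔮)) : ℝ) * ∑ c : Cls (pq 𝔮), ∑ m ∈ P,
        ‖ES (S.filter (fun x => cls (pq 𝔮) x = c)) (fun x => U.yc (t c x : 𝓞 K)) ℓ (a' c)
          m v‖ ^ 2 := by
    refine intervalIntegral.integral_mono_on h0 ?_ ?_ fun v _ => hpt v
    · exact (continuous_finsetSum _ fun F _ => hcF F).intervalIntegrable _ _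
    · exact (continuous_const.mul (continuous_finsetSum _ fun c _ =>
        continuous_finsetSum _ fun m _ => hcE c m)).intervalIntegrable _ _
  refine h2.trans ?_
  rw [intervalIntegral.integral_const_mul, intervalIntegral.integral_finsetSum
    (fun c _ => (continuous_finsetSum _ fun m _ => hcE c m).intervalIntegrable _ _)]
  have h3 : ∀ c : Cls (pq 𝔮), (∫ v in α..(α + J * η), ∑ m ∈ P,
        ‖ES (S.filter (fun x => cls (pq 𝔮) x = c)) (fun x => U.yc (t c x : 𝓞 K)) ℓ (a' c)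
          m v‖ ^ 2) = ∑ m ∈ P, ∫ v in α..(α + J * η),
        ‖ES (S.filter (fun x => cls (pq 𝔮) x = c)) (fun x => U.yc (t c x : 𝓞 K)) ℓ (a' c)
          m v‖ ^ 2 := fun c =>
    intervalIntegral.integral_finsetSum (fun m _ => (hcE c m).intervalIntegrable _ _)
  rw [Finset.sum_congr rfl fun c _ => h3 c, Nat.card_eq_fintype_card, mul_assoc]
  refine mul_le_mul_of_nonneg_left ?_ (Nat.cast_nonneg _)
  refine (Finset.sum_le_sum fun c _ => hcl c).trans (le_of_eq ?_)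
  rw [← Finset.mul_sum]
  congr 1
  exact Finset.sum_fiberwise S (cls (pq 𝔮)) (fun x => ‖a x‖ ^ 2)

end

end Pool.Agent.E8helper84.TV
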